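import Pool.Agent.Lib.MP_82d824_gt.Defs

/-!
# JOB Chart: critical points in a chart

Everything reduces to `crit`, `loc` in the chart `φ = extChartAt (II n) x₀` (boundaryless model: `φ.source`, `φ.target` are open,
`extChartAt_source`, `isOpen_extChartAt_target`, `isOpen_extChartAt_source`).

* `loc_contDiffOn`: `contMDiffOn_extChartAt_symm`, `ContMDiff.comp_contMDiffOn`, `contMDiffOn_iff_contDiffOn`.
* `mfderiv_eq_loc`: near `x` we have `f = loc f x₀ ∘ φ`; chain rule `mfderiv_comp`, `mfderiv_eq_fderiv`,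
  `ContMDiffAt.mdifferentiableAt` (`contMDiffAt_extChartAt'`), `Filter.EventuallyEq.mfderiv_eq`.
* `crit_iff_loc`, `inj_iff_loc`: `isInvertible_mfderiv_extChartAt` (the derivative of `φ` at `x` is invertible, so it can be
  cancelled in `∀ v` and in `Injective`).
* `crit_iff_height`: `⟪y, ·⟫ ∘ f`, chain rule with the continuous linear map `innerSL ℝ y`.
* `crit_of_isLocalExtr`: `loc` version: `u ↦ ⟪y, loc f x u⟫` has a local extremum at `φ x` (`IsLocalExtr` composed with the
  continuous map `φ.symm`, `continuousAt_extChartAt_symm`), `IsLocalExtr.fderiv_eq_zero`, then `crit_iff_loc`.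
* `loc_height`: unfold.
-/

set_option autoImplicit false

open MeasureTheory Metric Set Filter Topology
open scoped ENNReal Manifold ContDiff

noncomputable section

namespace TAC

variable {n N : ℕ} {M : Type} [TopologicalSpace M] [ChartedSpace (EE n) M] [IsManifold (II n) sm M]

theorem Chart_isManifold_one : IsManifold (II n) 1 M :=
  IsManifold.of_le (n := sm) (by
    show (1 : WithTop ENat) ≤ ((⊤ : ENat) : WithTop ENat)
    exact_mod_cast le_top)

theorem loc_contDiffOn {f : M → EE N} (hf : ContMDiff (II n) (II N) sm f) (x₀ : M) :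
    ContDiffOn ℝ sm (loc n f x₀) (extChartAt (II n) x₀).target := by
  have h1 : ContMDiffOn (II n) (II n) sm (extChartAt (II n) x₀).symm (extChartAt (II n) x₀).target :=
    contMDiffOn_extChartAt_symm x₀
  exact (hf.comp_contMDiffOn h1).contDiffOn

theorem Chart_loc_diff {f : M → EE N} (hf : ContMDiff (II n) (II N) sm f) (x₀ : M) {x : M}
    (hx : x ∈ (extChartAt (II n) x₀).source) :
    DifferentiableAt ℝ (loc n f x₀) (extChartAt (II n) x₀ x) := by
  have h1 : (extChartAt (II n) x₀).target ∈ 𝓝 (extChartAt (II n) x₀ x) :=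
    (isOpen_extChartAt_target x₀).mem_nhds ((extChartAt (II n) x₀).map_source hx)
  exact ((loc_contDiffOn hf x₀).contDiffAt h1).differentiableAt (by
    intro h
    have : (sm : WithTop ENat) = 0 := h
    exact absurd this (by simp [sm]))

theorem Chart_mfderiv {f : M → EE N} (hf : ContMDiff (II n) (II N) sm f) (x₀ : M) {x : M}
    (hx : x ∈ (extChartAt (II n) x₀).source) :
    (mfderiv (II n) (II N) f x : EE n →L[ℝ] EE N) = (fderiv ℝ (loc n f x₀) (extChartAt (II n) x₀ x)).comp
      (mfderiv (II n) (II n) (extChartAt (II n) x₀) x : EE n →L[ℝ] EE n) := by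
  have : IsManifold (II n) 1 M := Chart_isManifold_one
  have hφ : MDifferentiableAt (II n) (II n) (extChartAt (II n) x₀) x :=
    mdifferentiableAt_extChartAt (by rwa [extChartAt_source] at hx)
  have hl := (Chart_loc_diff hf x₀ hx).mdifferentiableAt
  have h1 : f =ᶠ[𝓝 x] (loc n f x₀ ∘ extChartAt (II n) x₀) := by
    filter_upwards [(isOpen_extChartAt_source (I := II n) x₀).mem_nhds hx] with x' hx'
    simp only [loc, Function.comp_apply]
    rw [(extChartAt (II n) x₀).left_inv hx']
  have h2 : (mfderiv (II n) (II N) f x : EE n →L[ℝ] EE N)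
      = (mfderiv (II n) (II N) (loc n f x₀ ∘ extChartAt (II n) x₀) x : EE n →L[ℝ] EE N) := h1.mfderiv_eq
  have h3 := mfderiv_comp x hl hφ
  rw [mfderiv_eq_fderiv] at h3
  exact h2.trans h3

theorem mfderiv_eq_loc {f : M → EE N} (hf : ContMDiff (II n) (II N) sm f) (x₀ : M) {x : M}
    (hx : x ∈ (extChartAt (II n) x₀).source) (v : TangentSpace (II n) x) :
    (mfderiv (II n) (II N) f x v : EE N) = fderiv ℝ (loc n f x₀) (extChartAt (II n) x₀ x)
      (mfderiv (II n) (II n) (extChartAt (II n) x₀) x v : EE n) := by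
  exact congrArg (fun L : EE n →L[ℝ] EE N => L v) (Chart_mfderiv hf x₀ hx)

theorem Chart_bij (x₀ : M) {x : M} (hx : x ∈ (extChartAt (II n) x₀).source) :
    Function.Bijective (mfderiv (II n) (II n) (extChartAt (II n) x₀) x : EE n →L[ℝ] EE n) := by
  have : IsManifold (II n) 1 M := Chart_isManifold_one
  obtain ⟨e, he⟩ := isInvertible_mfderiv_extChartAt (I := II n) hx
  have h1 : (e : EE n → EE n) = (mfderiv (II n) (II n) (extChartAt (II n) x₀) x : EE n →L[ℝ] EE n) := by
    funext v
    exact congrArg (fun L : EE n →L[ℝ] EE n => L v) he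
  rw [← h1]
  exact e.bijective

theorem crit_iff_loc {f : M → EE N} (hf : ContMDiff (II n) (II N) sm f) (x₀ : M) {x : M}
    (hx : x ∈ (extChartAt (II n) x₀).source) (y : EE N) :
    x ∈ crit n f y ↔ ∀ v : EE n, inner ℝ y (fderiv ℝ (loc n f x₀) (extChartAt (II n) x₀ x) v) = 0 := by
  constructor
  · intro h v
    obtain ⟨w, hw⟩ := (Chart_bij (n := n) x₀ hx).2 v
    rw [← hw]
    have h1 := h w
    rwa [mfderiv_eq_loc hf x₀ hx w] at h1
  · intro h v
    rw [mfderiv_eq_loc hf x₀ hx v]
    exact h _

theorem inj_iff_loc {f : M → EE N} (hf : ContMDiff (II n) (II N) sm f) (x₀ : M) {x : M}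
    (hx : x ∈ (extChartAt (II n) x₀).source) :
    Function.Injective (mfderiv (II n) (II N) f x) ↔
      Function.Injective (fderiv ℝ (loc n f x₀) (extChartAt (II n) x₀ x)) := by
  have h1 : (mfderiv (II n) (II N) f x : EE n → EE N)
      = (fderiv ℝ (loc n f x₀) (extChartAt (II n) x₀ x)) ∘
        (mfderiv (II n) (II n) (extChartAt (II n) x₀) x : EE n →L[ℝ] EE n) := by
    funext v
    exact mfderiv_eq_loc hf x₀ hx v
  have h2 := Function.Injective.of_comp_iff' (fderiv ℝ (loc n f x₀) (extChartAt (II n) x₀ x))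
    (Chart_bij (n := n) x₀ hx)
  rw [← h1] at h2
  exact h2

theorem crit_eq_critF {f : M → EE N} (hf : ContMDiff (II n) (II N) sm f) (y : EE N) :
    crit n f y = critF n (fun x => inner ℝ y (f x)) := by
  ext x
  have hfx : MDifferentiableAt (II n) (II N) f x := (hf x).mdifferentiableAt (by
    intro h
    have : (sm : WithTop ENat) = 0 := h
    exact absurd this (by simp [sm]))
  have hg : MDifferentiableAt (II N) (modelWithCornersSelf ℝ ℝ) (innerSL ℝ y : EE N → ℝ) (f x) :=
    (innerSL ℝ y).differentiableAt.mdifferentiableAt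
  have h3 := mfderiv_comp x hg hfx
  rw [mfderiv_eq_fderiv, ContinuousLinearMap.fderiv] at h3
  have h4 : ∀ v : EE n, (mfderiv (II n) (modelWithCornersSelf ℝ ℝ) (fun x => inner ℝ y (f x) : M → ℝ) x
      : EE n →L[ℝ] ℝ) v = inner ℝ y (mfderiv (II n) (II N) f x v : EE N) := by
    intro v
    exact congrArg (fun L : EE n →L[ℝ] ℝ => L v) h3
  constructor
  · intro h
    show (mfderiv (II n) (modelWithCornersSelf ℝ ℝ) (fun x => inner ℝ y (f x) : M → ℝ) x
      : EE n →L[ℝ] ℝ) = 0
    ext v
    rw [h4 v]
    exact h v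
  · intro h v
    rw [← h4 v]
    have h5 : (mfderiv (II n) (modelWithCornersSelf ℝ ℝ) (fun x => inner ℝ y (f x) : M → ℝ) x
      : EE n →L[ℝ] ℝ) = 0 := h
    rw [h5]
    rfl

theorem crit_of_isLocalExtr {f : M → EE N} (hf : ContMDiff (II n) (II N) sm f) {y : EE N} {x : M}
    (h : IsLocalExtr (fun x => inner ℝ y (f x) : M → ℝ) x) : x ∈ crit n f y := by
  have hx : x ∈ (extChartAt (II n) x).source := mem_extChartAt_source x
  rw [crit_iff_loc hf x hx y]
  have h1 : Tendsto (extChartAt (II n) x).symm (𝓝 (extChartAt (II n) x x)) (𝓝 x) := by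
    have := continuousAt_extChartAt_symm (I := II n) x
    rw [ContinuousAt, (extChartAt (II n) x).left_inv hx] at this
    exact this
  have h2 : IsLocalExtr (fun u => inner ℝ y (loc n f x u) : EE n → ℝ) (extChartAt (II n) x x) := by
    have e : ((fun x => inner ℝ y (f x) : M → ℝ) ((extChartAt (II n) x).symm (extChartAt (II n) x x)))
        = inner ℝ y (f x) := by rw [(extChartAt (II n) x).left_inv hx]
    rcases h with h | h
    · left
      have h3 := h1.eventually h
      refine h3.mono (fun u hu => ?_)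
      simp only [loc, Function.comp_apply]
      rw [(extChartAt (II n) x).left_inv hx]
      exact hu
    · right
      have h3 := h1.eventually h
      refine h3.mono (fun u hu => ?_)
      simp only [loc, Function.comp_apply]
      rw [(extChartAt (II n) x).left_inv hx]
      exact hu
  have h3 := h2.fderiv_eq_zero
  have hd := (Chart_loc_diff hf x hx).hasFDerivAt
  have h4 : HasFDerivAt (fun u => inner ℝ y (loc n f x u) : EE n → ℝ)
      ((innerSL ℝ y).comp (fderiv ℝ (loc n f x) (extChartAt (II n) x x))) (extChartAt (II n) x x) :=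
    (innerSL ℝ y).hasFDerivAt.comp _ hd
  rw [h4.fderiv] at h3
  intro v
  exact congrArg (fun L : EE n →L[ℝ] ℝ => L v) h3

omit [IsManifold (II n) sm M] in
theorem loc_height (f : M → EE N) (y : EE N) (x₀ : M) :
    (fun x => inner ℝ y (f x) : M → ℝ) ∘ (extChartAt (II n) x₀).symm = fun u => inner ℝ y (loc n f x₀ u) := by
  rfl

end TAC
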