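import Pool.Agent.Lib.MP_82d824_gt.Chart

/-!
# JOB Closed: the set of all `(x, y)` with `y` normal to `f` at `x` is closed

Complement open: let `x₀ ∉ crit n f y₀`. By `crit_iff_loc` (chart at `x₀`) there is `v` with
`⟪y₀, fderiv (loc f x₀) (φ x₀) v⟫ ≠ 0`. The function `(x, y) ↦ ⟪y, fderiv (loc f x₀) (φ x) v⟫` is continuous at `(x₀, y₀)`
(`fderiv (loc f x₀)` is continuous on the open set `φ.target` by `loc_contDiffOn`, `ContDiffOn.continuousOn_fderiv_of_isOpen`;
`φ` is continuous at `x₀`), so it is nonzero near `(x₀, y₀)`, and `x ∈ φ.source` near `x₀`.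
-/

set_option autoImplicit false

open MeasureTheory Metric Set Filter Topology
open scoped ENNReal Manifold ContDiff

noncomputable section

namespace TAC

variable {n N : ℕ} {M : Type} [TopologicalSpace M] [ChartedSpace (EE n) M] [IsManifold (II n) sm M]

theorem isClosed_crit {f : M → EE N} (hf : ContMDiff (II n) (II N) sm f) :
    IsClosed {p : M × EE N | p.1 ∈ crit n f p.2} := by
  rw [← isOpen_compl_iff, isOpen_iff_mem_nhds]
  rintro ⟨x₀, y₀⟩ h0
  have hx0 : x₀ ∈ (extChartAt (II n) x₀).source := mem_extChartAt_source x₀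
  have h1 : ¬ (x₀ ∈ crit n f y₀) := h0
  rw [crit_iff_loc hf x₀ hx0] at h1
  push Not at h1
  obtain ⟨v, hv⟩ := h1
  have hopen : IsOpen (extChartAt (II n) x₀).target := isOpen_extChartAt_target x₀
  have hD : ContinuousOn (fderiv ℝ (loc n f x₀)) (extChartAt (II n) x₀).target :=
    (loc_contDiffOn hf x₀).continuousOn_fderiv_of_isOpen hopen (by simp)
  have hDat : ContinuousAt (fderiv ℝ (loc n f x₀)) (extChartAt (II n) x₀ x₀) :=
    hD.continuousAt (hopen.mem_nhds (mem_extChartAt_target x₀))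
  have hφ : ContinuousAt (extChartAt (II n) x₀) x₀ := continuousAt_extChartAt x₀
  have hcomp : ContinuousAt (fun x : M => fderiv ℝ (loc n f x₀) (extChartAt (II n) x₀ x)) x₀ :=
    ContinuousAt.comp (f := extChartAt (II n) x₀) (x := x₀) hDat hφ
  have hcomp2 : ContinuousAt
      (fun p : M × EE N => fderiv ℝ (loc n f x₀) (extChartAt (II n) x₀ p.1)) (x₀, y₀) :=
    ContinuousAt.comp (f := Prod.fst) (x := ((x₀, y₀) : M × EE N)) hcomp continuousAt_fst
  have hc : ContinuousAt (fun p : M × EE N =>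
      (inner ℝ p.2 (fderiv ℝ (loc n f x₀) (extChartAt (II n) x₀ p.1) v) : ℝ)) (x₀, y₀) :=
    ContinuousAt.inner continuousAt_snd (hcomp2.clm_apply continuousAt_const)
  have h3 : ∀ᶠ p : M × EE N in 𝓝 (x₀, y₀),
      (inner ℝ p.2 (fderiv ℝ (loc n f x₀) (extChartAt (II n) x₀ p.1) v) : ℝ) ≠ 0 :=
    hc.eventually_ne hv
  have h4 : ∀ᶠ p : M × EE N in 𝓝 (x₀, y₀), p.1 ∈ (extChartAt (II n) x₀).source :=
    (continuousAt_fst (p := ((x₀, y₀) : M × EE N))).eventually (extChartAt_source_mem_nhds x₀)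
  filter_upwards [h3, h4] with p h5 h6 h7
  exact h5 ((crit_iff_loc hf x₀ h6 p.2).1 h7 v)

end TAC
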