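import Pool.Agent.Lib.MP_82d824_gt.Defs

/-!
# JOB Cubes: counting points with small cubes

`cell l k i` is the `i`-th cell of the subdivision of the cube `[a, a + l)^n` into `(2^k)^n` cells of side `l / 2^k`.

* `cell_dist`: two points of a cell differ by at most `l / 2^k` in each coordinate; `EuclideanSpace.dist_eq`, or
  `‖x‖ ≤ √n * sup` ; crude bound `n * (l / 2^k)` by `‖x‖ ≤ ∑ |x i|`.
* `encard_le`: if `m ≤ encard S` take `m` distinct points; for large `k` they are in distinct cells (two distinct points are at a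
  distance `> n * l / 2^k`), and each point of the cube is in some cell (`i j = ⌊2^k (u j - a j) / l⌋`). So for all large `k` at least `m`
  cells meet `S`: `m ≤ ∑ i, if (cell ∩ S).Nonempty then 1 else 0`; so `m ≤ liminf`.
  If `encard S` is finite take `m = encard S`, if it is infinite take all `m` (`ENNReal` : `le_of_forall_nat...` /
  `ENNReal.iSup_natCast`). `Filter.le_liminf_of_le`.
-/

set_option autoImplicit false

open MeasureTheory Metric Set Filter Topology
open scoped ENNReal Manifold ContDiff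

noncomputable section

namespace TAC

variable {n : ℕ}

/-- the cell `i` of the subdivision of `[a, a + l)^n` into `(2^k)^n` cells -/
def cell (a : EE n) (l : ℝ) (k : ℕ) (i : Fin n → Fin (2 ^ k)) : Set (EE n) :=
  {u | ∀ j, a j + l * (i j : ℕ) / 2 ^ k ≤ u j ∧ u j < a j + l * ((i j : ℕ) + 1) / 2 ^ k}

theorem Cubes_norm_le (x : EE n) : ‖x‖ ≤ ∑ j, |x j| := by
  conv_lhs => rw [← (EuclideanSpace.basisFun (Fin n) ℝ).sum_repr x]
  refine (norm_sum_le _ _).trans (Finset.sum_le_sum fun j _ => ?_)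
  rw [norm_smul, (EuclideanSpace.basisFun (Fin n) ℝ).norm_eq_one, mul_one, Real.norm_eq_abs]
  exact le_of_eq rfl

theorem cell_dist (a : EE n) {l : ℝ} (hl : 0 < l) (k : ℕ) (i : Fin n → Fin (2 ^ k)) {u u' : EE n}
    (hu : u ∈ cell a l k i) (hu' : u' ∈ cell a l k i) : ‖u - u'‖ ≤ n * (l / 2 ^ k) := by
  refine (Cubes_norm_le _).trans ?_
  have h1 : ∀ j ∈ (Finset.univ : Finset (Fin n)), |(u - u') j| ≤ l / 2 ^ k := by
    intro j _
    have h := hu j
    have h' := hu' j
    have e : l * (((i j : ℕ) : ℝ) + 1) / 2 ^ k = l * ((i j : ℕ) : ℝ) / 2 ^ k + l / 2 ^ k := by ring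
    rw [e] at h h'
    rw [PiLp.sub_apply, abs_le]
    constructor <;> linarith [h.1, h.2, h'.1, h'.2]
  refine (Finset.sum_le_sum h1).trans ?_
  rw [Finset.sum_const, Finset.card_univ, Fintype.card_fin, nsmul_eq_mul]

theorem Cubes_exists_cell (a : EE n) {l : ℝ} (hl : 0 < l) (k : ℕ) {u : EE n}
    (hu : ∀ j, a j ≤ u j ∧ u j < a j + l) : ∃ i : Fin n → Fin (2 ^ k), u ∈ cell a l k i := by
  have h2 : (0 : ℝ) < 2 ^ k := by positivity
  have h0 : ∀ j, 0 ≤ 2 ^ k * (u j - a j) / l := by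
    intro j
    apply div_nonneg (mul_nonneg h2.le (by linarith [(hu j).1])) hl.le
  have h1 : ∀ j, ⌊2 ^ k * (u j - a j) / l⌋₊ < 2 ^ k := by
    intro j
    rw [Nat.floor_lt (h0 j), div_lt_iff₀ hl]
    push_cast
    apply mul_lt_mul_of_pos_left _ h2
    linarith [(hu j).2]
  refine ⟨fun j => ⟨_, h1 j⟩, fun j => ?_⟩
  have e1 := Nat.floor_le (h0 j)
  have e2 := Nat.lt_floor_add_one (2 ^ k * (u j - a j) / l)
  set f : ℝ := ((⌊2 ^ k * (u j - a j) / l⌋₊ : ℕ) : ℝ) with hf
  rw [le_div_iff₀ hl] at e1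
  rw [div_lt_iff₀ hl] at e2
  show a j + l * f / 2 ^ k ≤ u j ∧ u j < a j + l * (f + 1) / 2 ^ k
  constructor
  · have : l * f / 2 ^ k ≤ u j - a j := by
      rw [div_le_iff₀ h2]
      linarith
    linarith
  · have : u j - a j < l * (f + 1) / 2 ^ k := by
      rw [lt_div_iff₀ h2]
      linarith
    linarith

open Classical in
theorem Cubes_nat_le (a : EE n) {l : ℝ} (hl : 0 < l) {S : Set (EE n)}
    (hS : ∀ u ∈ S, ∀ j, a j ≤ u j ∧ u j < a j + l) {m : ℕ} (hm : (m : ℕ∞) ≤ S.encard) :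
    (m : ℝ≥0∞) ≤
      liminf (fun k : ℕ => ∑ i : Fin n → Fin (2 ^ k), if (cell a l k i ∩ S).Nonempty then (1 : ℝ≥0∞) else 0) atTop := by
  obtain ⟨T, hTS, hT⟩ := Set.exists_subset_encard_eq hm
  have hTf : T.Finite := Set.finite_of_encard_eq_coe hT
  have hTc : hTf.toFinset.card = m := by
    have h := hTf.encard_eq_coe_toFinset_card
    rw [hT] at h
    exact_mod_cast h.symm
  have hlim : Tendsto (fun k : ℕ => (n : ℝ) * (l / 2 ^ k)) atTop (𝓝 0) := by
    have h1 : Tendsto (fun k : ℕ => (n : ℝ) * l * (1 / 2 : ℝ) ^ k) atTop (𝓝 ((n : ℝ) * l * 0)) :=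
      (tendsto_pow_atTop_nhds_zero_of_lt_one (by norm_num) (by norm_num)).const_mul _
    rw [mul_zero] at h1
    refine h1.congr fun k => ?_
    rw [one_div, inv_pow]
    ring
  have hev : ∀ᶠ k : ℕ in atTop, ∀ x ∈ T, ∀ y ∈ T, x ≠ y → (n : ℝ) * (l / 2 ^ k) < ‖x - y‖ := by
    rw [hTf.eventually_all]
    intro x _
    rw [hTf.eventually_all]
    intro y _
    by_cases hxy : x = y
    · exact Eventually.of_forall fun k h => absurd hxy h
    · have h1 : 0 < ‖x - y‖ := norm_pos_iff.2 (sub_ne_zero.2 hxy)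
      filter_upwards [hlim.eventually_lt_const h1] with k hk _
      exact hk
  apply le_liminf_of_le
  · isBoundedDefault
  filter_upwards [hev] with k hk
  choose! i hi using fun (x : EE n) (hx : x ∈ T) => Cubes_exists_cell a hl k (hS x (hTS hx))
  have hinj : Set.InjOn i T := by
    intro x hx y hy hxy
    by_contra hne
    have h1 := cell_dist a hl k (i x) (hi x hx) (by rw [hxy]; exact hi y hy)
    exact absurd (hk x hx y hy hne) (not_lt.2 h1)
  rw [Finset.sum_boole]
  have h2 : m ≤ (Finset.univ.filter fun j : Fin n → Fin (2 ^ k) => (cell a l k j ∩ S).Nonempty).card := by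
    rw [← hTc]
    apply Finset.card_le_card_of_injOn i
    · intro x hx
      have hx' : x ∈ T := by simpa using hx
      simp only [Finset.coe_filter, Finset.mem_univ, true_and, Set.mem_ofPred_eq]
      exact ⟨x, hi x hx', hTS hx'⟩
    · intro x hx y hy hxy
      exact hinj (by simpa using hx) (by simpa using hy) hxy
  exact_mod_cast h2

open Classical in
theorem encard_le_liminf (a : EE n) {l : ℝ} (hl : 0 < l) {S : Set (EE n)}
    (hS : ∀ u ∈ S, ∀ j, a j ≤ u j ∧ u j < a j + l) :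
    ENat.toENNReal S.encard ≤
      liminf (fun k : ℕ => ∑ i : Fin n → Fin (2 ^ k), if (cell a l k i ∩ S).Nonempty then (1 : ℝ≥0∞) else 0) atTop := by
  by_cases h : S.encard = ⊤
  · have h1 : ∀ m : ℕ, (m : ℝ≥0∞) ≤
      liminf (fun k : ℕ => ∑ i : Fin n → Fin (2 ^ k), if (cell a l k i ∩ S).Nonempty then (1 : ℝ≥0∞) else 0) atTop :=
      fun m => Cubes_nat_le a hl hS (by rw [h]; exact le_top)
    rw [h, ENat.toENNReal_top, ← ENNReal.iSup_natCast]
    exact iSup_le h1
  · obtain ⟨m, hm⟩ := ENat.ne_top_iff_exists.1 h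
    have h1 := Cubes_nat_le a hl hS (le_of_eq hm)
    rw [← hm]
    simpa using h1

end TAC
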