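import Mathlib

/-!
# MP_82d824_gt: immersions with prescribed total absolute curvature, definitions

`M` is a smooth `n`-manifold, `f : M → ℝ^N`. `crit n f y` is the set of points at which `y` is normal to `f`, `cnt n f y`
the number of these points, `TA n f` the integral of `cnt n f` over the unit sphere (not normalised).
-/

set_option autoImplicit false

open MeasureTheory Metric Set Filter Topology
open scoped ENNReal Manifold ContDiff

noncomputable section

namespace TAC

/-- Euclidean space `ℝ^N` -/
abbrev EE (N : ℕ) := EuclideanSpace ℝ (Fin N)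

/-- the model -/
abbrev II (n : ℕ) := modelWithCornersSelf ℝ (EE n)

/-- `C^∞` -/
abbrev sm : WithTop ENat := ((⊤ : ENat) : WithTop ENat)

section mfd

variable (n : ℕ) {N : ℕ} {M : Type} [TopologicalSpace M] [ChartedSpace (EE n) M]

/-- the points of `M` at which `y` is normal to `f` -/
def crit (f : M → EE N) (y : EE N) : Set M :=
  {x : M | ∀ v : TangentSpace (II n) x, inner ℝ y (mfderiv (II n) (II N) f x v : EE N) = 0}

/-- the number of these points -/
def cnt (f : M → EE N) (y : EE N) : ℝ≥0∞ := ENat.toENNReal (crit n f y).encard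

/-- smooth immersions -/
def Imm (f : M → EE N) : Prop :=
  ContMDiff (II n) (II N) sm f ∧ ∀ x : M, Function.Injective (mfderiv (II n) (II N) f x)

/-- the integral of the number of critical points of the height functions over the unit sphere -/
def TA (f : M → EE N) : ℝ≥0∞ :=
  ∫⁻ ξ, cnt n f (ξ : EE N) ∂(volume : Measure (EE N)).toSphere

/-- the critical points of a function -/
def critF (h : M → ℝ) : Set M := {x : M | mfderiv (II n) (modelWithCornersSelf ℝ ℝ) h x = 0}

/-- the Hessian of `h` at `x` (in the preferred chart at `x`) is nondegenerate -/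
def Nondeg (h : M → ℝ) (x : M) : Prop :=
  ∀ v : EE n, (∀ w : EE n,
    fderiv ℝ (fderiv ℝ (h ∘ (extChartAt (II n) x).symm)) (extChartAt (II n) x x) v w = 0) → v = 0

/-- a smooth function with at most `m` critical points, all nondegenerate -/
def MorseLe (h : M → ℝ) (m : ℕ) : Prop :=
  ContMDiff (II n) (modelWithCornersSelf ℝ ℝ) sm h ∧ (∀ x ∈ critF n h, Nondeg n h x) ∧
    (critF n h).encard ≤ m

/-- `f` in the chart at `x₀` -/
def loc (f : M → EE N) (x₀ : M) : EE n → EE N := f ∘ (extChartAt (II n) x₀).symm

end mfd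

/-- diagonal maps -/
def dg {N : ℕ} (c : Fin N → ℝ) (y : EE N) : EE N := WithLp.toLp 2 fun i => c i * y i

/-- the diagonal with `a` at the place `i₀`, `b` at the place `j₀` and `1` elsewhere -/
def cab {N : ℕ} (i₀ j₀ : Fin N) (a b : ℝ) : Fin N → ℝ := fun i => if i = i₀ then a else if i = j₀ then b else 1

/-- unit vectors -/
abbrev e_ {N : ℕ} (i : Fin N) : EE N := EuclideanSpace.single i (1 : ℝ)

/-- shears of `ℝ^N` -/
def shear {N : ℕ} (i₀ j₀ : Fin N) (s : ℝ → ℝ) (z : EE N) : EE N := z + s (z j₀) • e_ i₀

/-- `(z, t)` -/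
def snoc {N : ℕ} (z : EE N) (t : ℝ) : EE (N + 1) := WithLp.toLp 2 (Fin.snoc (α := fun _ => ℝ) z.ofLp t)

end TAC
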