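import Pool.Agent.Lib.MP_82d824_gt.Defs

/-!
# JOB DgVol: diagonal maps and integrals of homogeneous functions

`dg c` is a linear map with determinant `∏ i, c i`. `lintegral_dg` is the change of variables
(`MeasureTheory.Measure.map_linearMap_addHaar_eq_smul_addHaar` with the linear map `dg c`, whose determinant is computed by
`Matrix.det_diagonal` / `LinearMap.det_toLin'` in the standard basis; or `MeasureTheory.lintegral_image_eq_lintegral_abs_det_fderiv_mul`;
or `EuclideanSpace.volume_preserving_...` and `Real.volume_preserving`/`Real.map_linearMap_volume_pi_eq_smul_volume_pi`).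
`lintegral_smul_set`: scaling by `r`, `dg (fun _ => r) y = r • y`.
-/

set_option autoImplicit false

open MeasureTheory Metric Set Filter Topology
open scoped ENNReal Manifold ContDiff

noncomputable section

namespace TAC

variable {N : ℕ}

theorem dg_apply (c : Fin N → ℝ) (y : EE N) (i : Fin N) : dg c y i = c i * y i := rfl

theorem dg_dg (c c' : Fin N → ℝ) (y : EE N) : dg c (dg c' y) = dg (fun i => c i * c' i) y := by
  ext i
  simp only [dg_apply]
  ring

theorem dg_const (r : ℝ) (y : EE N) : dg (fun _ => r) y = r • y := by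
  ext i
  simp [dg_apply]

theorem continuous_dg (c : Fin N → ℝ) : Continuous (dg c) := by
  unfold dg
  refine (PiLp.continuous_toLp 2 _).comp (continuous_pi fun i => ?_)
  exact continuous_const.mul (EuclideanSpace.proj i).continuous

/-- `dg c` as a linear map -/
def DgVol_lin (c : Fin N → ℝ) : EE N →ₗ[ℝ] EE N where
  toFun := dg c
  map_add' x y := by
    ext i
    simp only [dg_apply, PiLp.add_apply]
    ring
  map_smul' r x := by
    ext i
    simp only [dg_apply, PiLp.smul_apply, smul_eq_mul, RingHom.id_apply]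
    ring

theorem DgVol_det (c : Fin N → ℝ) : LinearMap.det (DgVol_lin c) = ∏ i, c i := by
  have h : DgVol_lin c = ((WithLp.linearEquiv 2 ℝ (Fin N → ℝ)).symm : (Fin N → ℝ) →ₗ[ℝ] EE N) ∘ₗ
      (Matrix.toLin' (Matrix.diagonal c)) ∘ₗ
      ((WithLp.linearEquiv 2 ℝ (Fin N → ℝ)).symm.symm : EE N →ₗ[ℝ] (Fin N → ℝ)) := by
    refine LinearMap.ext fun y => ?_
    ext i
    simp [DgVol_lin, dg_apply, Matrix.mulVec_diagonal]
  rw [h, LinearMap.det_conj, LinearMap.det_toLin', Matrix.det_diagonal]

theorem DgVol_inv {c : Fin N → ℝ} (hc : ∀ i, 0 < c i) (y : EE N) : dg (fun i => (c i)⁻¹) (dg c y) = y := by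
  ext i
  simp only [dg_apply]
  have := (hc i).ne'
  field_simp

theorem DgVol_inj {c : Fin N → ℝ} (hc : ∀ i, 0 < c i) : Function.Injective (dg c) := by
  intro x y h
  rw [← DgVol_inv hc x, ← DgVol_inv hc y, h]

theorem DgVol_image {c : Fin N → ℝ} (hc : ∀ i, 0 < c i) (A : Set (EE N)) :
    dg c '' A = dg (fun i => (c i)⁻¹) ⁻¹' A := by
  ext z
  constructor
  · rintro ⟨y, hy, rfl⟩
    simpa [DgVol_inv hc] using hy
  · intro hz
    refine ⟨dg (fun i => (c i)⁻¹) z, hz, ?_⟩
    ext i
    simp only [dg_apply]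
    have := (hc i).ne'
    field_simp

theorem measurableSet_dg_image {c : Fin N → ℝ} (hc : ∀ i, 0 < c i) {A : Set (EE N)} (hA : MeasurableSet A) :
    MeasurableSet (dg c '' A) := by
  rw [DgVol_image hc]
  exact (continuous_dg _).measurable hA

/-- change of variables -/
theorem lintegral_dg {c : Fin N → ℝ} (hc : ∀ i, 0 < c i) (G : EE N → ℝ≥0∞) (hG : Measurable G) {A : Set (EE N)}
    (hA : MeasurableSet A) :
    ENNReal.ofReal (∏ i, c i) * ∫⁻ y in A, G (dg c y) = ∫⁻ z in dg c '' A, G z := by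
  have hp : 0 < ∏ i, c i := Finset.prod_pos fun i _ => hc i
  have hdet : LinearMap.det (DgVol_lin c) ≠ 0 := by rw [DgVol_det]; exact hp.ne'
  have h1 := MeasureTheory.Measure.map_linearMap_addHaar_eq_smul_addHaar (volume : Measure (EE N)) hdet
  have h2 : (⇑(DgVol_lin c) : EE N → EE N) = dg c := rfl
  rw [h2, DgVol_det] at h1
  have h3 := setLIntegral_map (μ := (volume : Measure (EE N))) (measurableSet_dg_image hc hA) hG
    (continuous_dg c).measurable
  rw [h1, (DgVol_inj hc).preimage_image] at h3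
  rw [← h3, Measure.restrict_smul, lintegral_smul_measure, smul_eq_mul, ← mul_assoc,
    ← ENNReal.ofReal_mul hp.le, abs_of_pos (inv_pos.mpr hp), mul_inv_cancel₀ hp.ne', ENNReal.ofReal_one,
    one_mul]

/-- scaling -/
theorem lintegral_smul_set {G : EE N → ℝ≥0∞} (hG : Measurable G) (hh : ∀ c : ℝ, c ≠ 0 → ∀ y, G (c • y) = G y) {r : ℝ}
    (hr : 0 < r) {A : Set (EE N)} (hA : MeasurableSet A) :
    ∫⁻ z in (fun y => r • y) '' A, G z = ENNReal.ofReal (r ^ N) * ∫⁻ z in A, G z := by
  have h1 := lintegral_dg (c := fun _ : Fin N => r) (fun _ => hr) G hG hA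
  have h2 : dg (fun _ : Fin N => r) = fun y => r • y := funext fun y => dg_const r y
  rw [h2] at h1
  simp only [Finset.prod_const, Finset.card_univ, Fintype.card_fin] at h1
  rw [← h1]
  simp only [hh r hr.ne']

theorem lintegral_ball {G : EE N → ℝ≥0∞} (hG : Measurable G) (hh : ∀ c : ℝ, c ≠ 0 → ∀ y, G (c • y) = G y) {r : ℝ}
    (hr : 0 < r) : ∫⁻ z in ball (0 : EE N) r, G z = ENNReal.ofReal (r ^ N) * ∫⁻ z in ball (0 : EE N) 1, G z := by
  rw [← lintegral_smul_set hG hh hr measurableSet_ball]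
  have h : (fun y : EE N => r • y) '' ball (0 : EE N) 1 = ball (0 : EE N) r := smul_unitBall_of_pos hr
  rw [h]

/-- after scaling, a vector with a large coordinate is close to a unit vector -/
theorem DgVol_near {c : Fin N → ℝ} {j : Fin N} {b : ℝ} (hb : 0 < b) (hj : c j = b) (hc : ∀ i, i ≠ j → c i = 1)
    {y : EE N} (hy : y j ≠ 0) : ‖(b * y j)⁻¹ • dg c y - e_ j‖ ≤ ‖y‖ / (b * |y j|) := by
  have h1 : ‖(b * y j)⁻¹ • dg c y - e_ j‖ ≤ ‖(b * y j)⁻¹ • y‖ := by
    rw [EuclideanSpace.norm_eq, EuclideanSpace.norm_eq]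
    refine Real.sqrt_le_sqrt (Finset.sum_le_sum fun i _ => ?_)
    by_cases hi : i = j
    · subst hi
      have h2 : ((b * y i)⁻¹ • dg c y - e_ i) i = 0 := by
        simp only [PiLp.sub_apply, PiLp.smul_apply, smul_eq_mul, dg_apply, hj]
        simp only [e_, PiLp.single_apply, if_true]
        field_simp
        ring
      rw [h2, norm_zero, zero_pow two_ne_zero]
      exact sq_nonneg _
    · have h2 : ((b * y j)⁻¹ • dg c y - e_ j) i = ((b * y j)⁻¹ • y) i := by
        simp only [PiLp.sub_apply, PiLp.smul_apply, smul_eq_mul, dg_apply, hc i hi]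
        simp [e_, hi]
      rw [h2]
  refine h1.trans (le_of_eq ?_)
  rw [norm_smul, norm_inv, norm_mul, Real.norm_eq_abs, Real.norm_eq_abs, abs_of_pos hb]
  field_simp

end TAC
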