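import Pool.Agent.Lib.MP_82d824_gt.Chart

/-!
# JOB Extra: four small facts

* `nonconst`: if `f x j₀` is constant then all points are critical for it (`mfderiv_const`), so `M` is a finite set; but `M` is
  nonempty and has a chart onto an open nonempty subset of `EE n`, `1 ≤ n`, which is infinite (a nonempty open subset of a nontrivial
  real normed space is infinite, e.g. `infinite_of_mem_nhds`, `NeBot (𝓝[≠] x)`; the chart is injective on its source).
* `snoc_imm`: `snoc` is a continuous linear map of `EE N × ℝ`; smoothness: `contMDiff_iff`... e.g. write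
  `snoc z t = A z + t • e_ (Fin.last N)` with `A : EE N →L[ℝ] EE (N + 1)` (`snoc z 0`); the derivative at `x` in the direction `v` is
  `A (mfderiv g x v) + (mfderiv φ x v) • e_ (last)`; if it is zero then the first `N` coordinates show `mfderiv g x v = 0`.
* `exists_isometry`: reflection: `reflection_sub` (`‖v‖ = ‖w‖` gives a reflection mapping `v` to `w`), with `v = e`, `w = ‖e‖ • e_ j₀`.
-/

set_option autoImplicit false

open MeasureTheory Metric Set Filter Topology
open scoped ENNReal Manifold ContDiff

noncomputable section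

namespace TAC

variable {n N K : ℕ} {M : Type} [TopologicalSpace M] [ChartedSpace (EE n) M] [IsManifold (II n) sm M]

theorem nonconst (hn : 1 ≤ n) [Nonempty M] {f : M → EE N} (hf : ContMDiff (II n) (II N) sm f) (j₀ : Fin N)
    (hfin : (critF n (fun x => f x j₀)).encard < ⊤) : ∃ p q : M, f p j₀ < f q j₀ := by
  by_contra hcon
  push Not at hcon
  obtain ⟨x₀⟩ := ‹Nonempty M›
  have hconst : (fun x => f x j₀ : M → ℝ) = fun _ => f x₀ j₀ := by
    funext x
    exact le_antisymm (hcon x₀ x) (hcon x x₀)
  have huniv : critF n (fun x => f x j₀ : M → ℝ) = univ := by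
    rw [hconst]
    refine eq_univ_of_forall fun x => ?_
    show mfderiv (II n) (modelWithCornersSelf ℝ ℝ) (fun _ : M => f x₀ j₀) x = 0
    exact mfderiv_const
  rw [huniv, Set.encard_lt_top_iff] at hfin
  have hsrc : (extChartAt (II n) x₀).source.Finite := hfin.subset (subset_univ _)
  have htar : (extChartAt (II n) x₀).target.Finite := by
    rw [← (extChartAt (II n) x₀).image_source_eq_target]
    exact hsrc.image _
  haveI : Nonempty (Fin n) := ⟨⟨0, hn⟩⟩
  haveI : Nontrivial (EE n) := inferInstance
  haveI : NeBot (𝓝[≠] (extChartAt (II n) x₀ x₀)) := Module.punctured_nhds_neBot ℝ (EE n) _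
  exact infinite_of_mem_nhds (extChartAt (II n) x₀ x₀)
    ((isOpen_extChartAt_target (I := II n) x₀).mem_nhds (mem_extChartAt_target (I := II n) x₀)) htar

/-- `z ↦ (z, 0)` -/
def Extra_A (N : ℕ) : EE N →L[ℝ] EE (N + 1) :=
  LinearMap.toContinuousLinearMap
    { toFun := fun z => snoc z 0
      map_add' := fun z w => by
        ext i
        refine Fin.lastCases ?_ (fun j => ?_) i
        · simp [snoc]
        · simp [snoc]
      map_smul' := fun a z => by
        ext i
        refine Fin.lastCases ?_ (fun j => ?_) i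
        · simp [snoc]
        · simp [snoc] }

/-- the first `N` coordinates -/
def Extra_P (N : ℕ) : EE (N + 1) →L[ℝ] EE N :=
  LinearMap.toContinuousLinearMap
    { toFun := fun z => WithLp.toLp 2 fun i : Fin N => z i.castSucc
      map_add' := fun z w => by
        ext i
        simp
      map_smul' := fun a z => by
        ext i
        simp }

theorem Extra_snoc (z : EE N) (t : ℝ) : snoc z t = Extra_A N z + t • e_ (Fin.last N) := by
  show snoc z t = snoc z 0 + t • e_ (Fin.last N)
  ext i
  refine Fin.lastCases ?_ (fun j => ?_) i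
  · simp [snoc]
  · simp [snoc]

theorem Extra_P_snoc (z : EE N) (t : ℝ) : Extra_P N (snoc z t) = z := by
  show WithLp.toLp 2 (fun i : Fin N => snoc z t i.castSucc) = z
  ext i
  simp [snoc]

theorem snoc_imm {g : M → EE N} (hg : Imm n g) {φ : M → ℝ} (hφ : ContMDiff (II n) (modelWithCornersSelf ℝ ℝ) sm φ) :
    Imm n (fun x => snoc (g x) (φ x)) := by
  have hF : ContMDiff (II n) (II (N + 1)) sm (fun x => snoc (g x) (φ x)) := by
    have e : (fun x => snoc (g x) (φ x)) = fun x => Extra_A N (g x) + φ x • e_ (Fin.last N) :=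
      funext fun x => Extra_snoc _ _
    rw [e]
    have h1 : ContMDiff (II n) (II (N + 1)) sm (fun x => Extra_A N (g x)) :=
      (Extra_A N).contMDiff.comp hg.1
    have h2 : ContMDiff (II n) (II (N + 1)) sm (fun x => φ x • (e_ (Fin.last N) : EE (N + 1))) :=
      hφ.smul contMDiff_const
    exact h1.add h2
  refine ⟨hF, fun x v w hvw => hg.2 x ?_⟩
  have hmd : MDifferentiableAt (II n) (II (N + 1)) (fun x => snoc (g x) (φ x)) x :=
    hF.mdifferentiable (by simp) x
  have hP : MDifferentiableAt (II (N + 1)) (II N) (Extra_P N) (snoc (g x) (φ x)) :=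
    (Extra_P N).mdifferentiableAt
  have hcomp := mfderiv_comp x hP hmd
  have e : (Extra_P N) ∘ (fun x => snoc (g x) (φ x)) = g := funext fun x => Extra_P_snoc _ _
  rw [e] at hcomp
  rw [hcomp]
  show (mfderiv (II (N + 1)) (II N) (Extra_P N) (snoc (g x) (φ x)))
    (mfderiv (II n) (II (N + 1)) (fun x => snoc (g x) (φ x)) x v) =
    (mfderiv (II (N + 1)) (II N) (Extra_P N) (snoc (g x) (φ x)))
    (mfderiv (II n) (II (N + 1)) (fun x => snoc (g x) (φ x)) x w)
  rw [hvw]

theorem snoc_last (z : EE N) (t : ℝ) : snoc z t (Fin.last N) = t := by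
  simp [snoc]

theorem exists_isometry (e : EE N) (he : e ≠ 0) (j₀ : Fin N) : ∃ O : EE N ≃ₗᵢ[ℝ] EE N, O e = ‖e‖ • e_ j₀ := by
  have h : ‖e‖ = ‖(‖e‖ • e_ j₀ : EE N)‖ := by
    rw [norm_smul, EuclideanSpace.norm_single, norm_one, mul_one, norm_norm]
  exact ⟨_, Submodule.reflection_sub h⟩

end TAC
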