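import Pool.Agent.Lib.MP_82d824_gt.Slab
import Pool.Agent.Lib.MP_82d824_gt.Cubes

/-!
# JOB FinLoc: local finiteness of the total number of critical points (vector space version)

`w u : Fin n → EE N`, `w u j = fderiv ℝ g u (e_ j)`; `w u₀` is linearly independent (`hinj`). Take `C, ρ` from `slab`. `fderiv ℝ g` is
continuously differentiable on `O`, so on a small closed ball around `u₀` it is Lipschitz with some constant `L ≥ 0`
(e.g. `ContDiffAt.exists_lipschitzOnWith`) and `‖w u j - w u₀ j‖ ≤ ρ`. Choose `a, l > 0`, `r > 0` such that `ball u₀ r` is contained in the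
cube `[a, a + l)^n` and the cube is contained in this small ball (`a = u₀ - l/2`). For `y ∈ ball 0 1` put
`S y = {u ∈ ball u₀ r | ∀ v, ⟪y, fderiv ℝ g u v⟫ = 0}`. If `cell k i` meets `S y` in `u` and `c` is the lower corner
`c j = a j + l i_j / 2^k` of the cell (`c` is in the cell), then `|⟪y, w c j⟫| = |⟪y, w c j - w u j⟫| ≤ L n l / 2^k =: s_k`. So the number
of cells meeting `S y` is at most `F k y = ∑ i, indicator {y | ‖y‖ < 1 ∧ ∀ j, |⟪y, w (c i) j⟫| ≤ s_k} 1 y`, a measurable function, and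
`∫⁻ F k ≤ (2^k)^n * ofReal (C * s_k^n) = ofReal (C * (L n l)^n)`. By `encard_le_liminf` and Fatou (`lintegral_liminf_le`):
`∫⁻ y in ball 0 1, encard (S y) ≤ liminf ∫⁻ F k ≤ ofReal (C * (L n l)^n) < ∞`.
-/

set_option autoImplicit false

open MeasureTheory Metric Set Filter Topology
open scoped ENNReal Manifold ContDiff

noncomputable section

namespace TAC

variable {n N : ℕ}

/-- the lower corner of a cell -/
def FinLoc_cor (a : EE n) (l : ℝ) (k : ℕ) (i : Fin n → Fin (2 ^ k)) : EE n :=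
  WithLp.toLp 2 fun j => a j + l * ((i j : ℕ) : ℝ) / 2 ^ k

theorem FinLoc_cor_mem (a : EE n) {l : ℝ} (hl : 0 < l) (k : ℕ) (i : Fin n → Fin (2 ^ k)) :
    FinLoc_cor a l k i ∈ cell a l k i := by
  intro j
  have h2 : (0 : ℝ) < 2 ^ k := by positivity
  have e : FinLoc_cor a l k i j = a j + l * ((i j : ℕ) : ℝ) / 2 ^ k := rfl
  rw [e]
  refine ⟨le_rfl, ?_⟩
  have h3 : l * ((i j : ℕ) : ℝ) / 2 ^ k < l * (((i j : ℕ) : ℝ) + 1) / 2 ^ k := by
    refine div_lt_div_of_pos_right ?_ h2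
    nlinarith
  linarith

theorem FinLoc_cell_sub (a : EE n) {l : ℝ} (hl : 0 < l) (k : ℕ) (i : Fin n → Fin (2 ^ k)) {u : EE n}
    (hu : u ∈ cell a l k i) (j : Fin n) : a j ≤ u j ∧ u j < a j + l := by
  have h2 : (0 : ℝ) < 2 ^ k := by positivity
  have h3 : (0 : ℝ) ≤ l * ((i j : ℕ) : ℝ) / 2 ^ k := by positivity
  have h4 : l * (((i j : ℕ) : ℝ) + 1) / 2 ^ k ≤ l := by
    rw [div_le_iff₀ h2]
    refine mul_le_mul_of_nonneg_left ?_ hl.le
    have h5 : (i j : ℕ) + 1 ≤ 2 ^ k := (i j).2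
    exact_mod_cast h5
  have h6 := hu j
  constructor
  · linarith [h6.1]
  · linarith [h6.2]

theorem FinLoc_cube (a : EE n) {l : ℝ} (hl : 0 < l) {u u' : EE n} (hu : ∀ j, a j ≤ u j ∧ u j < a j + l)
    (hu' : ∀ j, a j ≤ u' j ∧ u' j < a j + l) : ‖u - u'‖ ≤ n * l := by
  have h0 : ∀ v : EE n, (∀ j, a j ≤ v j ∧ v j < a j + l) → v ∈ cell a l 0 (fun _ => ⟨0, by norm_num⟩) := by
    intro v hv j
    have := hv j
    simp only [pow_zero, Nat.cast_zero, mul_zero, add_zero, zero_add, mul_one, div_one]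
    exact this
  have h1 := cell_dist a hl 0 _ (h0 u hu) (h0 u' hu')
  rwa [pow_zero, div_one] at h1

theorem FinLoc_two : (1 : WithTop ENat) + 1 ≤ sm :=
  WithTop.coe_le_coe.2 (le_top : (1 : ENat) + 1 ≤ ⊤)

theorem fin_loc {g : EE n → EE N} {O : Set (EE n)} (hO : IsOpen O) (hg : ContDiffOn ℝ sm g O) {u₀ : EE n} (hu : u₀ ∈ O)
    (hinj : Function.Injective (fderiv ℝ g u₀)) :
    ∃ r > 0, ball u₀ r ⊆ O ∧
      ∫⁻ y in ball (0 : EE N) 1,
        ENat.toENNReal {u : EE n | u ∈ ball u₀ r ∧ ∀ v : EE n, inner ℝ y (fderiv ℝ g u v) = 0}.encard < ⊤ := by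
  classical
  set w : EE n → Fin n → EE N := fun u j => fderiv ℝ g u (e_ j) with hw
  have hli : LinearIndependent ℝ (w u₀) := by
    have h1 := (EuclideanSpace.basisFun (Fin n) ℝ).toBasis.linearIndependent
    have h2 := h1.map' (fderiv ℝ g u₀ : EE n →ₗ[ℝ] EE N) (LinearMap.ker_eq_bot.2 hinj)
    refine (linearIndependent_equiv' (Equiv.refl _) ?_).1 h2
    funext j
    simp [w]
  obtain ⟨C, hC, ρ, hρ, hslab⟩ := slab hli
  have hcd : ContDiffAt ℝ 1 (fderiv ℝ g) u₀ :=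
    (((hg u₀ hu).contDiffAt (hO.mem_nhds hu)).fderiv_right (m := 1) FinLoc_two)
  obtain ⟨K, t, ht, hlip⟩ := hcd.exists_lipschitzOnWith
  obtain ⟨δ₀, hδ₀, hball⟩ := Metric.mem_nhds_iff.1 (Filter.inter_mem ht (hO.mem_nhds hu))
  have hK0 : (0 : ℝ) ≤ K := K.2
  set δ : ℝ := min δ₀ (ρ / (K + 1)) with hδ
  have hδpos : 0 < δ := lt_min hδ₀ (by positivity)
  have hδball : ball u₀ δ ⊆ t ∩ O := (ball_subset_ball (min_le_left _ _)).trans hball
  have hu0t : u₀ ∈ t := (hδball (mem_ball_self hδpos)).1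
  have hlipn : ∀ u ∈ t, ∀ u' ∈ t, ∀ j, ‖w u j - w u' j‖ ≤ K * ‖u - u'‖ := by
    intro u hu u' hu' j
    have h1 : ‖fderiv ℝ g u - fderiv ℝ g u'‖ ≤ K * ‖u - u'‖ := by
      have h2 := hlip.dist_le_mul u hu u' hu'
      rwa [dist_eq_norm, dist_eq_norm] at h2
    have h3 : w u j - w u' j = (fderiv ℝ g u - fderiv ℝ g u') (e_ j) := rfl
    rw [h3]
    refine ((fderiv ℝ g u - fderiv ℝ g u').le_opNorm _).trans ?_
    have h4 : ‖(e_ j : EE n)‖ = 1 := by simp
    rw [h4, mul_one]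
    exact h1
  have hwρ : ∀ u ∈ ball u₀ δ, ∀ j, ‖w u j - w u₀ j‖ ≤ ρ := by
    intro u hu j
    refine (hlipn u (hδball hu).1 u₀ hu0t j).trans ?_
    have h1 : ‖u - u₀‖ ≤ ρ / (K + 1) := by
      rw [mem_ball, dist_eq_norm] at hu
      exact hu.le.trans (min_le_right _ _)
    calc (K : ℝ) * ‖u - u₀‖ ≤ K * (ρ / (K + 1)) := mul_le_mul_of_nonneg_left h1 hK0
      _ ≤ (K + 1) * (ρ / (K + 1)) := mul_le_mul_of_nonneg_right (by linarith) (by positivity)
      _ = ρ := mul_div_cancel₀ _ (by positivity)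
  set l : ℝ := δ / (n + 1) with hl
  have hlpos : 0 < l := by positivity
  have hnl : (n : ℝ) * l < δ := by
    rw [hl, mul_div_assoc', div_lt_iff₀ (by positivity)]
    nlinarith
  set a : EE n := WithLp.toLp 2 fun j => u₀ j - l / 2 with ha
  have haj : ∀ j, a j = u₀ j - l / 2 := fun j => rfl
  have hu0cube : ∀ j, a j ≤ u₀ j ∧ u₀ j < a j + l := by
    intro j
    rw [haj]
    constructor <;> linarith
  have hcubeball : ∀ u : EE n, (∀ j, a j ≤ u j ∧ u j < a j + l) → u ∈ ball u₀ δ := by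
    intro u hu
    rw [mem_ball, dist_eq_norm]
    exact lt_of_le_of_lt (FinLoc_cube a hlpos hu hu0cube) hnl
  have hballcube : ∀ u ∈ ball u₀ (l / 2), ∀ j, a j ≤ u j ∧ u j < a j + l := by
    intro u hu j
    rw [mem_ball, dist_eq_norm] at hu
    have h1 : |u j - u₀ j| ≤ ‖u - u₀‖ := by
      have h2 := PiLp.norm_apply_le (u - u₀) j
      rwa [PiLp.sub_apply, Real.norm_eq_abs] at h2
    have h3 := abs_lt.1 (lt_of_le_of_lt h1 hu)
    rw [haj]
    constructor <;> linarith [h3.1, h3.2]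
  refine ⟨l / 2, by positivity, fun u hu => (hδball (hcubeball u (hballcube u hu))).2, ?_⟩
  set T : (k : ℕ) → (Fin n → Fin (2 ^ k)) → Set (EE N) := fun k i =>
    {y | ‖y‖ < 1 ∧ ∀ j, |inner ℝ y (w (FinLoc_cor a l k i) j)| ≤ K * (n * (l / 2 ^ k))} with hT
  have hcor : ∀ (k : ℕ) (i : Fin n → Fin (2 ^ k)), FinLoc_cor a l k i ∈ ball u₀ δ := fun k i =>
    hcubeball _ (FinLoc_cell_sub a hlpos k i (FinLoc_cor_mem a hlpos k i))
  have hTmeas : ∀ (k : ℕ) (i : Fin n → Fin (2 ^ k)), MeasurableSet (T k i) := by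
    intro k i
    have h1 : T k i = {y | ‖y‖ < 1} ∩ ⋂ j, {y | |inner ℝ y (w (FinLoc_cor a l k i) j)| ≤ K * (n * (l / 2 ^ k))} := by
      ext y
      simp [hT]
    rw [h1]
    refine (isOpen_lt continuous_norm continuous_const).measurableSet.inter (MeasurableSet.iInter fun j => ?_)
    exact (isClosed_le (by fun_prop) continuous_const).measurableSet
  have hTvol : ∀ (k : ℕ) (i : Fin n → Fin (2 ^ k)),
      volume (T k i) ≤ ENNReal.ofReal (C * (K * (n * (l / 2 ^ k))) ^ n) := fun k i =>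
    hslab _ (hwρ _ (hcor k i)) _ (by positivity)
  have hstep : ∀ y ∈ ball (0 : EE N) 1,
      ENat.toENNReal {u : EE n | u ∈ ball u₀ (l / 2) ∧ ∀ v : EE n, inner ℝ y (fderiv ℝ g u v) = 0}.encard ≤
        liminf (fun k : ℕ => ∑ i : Fin n → Fin (2 ^ k), (T k i).indicator (fun _ => (1 : ℝ≥0∞)) y) atTop := by
    intro y hy
    rw [mem_ball_zero_iff] at hy
    refine (encard_le_liminf a hlpos fun u hu => hballcube u hu.1).trans ?_
    refine liminf_le_liminf (Eventually.of_forall fun k => Finset.sum_le_sum fun i _ => ?_)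
    split_ifs with h
    · obtain ⟨u, hu1, hu2, hu3⟩ := h
      rw [indicator_of_mem]
      refine ⟨hy, fun j => ?_⟩
      have h1 : inner ℝ y (w (FinLoc_cor a l k i) j) = inner ℝ y (w (FinLoc_cor a l k i) j - w u j) := by
        rw [inner_sub_right, show inner ℝ y (w u j) = 0 from hu3 _, sub_zero]
      rw [h1]
      refine (abs_real_inner_le_norm _ _).trans ?_
      have h2 := hlipn _ (hδball (hcor k i)).1 u (hδball (hcubeball u (hballcube u hu2))).1 j
      have h3 := cell_dist a hlpos k i (FinLoc_cor_mem a hlpos k i) hu1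
      calc ‖y‖ * ‖w (FinLoc_cor a l k i) j - w u j‖ ≤ 1 * (K * (n * (l / 2 ^ k))) :=
            mul_le_mul hy.le (h2.trans (mul_le_mul_of_nonneg_left h3 hK0)) (norm_nonneg _) zero_le_one
        _ = K * (n * (l / 2 ^ k)) := one_mul _
    · exact bot_le
  have hint : ∀ k : ℕ, ∫⁻ y in ball (0 : EE N) 1,
      ∑ i : Fin n → Fin (2 ^ k), (T k i).indicator (fun _ => (1 : ℝ≥0∞)) y ≤
        ENNReal.ofReal (C * (K * (n * l)) ^ n) := by
    intro k
    rw [lintegral_finsetSum _ fun i _ => measurable_const.indicator (hTmeas k i)]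
    have h1 : ∀ i ∈ (Finset.univ : Finset (Fin n → Fin (2 ^ k))),
        ∫⁻ y in ball (0 : EE N) 1, (T k i).indicator (fun _ => (1 : ℝ≥0∞)) y ≤
          ENNReal.ofReal (C * (K * (n * (l / 2 ^ k))) ^ n) := by
      intro i _
      rw [lintegral_indicator_const (hTmeas k i), one_mul]
      exact (Measure.restrict_apply_le _ _).trans (hTvol k i)
    refine (Finset.sum_le_card_nsmul _ _ _ h1).trans ?_
    rw [Finset.card_univ, Fintype.card_fun, Fintype.card_fin, Fintype.card_fin, nsmul_eq_mul,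
      ← ENNReal.ofReal_natCast, ← ENNReal.ofReal_mul (Nat.cast_nonneg _)]
    refine ENNReal.ofReal_le_ofReal (le_of_eq ?_)
    push_cast
    have h2 : ((2 : ℝ) ^ k) ^ n * (K * (n * (l / 2 ^ k))) ^ n = (K * (n * l)) ^ n := by
      rw [← mul_pow]
      congr 1
      field_simp
    calc ((2 : ℝ) ^ k) ^ n * (C * (K * (n * (l / 2 ^ k))) ^ n)
        = C * (((2 : ℝ) ^ k) ^ n * (K * (n * (l / 2 ^ k))) ^ n) := by ring
      _ = C * (K * (n * l)) ^ n := by rw [h2]
  calc ∫⁻ y in ball (0 : EE N) 1,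
        ENat.toENNReal {u : EE n | u ∈ ball u₀ (l / 2) ∧ ∀ v : EE n, inner ℝ y (fderiv ℝ g u v) = 0}.encard
      ≤ ∫⁻ y in ball (0 : EE N) 1,
        liminf (fun k : ℕ => ∑ i : Fin n → Fin (2 ^ k), (T k i).indicator (fun _ => (1 : ℝ≥0∞)) y) atTop :=
        setLIntegral_mono' measurableSet_ball hstep
    _ ≤ liminf (fun k : ℕ => ∫⁻ y in ball (0 : EE N) 1,
        ∑ i : Fin n → Fin (2 ^ k), (T k i).indicator (fun _ => (1 : ℝ≥0∞)) y) atTop :=
        lintegral_liminf_le fun k => Finset.measurable_sum _ fun i _ => measurable_const.indicator (hTmeas k i)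
    _ ≤ liminf (fun _ : ℕ => ENNReal.ofReal (C * (K * (n * l)) ^ n)) atTop :=
        liminf_le_liminf (Eventually.of_forall hint)
    _ = ENNReal.ofReal (C * (K * (n * l)) ^ n) := liminf_const _
    _ < ⊤ := ENNReal.ofReal_lt_top

end TAC
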