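import Pool.Agent.Lib.MP_82d824_gt.Meas
import Pool.Agent.Lib.MP_82d824_gt.FinLoc

/-!
# JOB Finite: the integral of the number of critical points over the unit ball is finite

For every `x₀ : M` apply `fin_loc` to `loc n f x₀`, `O = φ.target`, `u₀ = φ x₀` (`inj_iff_loc`): the open neighbourhood
`U x₀ = {x ∈ φ.source | φ x ∈ ball u₀ r}` satisfies `∫⁻ y in ball 0 1, encard (crit n f y ∩ U x₀) < ∞` (`φ` is injective on its
source and maps `crit n f y ∩ U x₀` into the set of `fin_loc`: `crit_iff_loc`, `Set.InjOn.encard_image`, `lintegral_mono`). Finite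
subcover `U x`, `x ∈ t`: `cnt n f y ≤ ∑ x ∈ t, encard (crit n f y ∩ U x)`. The functions on the right are not known to be
measurable, but the lower integral is... (use `MeasureTheory.lintegral_finset_sum'` needs measurability). To avoid this: the set
`U x₀` can be replaced by a closed one: choose a smaller radius, `K x₀ = {x ∈ φ.source | φ x ∈ closedBall u₀ (r / 2)}`, which is
compact, hence closed (`T2Space M`), with `x₀` in its interior; `{(x, y) | x ∈ crit n f y ∧ x ∈ K x₀}` is closed, so
`y ↦ encard (crit n f y ∩ K x₀)` is measurable by `measurable_encard_fiber` (see the proof of `measurable_cnt` for the metric on `M`). Then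
`∫⁻ ∑ = ∑ ∫⁻ < ∞`.
-/

set_option autoImplicit false

open MeasureTheory Metric Set Filter Topology
open scoped ENNReal Manifold ContDiff

noncomputable section

namespace TAC

theorem Finite_encard_biUnion {α β : Type} (s : Finset β) (A : β → Set α) :
    ENat.toENNReal (⋃ x ∈ s, A x).encard ≤ ∑ x ∈ s, ENat.toENNReal (A x).encard := by
  classical
  induction s using Finset.induction_on with
  | empty => simp
  | insert b s hb ih =>
    rw [Finset.set_biUnion_insert, Finset.sum_insert hb]
    refine le_trans ?_ (add_le_add le_rfl ih)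
    rw [← ENat.toENNReal_add]
    exact ENat.toENNReal_mono (Set.encard_union_le _ _)

variable {n N : ℕ} {M : Type} [TopologicalSpace M] [CompactSpace M] [T2Space M] [ChartedSpace (EE n) M]
  [IsManifold (II n) sm M]

theorem Finite_measurable {f : M → EE N} (hf : ContMDiff (II n) (II N) sm f) {K : Set M} (hK : IsClosed K) :
    Measurable fun y : EE N => ENat.toENNReal (crit n f y ∩ K).encard := by
  have h1 : SecondCountableTopology M := ChartedSpace.secondCountable_of_sigmaCompact (EE n) M
  have h2 : TopologicalSpace.MetrizableSpace M := TopologicalSpace.metrizableSpace_of_t3_secondCountable M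
  letI : MetricSpace M := TopologicalSpace.metrizableSpaceMetric M
  have hR : IsClosed {p : M × EE N | p.1 ∈ crit n f p.2 ∩ K} :=
    (isClosed_crit hf).inter (hK.preimage continuous_fst)
  exact measurable_encard_fiber hR

theorem Finite_local {f : M → EE N} (hf : Imm n f) (x₀ : M) :
    ∃ K : Set M, IsClosed K ∧ K ∈ 𝓝 x₀ ∧
      ∫⁻ y in ball (0 : EE N) 1, ENat.toENNReal (crit n f y ∩ K).encard < ⊤ := by
  obtain ⟨r, hr, hrO, hfin⟩ := fin_loc (isOpen_extChartAt_target x₀) (loc_contDiffOn hf.1 x₀)
    (mem_extChartAt_target x₀) ((inj_iff_loc hf.1 x₀ (mem_extChartAt_source x₀)).1 (hf.2 x₀))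
  set φ := extChartAt (II n) x₀ with hφ
  have hcb : closedBall (φ x₀) (r / 2) ⊆ ball (φ x₀) r := closedBall_subset_ball (by linarith)
  refine ⟨φ.symm '' closedBall (φ x₀) (r / 2), ?_, ?_, ?_⟩
  · apply IsCompact.isClosed
    apply (isCompact_closedBall _ _).image_of_continuousOn
    exact (continuousOn_extChartAt_symm x₀).mono (hcb.trans hrO)
  · have h1 : IsOpen (φ.source ∩ φ ⁻¹' ball (φ x₀) (r / 2)) :=
      (continuousOn_extChartAt x₀).isOpen_inter_preimage (isOpen_extChartAt_source x₀) isOpen_ball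
    have h2 : x₀ ∈ φ.source ∩ φ ⁻¹' ball (φ x₀) (r / 2) :=
      ⟨mem_extChartAt_source x₀, mem_ball_self (by linarith)⟩
    refine Filter.mem_of_superset (h1.mem_nhds h2) ?_
    rintro x ⟨hx1, hx2⟩
    exact ⟨φ x, ball_subset_closedBall hx2, φ.left_inv hx1⟩
  · refine lt_of_le_of_lt (lintegral_mono fun y => ?_) hfin
    apply ENat.toENNReal_mono
    have hsrc : ∀ x ∈ crit n f y ∩ φ.symm '' closedBall (φ x₀) (r / 2), x ∈ φ.source ∧ φ x ∈ ball (φ x₀) r := by
      rintro x ⟨-, u, hu, rfl⟩
      have hu' : u ∈ φ.target := hrO (hcb hu)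
      refine ⟨φ.map_target hu', ?_⟩
      rw [φ.right_inv hu']
      exact hcb hu
    have hinj : Set.InjOn φ (crit n f y ∩ φ.symm '' closedBall (φ x₀) (r / 2)) :=
      φ.injOn.mono fun x hx => (hsrc x hx).1
    rw [← hinj.encard_image]
    apply Set.encard_le_encard
    rintro _ ⟨x, hx, rfl⟩
    refine ⟨(hsrc x hx).2, ?_⟩
    exact (crit_iff_loc hf.1 x₀ (hsrc x hx).1 y).1 hx.1

theorem finite_cnt {f : M → EE N} (hf : Imm n f) : ∫⁻ y in ball (0 : EE N) 1, cnt n f y < ⊤ := by
  choose K hK1 hK2 hK3 using fun x₀ : M => Finite_local hf x₀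
  obtain ⟨t, ht⟩ := isCompact_univ.elim_nhds_subcover K (fun x _ => hK2 x)
  have h1 : ∀ y : EE N, cnt n f y ≤ ∑ x ∈ t, ENat.toENNReal (crit n f y ∩ K x).encard := by
    intro y
    refine le_trans ?_ (Finite_encard_biUnion t fun x => crit n f y ∩ K x)
    apply ENat.toENNReal_mono
    apply Set.encard_le_encard
    intro z hz
    obtain ⟨x, hx, hzx⟩ := Set.mem_iUnion₂.1 (ht.2 (Set.mem_univ z))
    exact Set.mem_iUnion₂.2 ⟨x, hx, hz, hzx⟩
  refine lt_of_le_of_lt (lintegral_mono h1) ?_
  rw [lintegral_finset_sum _ fun x _ => Finite_measurable hf.1 (hK1 x)]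
  exact ENNReal.sum_lt_top.2 fun x _ => hK3 x

end TAC
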