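import Mathlib

/-!
# MP_82d824_gt: definitions used in the statement

`E n` is `EuclideanSpace ℝ (Fin n)`; the instances below are the usual ones of Mathlib, named only to keep the printed terms short.
-/

set_option autoImplicit false

open MeasureTheory

noncomputable section

namespace TACS

/-- Euclidean space `ℝ^n` -/
abbrev E (n : ℕ) : Type := EuclideanSpace ℝ (Fin n)

/-- the usual structure -/
instance nacg (n : ℕ) : NormedAddCommGroup (E n) := inferInstance
/-- the usual structure -/
instance nsp (n : ℕ) : NormedSpace ℝ (E n) := inferInstance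
/-- the usual structure -/
instance top (n : ℕ) : TopologicalSpace (E n) := inferInstance
/-- the usual structure -/
instance inn (n : ℕ) : Inner ℝ (E n) := inferInstance
/-- the usual structure -/
instance cs (n : ℕ) : ChartedSpace (E n) (E n) := chartedSpaceSelf (E n)
/-- the usual structure -/
instance ms (n : ℕ) : MeasureSpace (E n) := inferInstance

/-- the model of `n`-manifolds without boundary -/
abbrev I (n : ℕ) : ModelWithCorners ℝ (E n) (E n) := modelWithCornersSelf ℝ (E n)

/-- the model of the real line -/
abbrev IR : ModelWithCorners ℝ ℝ ℝ := modelWithCornersSelf ℝ ℝ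

/-- `C^∞` -/
abbrev sm : WithTop ENat := ((⊤ : ENat) : WithTop ENat)

/-- the unit sphere of `ℝ^(n+1)` -/
abbrev Sph (n : ℕ) : Type := Metric.sphere (0 : E (n + 1)) 1

variable (n : ℕ) {N : ℕ} {M : Type} [TopologicalSpace M] [ChartedSpace (E n) M]

/-- smooth maps to `ℝ^N` -/
def Smooth (f : M → E N) : Prop := ContMDiff (I n) (I N) sm f

/-- the differential `df_x`, from the tangent space at `x`, which is `ℝ^n`, to `ℝ^N` -/
def dif (f : M → E N) (x : M) : E n → E N := fun v => mfderiv (I n) (I N) f x v

/-- smooth immersions -/
def Imm (f : M → E N) : Prop := Smooth n f ∧ ∀ x : M, Function.Injective (dif n f x)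

/-- the points of `M` at which `y` is normal to `f` -/
def crit (f : M → E N) (y : E N) : Set M := {x : M | ∀ v : E n, inner ℝ y (dif n f x v) = 0}

/-- the number of these points -/
def cnt (f : M → E N) (y : E N) : ENNReal := ENat.toENNReal (crit n f y).encard

/-- the surface measure of the unit sphere -/
abbrev sig (N : ℕ) : Measure (Metric.sphere (0 : E N) 1) := (volume : Measure (E N)).toSphere

/-- the area of the unit sphere -/
def area (N : ℕ) : ENNReal := sig N Set.univ

/-- the integral of `cnt` over the unit sphere -/
def TA (f : M → E N) : ENNReal := ∫⁻ ξ, cnt n f (ξ : E N) ∂(sig N)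

/-- smooth functions -/
def SmoothF (h : M → ℝ) : Prop := ContMDiff (I n) IR sm h

/-- the critical points of a function -/
def critF (h : M → ℝ) : Set M := {x : M | ∀ v : E n, mfderiv (I n) IR h x v = (0 : ℝ)}

/-- `h` in the preferred chart at `x` -/
def inChart (h : M → ℝ) (x : M) : E n → ℝ := h ∘ (extChartAt (I n) x).symm

/-- linear functions on `ℝ^n` -/
abbrev Du (n : ℕ) : Type := E n →L[ℝ] ℝ
/-- the usual structure -/
instance dnacg (n : ℕ) : NormedAddCommGroup (Du n) := inferInstance
/-- the usual structure -/
instance dnsp (n : ℕ) : NormedSpace ℝ (Du n) := inferInstance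

/-- the derivative of a function on `ℝ^n` -/
def D1 (g : E n → ℝ) (u : E n) : Du n := fderiv ℝ g u

/-- the second derivative of a function on `ℝ^n` in the direction `v` -/
def D2 (g : E n → ℝ) (u v : E n) : Du n := fderiv ℝ (D1 n g) u v

/-- the second derivative of a function on `ℝ^n` -/
def hess (g : E n → ℝ) (u v w : E n) : ℝ := D2 n g u v w

/-- the Hessian of `h` at `x`, in the preferred chart, is nondegenerate -/
def Nondeg (h : M → ℝ) (x : M) : Prop :=
  ∀ v : E n, (∀ w : E n, hess n (inChart n h x) (extChartAt (I n) x x) v w = 0) → v = 0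

/-- a smooth function with at most `m` critical points, all nondegenerate -/
def MorseLe (h : M → ℝ) (m : ℕ) : Prop :=
  SmoothF n h ∧ (∀ x ∈ critF n h, Nondeg n h x) ∧ (critF n h).encard ≤ m

/-- `M` is homeomorphic but not diffeomorphic to the unit sphere of `ℝ^(n+1)` -/
def Exotic (n : ℕ) (M : Type) [TopologicalSpace M] [ChartedSpace (E n) M] : Prop :=
  Nonempty (M ≃ₜ Sph n) ∧
    ∀ (_ : Fact (Module.finrank ℝ (E (n + 1)) = n + 1)), IsEmpty (Diffeomorph (I n) (I n) M (Sph n) sm)

/-- Q1: some exotic sphere of some dimension `n` has an immersion in `ℝ^(n+2)` with total absolute curvature `4`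
(the frozen statement, written with the definitions above) -/
def Q1 : Prop :=
  ∃ (n : ℕ) (M : Type) (_ : TopologicalSpace M) (_ : ChartedSpace (E n) M) (_ : IsManifold (I n) sm M)
    (f : M → E (n + 2)), Exotic n M ∧ Imm n f ∧ TA n f = 4 * area (n + 2)

/-- There is an exotic sphere of dimension `n ≥ 1` which immerses in `ℝ^(n+1)` and has a smooth function with at most two critical
points, both nondegenerate. -/
def ExoticWithMorse : Prop :=
  ∃ (n : ℕ) (M : Type) (_ : TopologicalSpace M) (_ : ChartedSpace (E n) M) (_ : IsManifold (I n) sm M)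
    (g : M → E (n + 1)) (φ : M → ℝ), 1 ≤ n ∧ Exotic n M ∧ Imm n g ∧ MorseLe n φ 2

end TACS
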