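import Pool.Agent.Lib.MP_82d824_gt.Main
import Pool.Agent.Lib.MP_82d824_gt.Stmt

/-!
# The definitions of the statement agree with those of the library
-/

set_option autoImplicit false

open MeasureTheory

noncomputable section

namespace TACS

variable {n N : ℕ} {M : Type} [TopologicalSpace M] [ChartedSpace (E n) M]

theorem imm_iff (f : M → E N) : Imm n f ↔ TAC.Imm n f := Iff.rfl

theorem crit_eq (f : M → E N) (y : E N) : crit n f y = TAC.crit n f y := rfl

theorem TA_eq (f : M → E N) : TA n f = TAC.TA n f := rfl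

theorem critF_eq (h : M → ℝ) : critF n h = TAC.critF n h := by
  ext x
  constructor
  · intro hx
    exact ContinuousLinearMap.ext hx
  · intro hx v
    have h1 : mfderiv (I n) IR h x = 0 := hx
    show mfderiv (I n) IR h x v = (0 : ℝ)
    rw [h1]
    rfl

theorem nondeg_iff (h : M → ℝ) (x : M) : Nondeg n h x ↔ TAC.Nondeg n h x := Iff.rfl

theorem morseLe_iff (h : M → ℝ) (m : ℕ) : MorseLe n h m ↔ TAC.MorseLe n h m := by
  unfold MorseLe TAC.MorseLe
  rw [critF_eq]
  exact Iff.rfl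

theorem main [CompactSpace M] [T2Space M] [ConnectedSpace M] [IsManifold (I n) sm M] (hn : 1 ≤ n) (hN : 2 ≤ N)
    {f : M → E N} (hf : Imm n f) {e : E N} {m : ℕ} (he : MorseLe n (fun x => inner ℝ e (f x)) m) {τ : ℝ} (hτ : m < τ) :
    ∃ F : M → E N, Imm n F ∧ TA n F = ENNReal.ofReal τ * area N := by
  obtain ⟨F, h1, h2⟩ := TAC.main (M := M) hn hN ((imm_iff f).1 hf) ((morseLe_iff _ m).1 he) hτ
  exact ⟨F, h1, h2⟩

theorem main_codim_one [CompactSpace M] [T2Space M] [ConnectedSpace M] [IsManifold (I n) sm M] (hn : 1 ≤ n)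
    {g : M → E (n + 1)} (hg : Imm n g) {φ : M → ℝ} {m : ℕ} (hφ : MorseLe n φ m) {τ : ℝ} (hτ : m < τ) :
    ∃ F : M → E (n + 2), Imm n F ∧ TA n F = ENNReal.ofReal τ * area (n + 2) := by
  obtain ⟨F, h1, h2⟩ := TAC.main_codim_one (M := M) hn ((imm_iff g).1 hg) ((morseLe_iff _ m).1 hφ) hτ
  exact ⟨F, h1, h2⟩

theorem q1_of (h : ExoticWithMorse) : Q1 := by
  obtain ⟨n, M, _, _, _, g, φ, hn, ⟨⟨Φ⟩, hex⟩, hg, hφ⟩ := h
  have : CompactSpace M := Φ.symm.compactSpace
  have : T2Space M := Φ.symm.t2Space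
  have : ConnectedSpace M := by
    have h1 : 1 < Module.rank ℝ (E (n + 1)) := by
      rw [rank_eq_card_basis (EuclideanSpace.basisFun (Fin (n + 1)) ℝ).toBasis]
      simp
      omega
    have h2 : IsConnected (Metric.sphere (0 : E (n + 1)) 1) := isConnected_sphere h1 0 zero_le_one
    have : ConnectedSpace (Metric.sphere (0 : E (n + 1)) 1) := isConnected_iff_connectedSpace.1 h2
    exact Φ.symm.surjective.connectedSpace Φ.symm.continuous
  obtain ⟨F, hF, hTA⟩ := main_codim_one (τ := 4) hn hg hφ (by norm_num)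
  refine ⟨n, M, inferInstance, inferInstance, inferInstance, F, ⟨⟨Φ⟩, hex⟩, hF, ?_⟩
  have h4 : ENNReal.ofReal 4 = 4 := by
    rw [ENNReal.ofReal_eq_ofNat]
  rw [h4] at hTA
  exact hTA

/-- `Q1` is literally the frozen statement S13471. -/
theorem q1_iff_frozen : Q1 ↔
    ∃ (n : ℕ) (M : Type) (_ : TopologicalSpace M)
      (_ : ChartedSpace (EuclideanSpace ℝ (Fin n)) M)
      (_ : IsManifold (modelWithCornersSelf ℝ (EuclideanSpace ℝ (Fin n)))
        ((⊤ : ENat) : WithTop ENat) M)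
      (f : M → EuclideanSpace ℝ (Fin (n + 2))),
      Nonempty (M ≃ₜ Metric.sphere (0 : EuclideanSpace ℝ (Fin (n + 1))) 1) ∧
      (∀ (_ : Fact (Module.finrank ℝ (EuclideanSpace ℝ (Fin (n + 1))) = n + 1)),
        IsEmpty (Diffeomorph (modelWithCornersSelf ℝ (EuclideanSpace ℝ (Fin n)))
          (modelWithCornersSelf ℝ (EuclideanSpace ℝ (Fin n))) M
          (Metric.sphere (0 : EuclideanSpace ℝ (Fin (n + 1))) 1)
          ((⊤ : ENat) : WithTop ENat))) ∧
      ContMDiff (modelWithCornersSelf ℝ (EuclideanSpace ℝ (Fin n)))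
        (modelWithCornersSelf ℝ (EuclideanSpace ℝ (Fin (n + 2))))
        ((⊤ : ENat) : WithTop ENat) f ∧
      (∀ x : M, Function.Injective
        (mfderiv (modelWithCornersSelf ℝ (EuclideanSpace ℝ (Fin n)))
          (modelWithCornersSelf ℝ (EuclideanSpace ℝ (Fin (n + 2)))) f x)) ∧
      MeasureTheory.lintegral
          ((MeasureTheory.volume :
              MeasureTheory.Measure (EuclideanSpace ℝ (Fin (n + 2)))).toSphere)
          (fun ξ => ENat.toENNReal (Set.encard {x : M |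
            ∀ v : TangentSpace (modelWithCornersSelf ℝ (EuclideanSpace ℝ (Fin n))) x,
              inner ℝ (ξ : EuclideanSpace ℝ (Fin (n + 2)))
                ((mfderiv (modelWithCornersSelf ℝ (EuclideanSpace ℝ (Fin n)))
                  (modelWithCornersSelf ℝ (EuclideanSpace ℝ (Fin (n + 2)))) f x v :
                  EuclideanSpace ℝ (Fin (n + 2)))) = 0}))
        = 4 * ((MeasureTheory.volume :
              MeasureTheory.Measure (EuclideanSpace ℝ (Fin (n + 2)))).toSphere) Set.univ := by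
  constructor
  · rintro ⟨n, M, i1, i2, i3, f, h1, h2, h3⟩
    exact ⟨n, M, i1, i2, i3, f, h1.1, h1.2, h2.1, h2.2, h3⟩
  · rintro ⟨n, M, i1, i2, i3, f, h1, h2, h3, h4, h5⟩
    exact ⟨n, M, i1, i2, i3, f, ⟨h1, h2⟩, ⟨h3, h4⟩, h5⟩

end TACS
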