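import Pool.Agent.Lib.MP_82d824_gt.Defs

/-!
# JOB LocInj: nondegenerate critical points are isolated, uniformly in the direction (vector space version)

`T₀ : EE n →L (EE n →L ℝ)`, `T₀ v w = fderiv (fderiv ⟪e, g⟫) u₀ v w`, is injective, hence (finite dimension,
`LinearMap.exists_antilipschitzWith` or `ContinuousLinearMap` version) `c ‖v‖ ≤ ‖T₀ v‖` for some `c > 0`. Let
`H y u = (innerSL ℝ y) ∘L fderiv ℝ g u : EE n →L ℝ`. Then `u ↦ H y u` has at `u ∈ O` the derivative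
`v ↦ (innerSL ℝ y) ∘L (fderiv ℝ (fderiv ℝ g) u v)`, which is jointly continuous in `(y, u)` and equals `T₀` at `(e, u₀)`
(`fderiv ℝ (fun u => ⟪e, g u⟫) u = H e u` on `O`). Choose `r, δ` such that the norm of the difference of this derivative and
`T₀` is `≤ c / 2` for `y ∈ ball e δ`, `u ∈ ball u₀ r ⊆ O`. Mean value inequality on the convex ball
(`Convex.norm_image_sub_le_of_norm_hasFDerivWithin_le` for `u ↦ H y u - T₀ u`):
`‖H y u - H y u' - T₀ (u - u')‖ ≤ c / 2 ‖u - u'‖`. If `H y u = H y u' = 0` then `c ‖u - u'‖ ≤ c / 2 ‖u - u'‖`.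
-/

set_option autoImplicit false

open MeasureTheory Metric Set Filter Topology
open scoped ENNReal Manifold ContDiff

noncomputable section

namespace TAC

variable {n N : ℕ}

/-- composition with the functional `⟪y, ·⟫` -/
def LocInj_P (n : ℕ) {N : ℕ} (y : EE N) : (EE n →L[ℝ] EE N) →L[ℝ] (EE n →L[ℝ] ℝ) :=
  ContinuousLinearMap.compL ℝ (EE n) (EE N) ℝ (innerSL ℝ y)

theorem LocInj_P_apply (y : EE N) (A : EE n →L[ℝ] EE N) (v : EE n) : LocInj_P n y A v = inner ℝ y (A v) := rfl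

theorem LocInj_P_cont : Continuous (LocInj_P n : EE N → _) :=
  (ContinuousLinearMap.compL ℝ (EE n) (EE N) ℝ).continuous.comp (innerSL ℝ).continuous

theorem LocInj_diff {g : EE n → EE N} {O : Set (EE n)} (hO : IsOpen O) (hg : ContDiffOn ℝ sm g O) :
    ContDiffOn ℝ sm (fderiv ℝ g) O := hg.fderiv_of_isOpen hO (by simp)

theorem LocInj_H {g : EE n → EE N} {O : Set (EE n)} (hO : IsOpen O) (hg : ContDiffOn ℝ sm g O) (y : EE N)
    {u : EE n} (hu : u ∈ O) :
    HasFDerivAt (fun u => LocInj_P n y (fderiv ℝ g u)) ((LocInj_P n y).comp (fderiv ℝ (fderiv ℝ g) u)) u := by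
  have h1 : DifferentiableAt ℝ (fderiv ℝ g) u :=
    ((LocInj_diff hO hg).differentiableOn (by simp) u hu).differentiableAt (hO.mem_nhds hu)
  exact (LocInj_P n y).hasFDerivAt.comp u h1.hasFDerivAt

theorem LocInj_T {g : EE n → EE N} {O : Set (EE n)} (hO : IsOpen O) (hg : ContDiffOn ℝ sm g O) {u₀ : EE n} (hu : u₀ ∈ O)
    (e : EE N) : fderiv ℝ (fderiv ℝ (fun u => inner ℝ e (g u) : EE n → ℝ)) u₀ =
      (LocInj_P n e).comp (fderiv ℝ (fderiv ℝ g) u₀) := by
  have h1 : fderiv ℝ (fun u => inner ℝ e (g u) : EE n → ℝ) =ᶠ[𝓝 u₀] fun u => LocInj_P n e (fderiv ℝ g u) := by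
    filter_upwards [hO.mem_nhds hu] with u hu'
    have h2 : DifferentiableAt ℝ g u := (hg.differentiableOn (by simp) u hu').differentiableAt (hO.mem_nhds hu')
    have h3 : HasFDerivAt (fun u => inner ℝ e (g u) : EE n → ℝ) ((innerSL ℝ e).comp (fderiv ℝ g u)) u :=
      (innerSL ℝ e).hasFDerivAt.comp u h2.hasFDerivAt
    rw [h3.fderiv]
    rfl
  rw [h1.fderiv_eq]
  exact (LocInj_H hO hg e hu).fderiv

theorem LocInj_abs {E F G Z : Type} [NormedAddCommGroup E] [NormedSpace ℝ E] [NormedAddCommGroup F] [NormedSpace ℝ F]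
    [NormedAddCommGroup G] [NormedSpace ℝ G] [TopologicalSpace Z] {A : Z → F →L[ℝ] G} {B : Z → E →L[ℝ] F} {z : Z}
    (hA : ContinuousAt A z) (hB : ContinuousAt B z) {c : ℝ} (hc : 0 < c) :
    ∀ᶠ w in 𝓝 z, ‖(A w).comp (B w) - (A z).comp (B z)‖ < c := by
  have h1 : ContinuousAt (fun w => (A w).comp (B w)) z := hA.clm_comp hB
  filter_upwards [Metric.tendsto_nhds.1 h1 c hc] with w hw
  rwa [dist_eq_norm] at hw

theorem loc_inj {g : EE n → EE N} {O : Set (EE n)} (hO : IsOpen O) (hg : ContDiffOn ℝ sm g O) {u₀ : EE n} (hu : u₀ ∈ O)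
    {e : EE N}
    (hnd : ∀ v : EE n, (∀ w : EE n, fderiv ℝ (fderiv ℝ (fun u => inner ℝ e (g u) : EE n → ℝ)) u₀ v w = 0) → v = 0) :
    ∃ r > 0, ∃ δ > 0, ball u₀ r ⊆ O ∧ ∀ y ∈ ball e δ, ∀ u ∈ ball u₀ r, ∀ u' ∈ ball u₀ r,
      (∀ v : EE n, inner ℝ y (fderiv ℝ g u v) = 0) → (∀ v : EE n, inner ℝ y (fderiv ℝ g u' v) = 0) → u = u' := by
  rw [LocInj_T hO hg hu e] at hnd
  set T₀ : EE n →L[ℝ] (EE n →L[ℝ] ℝ) := (LocInj_P n e).comp (fderiv ℝ (fderiv ℝ g) u₀) with hT₀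
  have hker : LinearMap.ker T₀.toLinearMap = ⊥ := by
    rw [LinearMap.ker_eq_bot']
    intro v hv
    refine hnd v fun w => ?_
    have h1 : T₀ v = 0 := hv
    rw [h1]
    rfl
  obtain ⟨K, hK0, hK⟩ := LinearMap.exists_antilipschitzWith T₀.toLinearMap hker
  have hK0' : (0 : ℝ) < K := hK0
  have hanti : ∀ v : EE n, ‖v‖ ≤ K * ‖T₀ v‖ := by
    intro v
    have h1 := hK.le_mul_dist v 0
    rw [dist_zero_right, map_zero, dist_zero_right] at h1
    exact h1
  -- continuity of the derivative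
  have hD2 : ContinuousOn (fderiv ℝ (fderiv ℝ g)) O :=
    ((LocInj_diff hO hg).fderiv_of_isOpen (m := 0) hO (by simp)).continuousOn
  have hc1 : ContinuousAt (fun p : EE N × EE n => LocInj_P n p.1) (e, u₀) :=
    (LocInj_P_cont.comp continuous_fst).continuousAt
  have hc2 : ContinuousAt (fun p : EE N × EE n => fderiv ℝ (fderiv ℝ g) p.2) (e, u₀) :=
    ContinuousAt.comp (f := fun p : EE N × EE n => p.2) (g := fderiv ℝ (fderiv ℝ g))
      (hD2.continuousAt (hO.mem_nhds hu)) continuous_snd.continuousAt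
  have hKc : (0 : ℝ) < 1 / (2 * K) := by positivity
  obtain ⟨ε, hε, hev⟩ := Metric.eventually_nhds_iff.1 (LocInj_abs hc1 hc2 hKc)
  obtain ⟨r₁, hr₁, hball⟩ := Metric.isOpen_iff.1 hO u₀ hu
  refine ⟨min ε r₁, lt_min hε hr₁, ε, hε, (ball_subset_ball (min_le_right _ _)).trans hball, ?_⟩
  intro y hy u hu1 u' hu2 h1 h2
  have hbd : ∀ x ∈ ball u₀ (min ε r₁),
      ‖(LocInj_P n y).comp (fderiv ℝ (fderiv ℝ g) x) - T₀‖ ≤ 1 / (2 * K) := by
    intro x hx
    have h3 : dist ((y, x) : EE N × EE n) (e, u₀) < ε := by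
      rw [Prod.dist_eq]
      exact max_lt hy (lt_of_lt_of_le hx (min_le_left _ _))
    exact (hev h3).le
  have hder : ∀ x ∈ ball u₀ (min ε r₁), HasFDerivWithinAt (fun u => LocInj_P n y (fderiv ℝ g u) - T₀ u)
      ((LocInj_P n y).comp (fderiv ℝ (fderiv ℝ g) x) - T₀) (ball u₀ (min ε r₁)) x := by
    intro x hx
    have hxO : x ∈ O := hball (ball_subset_ball (min_le_right _ _) hx)
    exact ((LocInj_H hO hg y hxO).sub T₀.hasFDerivAt).hasFDerivWithinAt
  have hmv := Convex.norm_image_sub_le_of_norm_hasFDerivWithin_le hder hbd (convex_ball _ _) hu1 hu2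
  have e1 : LocInj_P n y (fderiv ℝ g u) = 0 := ContinuousLinearMap.ext fun v => h1 v
  have e2 : LocInj_P n y (fderiv ℝ g u') = 0 := ContinuousLinearMap.ext fun v => h2 v
  have e3 : LocInj_P n y (fderiv ℝ g u') - T₀ u' - (LocInj_P n y (fderiv ℝ g u) - T₀ u) = -(T₀ (u' - u)) := by
    rw [e1, e2, map_sub]
    abel
  rw [e3, norm_neg] at hmv
  have h5 := hanti (u' - u)
  have h6 : K * ‖T₀ (u' - u)‖ ≤ 1 / 2 * ‖u' - u‖ := by
    calc K * ‖T₀ (u' - u)‖ ≤ K * (1 / (2 * K) * ‖u' - u‖) := mul_le_mul_of_nonneg_left hmv hK0'.le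
      _ = 1 / 2 * ‖u' - u‖ := by field_simp
  have h7 : ‖u' - u‖ = 0 := le_antisymm (by linarith) (norm_nonneg _)
  exact (sub_eq_zero.1 (norm_eq_zero.1 h7)).symm

end TAC
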