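import Pool.Agent.Lib.MP_82d824_gt.Defs

/-!
# JOB Polar: integrals over the sphere and over the ball

`Measure.toSphere` is defined (Mathlib.MeasureTheory.Constructions.HaarToSphere) as
`dim E • ((μ.comap (Subtype.val ∘ (homeomorphUnitSphereProd E).symm)).restrict (univ ×ˢ Iio ⟨1, _⟩)).fst`. So
`∫⁻ ξ, G ξ ∂toSphere = N * ∫⁻ p in univ ×ˢ Iio 1, G p.1 ∂(comap ..)` (`lintegral_smul_measure`, `Measure.fst`, `lintegral_map`), and
with `ι = Subtype.val ∘ (homeomorphUnitSphereProd E).symm` (a measurable embedding with `ι (ξ, r) = r ξ`, range `{0}ᶜ`),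
`G p.1 = G (ι p)` by homogeneity; `MeasurableEmbedding.lintegral_map`, `MeasurableEmbedding.map_comap` give
`∫⁻ y in ball 0 1 \ {0}, G y`, and `{0}` is a null set (`0 < N`).
Alternatively write `G` as a supremum of simple functions / layer cake and use `Measure.toSphere_apply'`:
`toSphere s = N * volume (Ioo 0 1 • s)`, for the sets `s = {ξ | t < G ξ}`: `Ioo 0 1 • s = {y ∈ ball 0 1 \ {0} | t < G y}`.
-/

set_option autoImplicit false

open MeasureTheory Metric Set Filter Topology
open scoped ENNReal Manifold ContDiff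

noncomputable section

namespace TAC

theorem polar {N : ℕ} (hN : 0 < N) {G : EE N → ℝ≥0∞} (hG : Measurable G)
    (hh : ∀ c : ℝ, c ≠ 0 → ∀ y, G (c • y) = G y) :
    ∫⁻ ξ, G (ξ : EE N) ∂(volume : Measure (EE N)).toSphere = N * ∫⁻ y in ball (0 : EE N) 1, G y := by
  have hdim : Module.finrank ℝ (EE N) = N := by simp
  have hnt : Nontrivial (EE N) := Module.nontrivial_of_finrank_pos (R := ℝ) (by rw [hdim]; exact hN)
  have mp := (volume : Measure (EE N)).measurePreserving_homeomorphUnitSphereProd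
  -- the integral over the product
  have h1 : ∫⁻ q : sphere (0 : EE N) 1 × Ioi (0 : ℝ),
      (fun ξ : sphere (0 : EE N) 1 => G (ξ : EE N)) q.1 *
        (fun r : Ioi (0 : ℝ) => (Iio (⟨1, mem_Ioi.2 one_pos⟩ : Ioi (0 : ℝ))).indicator 1 r) q.2
        ∂((volume : Measure (EE N)).toSphere.prod (Measure.volumeIoiPow (Module.finrank ℝ (EE N) - 1))) =
      (∫⁻ ξ, G (ξ : EE N) ∂(volume : Measure (EE N)).toSphere) * (N : ℝ≥0∞)⁻¹ := by
    refine (lintegral_prod_mul (f := fun ξ : sphere (0 : EE N) 1 => G (ξ : EE N))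
      (g := fun r : Ioi (0 : ℝ) => (Iio (⟨1, mem_Ioi.2 one_pos⟩ : Ioi (0 : ℝ))).indicator 1 r) ?_ ?_).trans ?_
    · exact (hG.comp measurable_subtype_coe).aemeasurable
    · exact (measurable_one.indicator measurableSet_Iio).aemeasurable
    · congr 1
      rw [lintegral_indicator_one measurableSet_Iio, Measure.volumeIoiPow_apply_Iio, hdim]
      have h2 : ((N - 1 : ℕ) : ℝ) + 1 = N := by
        rw [Nat.cast_pred hN]
        ring
      rw [h2, one_pow, ENNReal.ofReal_div_of_pos (by exact_mod_cast hN), ENNReal.ofReal_one,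
        ENNReal.ofReal_natCast, one_div]
  have h3 : ∫⁻ q : sphere (0 : EE N) 1 × Ioi (0 : ℝ),
      (fun ξ : sphere (0 : EE N) 1 => G (ξ : EE N)) q.1 *
        (fun r : Ioi (0 : ℝ) => (Iio (⟨1, mem_Ioi.2 one_pos⟩ : Ioi (0 : ℝ))).indicator 1 r) q.2
        ∂((volume : Measure (EE N)).toSphere.prod (Measure.volumeIoiPow (Module.finrank ℝ (EE N) - 1))) =
      ∫⁻ y in ball (0 : EE N) 1, G y := by
    rw [← mp.lintegral_comp_emb (Homeomorph.measurableEmbedding _)]
    have h4 : ∀ x : ({0}ᶜ : Set (EE N)),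
        (fun ξ : sphere (0 : EE N) 1 => G (ξ : EE N)) (homeomorphUnitSphereProd (EE N) x).1 *
          (fun r : Ioi (0 : ℝ) => (Iio (⟨1, mem_Ioi.2 one_pos⟩ : Ioi (0 : ℝ))).indicator (1 : Ioi (0 : ℝ) → ℝ≥0∞) r)
            (homeomorphUnitSphereProd (EE N) x).2 = (ball (0 : EE N) 1).indicator G (x : EE N) := by
      intro x
      have hx : ‖(x : EE N)‖ ≠ 0 := norm_ne_zero_iff.mpr x.2
      have e1 : G ((homeomorphUnitSphereProd (EE N) x).1 : EE N) = G x := by
        rw [homeomorphUnitSphereProd_apply_fst_coe]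
        exact hh _ (inv_ne_zero hx) _
      have e2 : ((homeomorphUnitSphereProd (EE N) x).2 : ℝ) = ‖(x : EE N)‖ :=
        homeomorphUnitSphereProd_apply_snd_coe _ _
      show G ((homeomorphUnitSphereProd (EE N) x).1 : EE N) * (Iio (⟨1, mem_Ioi.2 one_pos⟩ : Ioi (0 : ℝ))).indicator
        (1 : Ioi (0 : ℝ) → ℝ≥0∞) (homeomorphUnitSphereProd (EE N) x).2 = _
      rw [e1]
      by_cases hlt : ‖(x : EE N)‖ < 1
      · have m1 : (homeomorphUnitSphereProd (EE N) x).2 ∈ Iio (⟨1, mem_Ioi.2 one_pos⟩ : Ioi (0 : ℝ)) := by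
          rw [mem_Iio, ← Subtype.coe_lt_coe, e2]
          exact hlt
        have m2 : (x : EE N) ∈ ball (0 : EE N) 1 := by
          rw [mem_ball_zero_iff]
          exact hlt
        rw [indicator_of_mem m1, indicator_of_mem m2, Pi.one_apply, mul_one]
      · have m1 : (homeomorphUnitSphereProd (EE N) x).2 ∉ Iio (⟨1, mem_Ioi.2 one_pos⟩ : Ioi (0 : ℝ)) := by
          rw [mem_Iio, ← Subtype.coe_lt_coe, e2]
          exact hlt
        have m2 : (x : EE N) ∉ ball (0 : EE N) 1 := by
          rw [mem_ball_zero_iff]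
          exact hlt
        rw [indicator_of_notMem m1, indicator_of_notMem m2, mul_zero]
    rw [lintegral_congr h4]
    rw [lintegral_subtype_comap (measurableSet_singleton (0 : EE N)).compl
      (fun y : EE N => (ball (0 : EE N) 1).indicator G y), restrict_compl_singleton,
      lintegral_indicator measurableSet_ball]
  rw [← h3, h1, mul_comm (∫⁻ ξ, G (ξ : EE N) ∂(volume : Measure (EE N)).toSphere), ← mul_assoc,
    ENNReal.mul_inv_cancel (by exact_mod_cast hN.ne') (ENNReal.natCast_ne_top N), one_mul]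

end TAC
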