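import Pool.Agent.Lib.MP_82d824_gt.Defs

/-!
# JOB Osc: many local extrema (general topology)

For `1 ≤ j ≤ m` let `K_j = {x | t (j-1) ≤ h x ≤ t (j+1)}` (compact) and `R_j = {x | t (j-1) < h x < t (j+1)}` (open). By connectedness
(`h` takes the value `t j`: `intermediate_value_univ`, `t 0 ≤ t j ≤ t (m+1)`) the level `{h = t j}` is nonempty. `j` even: let
`x_j` be a maximum of `g` on `K_j` (`IsCompact.exists_isMaxOn`); `g x_j ≥ 1`, while `g ≤ -1` on the levels `t (j-1)`, `t (j+1)`, so
`x_j ∈ R_j`, and `x_j` is a local maximum. `j` odd: minimum, `g x_j ≤ -1`. The `x_j` are distinct: if `x_i = x_j`, `i < j`, then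
`i`, `j` have the same parity (sign of `g`), so `j ≥ i + 2` and `h x_i < t (i+1) ≤ t (j-1) < h x_j`, contradiction. So there is an injective
map from `{1, …, m}` to the set of local extrema.
-/

set_option autoImplicit false

open MeasureTheory Metric Set Filter Topology
open scoped ENNReal Manifold ContDiff

noncomputable section

namespace TAC

theorem Osc_one {X : Type} [TopologicalSpace X] [CompactSpace X] [PreconnectedSpace X] {h g : X → ℝ} (hh : Continuous h)
    (hg : Continuous g) {m : ℕ} {t : ℕ → ℝ} (ht : StrictMono t) {p q : X} (hp : h p ≤ t 0) (hq : t (m + 1) ≤ h q)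
    (hev : ∀ j ≤ m + 1, Even j → ∀ x, h x = t j → 1 ≤ g x) (hodd : ∀ j ≤ m + 1, ¬ Even j → ∀ x, h x = t j → g x ≤ -1)
    {i : ℕ} (hi : i < m) :
    ∃ x, t i < h x ∧ h x < t (i + 2) ∧ IsLocalExtr g x ∧ (Even (i + 1) → 1 ≤ g x) ∧ (¬ Even (i + 1) → g x ≤ -1) := by
  have h0 : t (i + 1) ∈ Icc (h p) (h q) :=
    ⟨hp.trans (ht.monotone (Nat.zero_le _)), (ht.monotone (by omega)).trans hq⟩
  obtain ⟨z, hz⟩ := intermediate_value_univ p q hh h0
  have h1 : t i < t (i + 1) := ht (Nat.lt_succ_self _)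
  have h2 : t (i + 1) < t (i + 2) := ht (Nat.lt_succ_self _)
  have hK : IsCompact (h ⁻¹' Icc (t i) (t (i + 2))) := (isClosed_Icc.preimage hh).isCompact
  have hzK : z ∈ h ⁻¹' Icc (t i) (t (i + 2)) := by
    show t i ≤ h z ∧ h z ≤ t (i + 2)
    rw [hz]
    exact ⟨h1.le, h2.le⟩
  have hnhds : ∀ x, t i < h x → h x < t (i + 2) → h ⁻¹' Icc (t i) (t (i + 2)) ∈ 𝓝 x := fun x hx1 hx2 =>
    mem_of_superset ((isOpen_Ioo.preimage hh).mem_nhds (show x ∈ h ⁻¹' Ioo (t i) (t (i + 2)) from ⟨hx1, hx2⟩))
      (preimage_mono Ioo_subset_Icc_self)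
  by_cases he : Even (i + 1)
  · obtain ⟨x, hx, hmax⟩ := hK.exists_isMaxOn ⟨z, hzK⟩ hg.continuousOn
    have hgx : 1 ≤ g x := (hev (i + 1) (by omega) he z hz).trans (hmax hzK)
    have hne1 : ¬ Even i := fun h => Nat.not_even_iff_odd.2 h.add_one he
    have hne2 : ¬ Even (i + 2) := fun h => Nat.not_even_iff_odd.2 (Even.add_one he) h
    have hx1 : t i < h x := lt_of_le_of_ne hx.1 fun h => by
      have := hodd i (by omega) hne1 x h.symm
      linarith
    have hx2 : h x < t (i + 2) := lt_of_le_of_ne hx.2 fun h => by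
      have := hodd (i + 2) (by omega) hne2 x h
      linarith
    exact ⟨x, hx1, hx2, (hmax.isLocalMax (hnhds x hx1 hx2)).isExtr, fun _ => hgx, fun h => absurd he h⟩
  · obtain ⟨x, hx, hmin⟩ := hK.exists_isMinOn ⟨z, hzK⟩ hg.continuousOn
    have hgx : g x ≤ -1 := le_trans (hmin hzK) (hodd (i + 1) (by omega) he z hz)
    have ho : Odd (i + 1) := Nat.not_even_iff_odd.1 he
    have hne1 : Even i := by
      by_contra h
      exact he (Nat.not_even_iff_odd.1 h).add_one
    have hne2 : Even (i + 2) := ho.add_one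
    have hx1 : t i < h x := lt_of_le_of_ne hx.1 fun h => by
      have := hev i (by omega) hne1 x h.symm
      linarith
    have hx2 : h x < t (i + 2) := lt_of_le_of_ne hx.2 fun h => by
      have := hev (i + 2) (by omega) hne2 x h
      linarith
    exact ⟨x, hx1, hx2, (hmin.isLocalMin (hnhds x hx1 hx2)).isExtr, fun h => absurd h he, fun _ => hgx⟩

theorem osc {X : Type} [TopologicalSpace X] [CompactSpace X] [PreconnectedSpace X] {h g : X → ℝ} (hh : Continuous h)
    (hg : Continuous g) {m : ℕ} {t : ℕ → ℝ} (ht : StrictMono t) {p q : X} (hp : h p ≤ t 0) (hq : t (m + 1) ≤ h q)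
    (hev : ∀ j ≤ m + 1, Even j → ∀ x, h x = t j → 1 ≤ g x) (hodd : ∀ j ≤ m + 1, ¬ Even j → ∀ x, h x = t j → g x ≤ -1) :
    (m : ℕ∞) ≤ {x | IsLocalExtr g x}.encard := by
  choose f hf1 hf2 hf3 hf4 hf5 using fun i : Fin m => Osc_one hh hg ht hp hq hev hodd i.2
  have key : ∀ i j : Fin m, i < j → f i ≠ f j := by
    intro i j hij he
    have hij' : (i : ℕ) < (j : ℕ) := hij
    by_cases h1 : Even ((i : ℕ) + 1)
    · by_cases h2 : Even ((j : ℕ) + 1)
      · have h3 : (i : ℕ) + 2 ≤ (j : ℕ) := by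
          rcases h1 with ⟨a, ha⟩
          rcases h2 with ⟨b, hb⟩
          omega
        have h4 := hf2 i
        have h5 := hf1 j
        have h6 : t ((i : ℕ) + 2) ≤ t (j : ℕ) := ht.monotone h3
        rw [he] at h4
        linarith
      · have h3 := hf4 i h1
        have h4 := hf5 j h2
        rw [he] at h3
        linarith
    · by_cases h2 : Even ((j : ℕ) + 1)
      · have h3 := hf5 i h1
        have h4 := hf4 j h2
        rw [he] at h3
        linarith
      · have h3 : (i : ℕ) + 2 ≤ (j : ℕ) := by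
          rcases Nat.not_even_iff_odd.1 h1 with ⟨a, ha⟩
          rcases Nat.not_even_iff_odd.1 h2 with ⟨b, hb⟩
          omega
        have h4 := hf2 i
        have h5 := hf1 j
        have h6 : t ((i : ℕ) + 2) ≤ t (j : ℕ) := ht.monotone h3
        rw [he] at h4
        linarith
  have hinj : Function.Injective f := by
    intro i j he
    by_contra hne
    rcases lt_or_gt_of_ne hne with h | h
    · exact key i j h he
    · exact key j i h he.symm
  have h1 : (range f).encard = (m : ℕ∞) := by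
    rw [← image_univ, hinj.encard_image, encard_univ]
    simp
  rw [← h1]
  refine encard_le_encard ?_
  rintro _ ⟨i, rfl⟩
  exact hf3 i

end TAC
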