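import Pool.Agent.Lib.MP_82d824_gt.Chart
import Pool.Agent.Lib.MP_82d824_gt.Osc

/-!
# JOB Many: a shear with many critical points near `e_ i₀`

Let `h x = f x j₀`, `α = h p < β = h q`, `d = (β - α) / (m + 3)`, `t j = α + (j + 1) d` (`j : ℕ`), so `α ≤ t 0`, `t (m+1) ≤ β`, and
`C ≥ 0` a bound for `‖f x‖` (compactness). Put `c = C + 2` and `s u = c * cos (π (u - t 0) / d)`, so `s (t j) = c (-1)^j`
(`Real.cos_nat_mul_pi`). `F = shear i₀ j₀ s ∘ f` satisfies `⟪e_ i₀, F x⟫ = f x i₀ + s (h x)` and `‖F x‖ ≤ C + c =: K`. On `h x = t j`,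
`j` even: `⟪e_ i₀, F x⟫ ≥ c - C = 2`, `j` odd: `≤ -2`. For `y ∈ ball (e_ i₀) δ`, `δ = 1 / (K + 1)`, `|⟪y - e_ i₀, F x⟫| ≤ δ K ≤ 1`. So
`g x = ⟪y, F x⟫` satisfies the hypotheses of `osc`; local extrema of `g` are in `crit n F y` (`crit_of_isLocalExtr`; `F` is smooth
by hypothesis `hs`, given here as the smoothness of `shear i₀ j₀ s`: `shear_contDiff`).
-/

set_option autoImplicit false

open MeasureTheory Metric Set Filter Topology
open scoped ENNReal Manifold ContDiff

noncomputable section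

namespace TAC

theorem shear_contDiff {N : ℕ} (i₀ j₀ : Fin N) {s : ℝ → ℝ} (hs : ContDiff ℝ sm s) : ContDiff ℝ sm (shear i₀ j₀ s) := by
  unfold shear
  have h1 : ContDiff ℝ sm (fun z : EE N => z j₀) := (EuclideanSpace.proj (𝕜 := ℝ) j₀).contDiff
  exact contDiff_id.add ((hs.comp h1).smul contDiff_const)

variable {n N : ℕ} {M : Type} [TopologicalSpace M] [CompactSpace M] [PreconnectedSpace M] [ChartedSpace (EE n) M]
  [IsManifold (II n) sm M]

theorem many {f : M → EE N} (hf : ContMDiff (II n) (II N) sm f) {i₀ j₀ : Fin N} (hij : i₀ ≠ j₀) {p q : M}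
    (hpq : f p j₀ < f q j₀) (m : ℕ) :
    ∃ s : ℝ → ℝ, ContDiff ℝ sm s ∧ ∃ δ > 0, ∀ y ∈ ball (e_ i₀) δ,
      (m : ℕ∞) ≤ (crit n (shear i₀ j₀ s ∘ f) y).encard := by
  obtain ⟨C, hC⟩ := isCompact_univ.exists_bound_of_continuousOn (hf.continuous.continuousOn (s := univ))
  have hC' : ∀ x, ‖f x‖ ≤ C := fun x => hC x (mem_univ x)
  have hC0 : 0 ≤ C := (norm_nonneg _).trans (hC' p)
  set α : ℝ := f p j₀ with hα
  set β : ℝ := f q j₀ with hβ
  set d : ℝ := (β - α) / (m + 3) with hd
  have hm3 : (0 : ℝ) < m + 3 := by positivity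
  have hd0 : 0 < d := div_pos (by linarith) hm3
  have hdm : d * (m + 3) = β - α := by rw [hd]; field_simp
  set t : ℕ → ℝ := fun j => α + (j + 1) * d with ht
  have htm : StrictMono t := by
    intro a b hab
    have : (a : ℝ) < b := by exact_mod_cast hab
    simp only [ht]
    nlinarith
  set c : ℝ := C + 2 with hc
  set s : ℝ → ℝ := fun u => c * Real.cos (Real.pi * (u - t 0) / d) with hs
  have hsd : ContDiff ℝ sm s := by
    have h1 : ContDiff ℝ sm (fun u : ℝ => Real.pi * (u - t 0) / d) := by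
      have : (fun u : ℝ => Real.pi * (u - t 0) / d) = fun u => (Real.pi / d) * (u - t 0) := by
        funext u; ring
      rw [this]
      exact contDiff_const.mul (contDiff_id.sub contDiff_const)
    exact contDiff_const.mul (Real.contDiff_cos.comp h1)
  have hst : ∀ j : ℕ, s (t j) = c * (-1) ^ j := by
    intro j
    simp only [hs]
    have e : Real.pi * (t j - t 0) / d = j * Real.pi := by
      simp only [ht]
      have hd' : d ≠ 0 := hd0.ne'
      field_simp
      push_cast
      ring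
    rw [e, Real.cos_nat_mul_pi]
  have hsb : ∀ u, |s u| ≤ c := by
    intro u
    simp only [hs]
    rw [abs_mul, abs_of_nonneg (by linarith : 0 ≤ c)]
    have := Real.abs_cos_le_one (Real.pi * (u - t 0) / d)
    nlinarith
  set F : M → EE N := shear i₀ j₀ s ∘ f with hF
  have hFs : ContMDiff (II n) (II N) sm F := (shear_contDiff i₀ j₀ hsd).contMDiff.comp hf
  have hFx : ∀ x, F x = f x + s (f x j₀) • e_ i₀ := fun x => rfl
  have hin : ∀ x, inner ℝ (e_ i₀ : EE N) (F x) = f x i₀ + s (f x j₀) := by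
    intro x
    rw [EuclideanSpace.inner_single_left, hFx]
    simp
  set K : ℝ := C + c with hK
  have hFn : ∀ x, ‖F x‖ ≤ K := by
    intro x
    rw [hFx]
    refine (norm_add_le _ _).trans (add_le_add (hC' x) ?_)
    rw [norm_smul, EuclideanSpace.norm_single, norm_one, mul_one, Real.norm_eq_abs]
    exact hsb _
  have hK0 : 0 ≤ K := by linarith
  refine ⟨s, hsd, 1 / (K + 1), by positivity, fun y hy => ?_⟩
  have hy' : ‖y - e_ i₀‖ ≤ 1 / (K + 1) := by
    rw [mem_ball, dist_eq_norm] at hy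
    exact hy.le
  have herr : ∀ x, |inner ℝ (y - e_ i₀) (F x)| ≤ 1 := by
    intro x
    refine (abs_real_inner_le_norm _ _).trans ?_
    calc ‖y - e_ i₀‖ * ‖F x‖ ≤ 1 / (K + 1) * K := mul_le_mul hy' (hFn x) (norm_nonneg _) (by positivity)
      _ ≤ 1 := by
        rw [one_div, inv_mul_le_iff₀ (by linarith)]
        linarith
  have hsplit : ∀ x, inner ℝ y (F x) = (f x i₀ + s (f x j₀)) + inner ℝ (y - e_ i₀) (F x) := by
    intro x
    rw [inner_sub_left, hin]
    ring
  have hcoord : ∀ x, |f x i₀| ≤ C := fun x => (PiLp.norm_apply_le (f x) i₀).trans (hC' x)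
  have hcont : Continuous F := hFs.continuous
  have hosc := osc (h := fun x => f x j₀) (g := fun x => inner ℝ y (F x))
    ((EuclideanSpace.proj (𝕜 := ℝ) j₀).continuous.comp hf.continuous)
    (continuous_const.inner hcont) (m := m) htm (p := p) (q := q) (by simp only [ht]; push_cast; linarith)
    (by simp only [ht]; push_cast; nlinarith) ?_ ?_
  · refine hosc.trans (Set.encard_le_encard ?_)
    intro x hx
    exact crit_of_isLocalExtr hFs hx
  · intro j _ hj x hx
    have h1 := abs_le.1 (herr x)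
    have h2 := abs_le.1 (hcoord x)
    have h3 : s (f x j₀) = c := by
      have hx' : f x j₀ = t j := hx
      rw [hx', hst, hj.neg_one_pow, mul_one]
    show 1 ≤ inner ℝ y (F x)
    rw [hsplit, h3]
    linarith [h1.1, h2.1]
  · intro j _ hj x hx
    have h1 := abs_le.1 (herr x)
    have h2 := abs_le.1 (hcoord x)
    have h3 : s (f x j₀) = -c := by
      have hx' : f x j₀ = t j := hx
      rw [hx', hst, (Nat.not_even_iff_odd.1 hj).neg_one_pow]
      ring
    show inner ℝ y (F x) ≤ -1
    rw [hsplit, h3]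
    linarith [h1.2, h2.2]

end TAC
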