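import Pool.Agent.Lib.MP_82d824_gt.Chart
import Pool.Agent.Lib.MP_82d824_gt.Many
import Pool.Agent.Lib.MP_82d824_gt.DgVol

/-!
# JOB Trans: compositions with maps of `ℝ^N`

* `imm_comp`: `mfderiv_comp`, `mfderiv_eq_fderiv`, `ContDiff.contMDiff`.
* `dg_imm`: `dg c` is (the function of) a linear map, its derivative is `dg c`, injective if all `c i ≠ 0`.
* `shear_inj`: the derivative of the shear at `z` is `v ↦ v + (s' (z j₀) v j₀) e_ i₀`; injective because the `j₀` coordinate of the
  image is `v j₀` (`i₀ ≠ j₀`).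
* `crit_dg`: `⟪y, dg c w⟫ = ⟪dg c y, w⟫` and the chain rule.
* `cnt_smul`: `⟪t • y, w⟫ = t ⟪y, w⟫`.
-/

set_option autoImplicit false

open MeasureTheory Metric Set Filter Topology
open scoped ENNReal Manifold ContDiff

noncomputable section

namespace TAC

variable {n N K : ℕ} {M : Type} [TopologicalSpace M] [ChartedSpace (EE n) M] [IsManifold (II n) sm M]

theorem imm_comp {Ψ : EE N → EE K} (hΨ : ContDiff ℝ sm Ψ) (hinj : ∀ z, Function.Injective (fderiv ℝ Ψ z)) {f : M → EE N}
    (hf : Imm n f) : Imm n (Ψ ∘ f) := by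
  have h1 : ContMDiff (II N) (II K) sm Ψ := hΨ.contMDiff
  refine ⟨h1.comp hf.1, fun x => ?_⟩
  have hf1 : MDifferentiableAt (II n) (II N) f x := (hf.1 x).mdifferentiableAt (by simp)
  have hΨ1 : MDifferentiableAt (II N) (II K) Ψ (f x) := (h1 (f x)).mdifferentiableAt (by simp)
  rw [mfderiv_comp x hΨ1 hf1]
  intro v w hvw
  apply hf.2 x
  apply hinj (f x)
  rw [← mfderiv_eq_fderiv]
  exact hvw

/-- `dg c` as a continuous linear map -/
def Trans_dgL (c : Fin N → ℝ) : EE N →L[ℝ] EE N :=
  LinearMap.toContinuousLinearMap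
    { toFun := dg c
      map_add' := fun x y => by
        ext i
        show c i * (x i + y i) = c i * x i + c i * y i
        ring
      map_smul' := fun r x => by
        ext i
        show c i * (r * x i) = r * (c i * x i)
        ring }

theorem Trans_dgL_apply (c : Fin N → ℝ) (y : EE N) : Trans_dgL c y = dg c y := rfl

theorem Trans_dgL_coe (c : Fin N → ℝ) : (Trans_dgL c : EE N → EE N) = dg c := rfl

theorem Trans_fderiv_dg (c : Fin N → ℝ) (z : EE N) : fderiv ℝ (dg c) z = Trans_dgL c := by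
  rw [← Trans_dgL_coe]
  exact (Trans_dgL c).fderiv

theorem dg_imm {c : Fin N → ℝ} (hc : ∀ i, c i ≠ 0) {f : M → EE N} (hf : Imm n f) : Imm n (dg c ∘ f) := by
  apply imm_comp _ _ hf
  · rw [← Trans_dgL_coe]
    exact (Trans_dgL c).contDiff
  · intro z
    rw [Trans_fderiv_dg]
    intro v w h
    ext i
    have h1 : c i * v i = c i * w i := congrArg (fun u : EE N => u i) h
    exact mul_left_cancel₀ (hc i) h1

theorem shear_imm {i₀ j₀ : Fin N} (hij : i₀ ≠ j₀) {s : ℝ → ℝ} (hs : ContDiff ℝ sm s) {f : M → EE N} (hf : Imm n f) :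
    Imm n (shear i₀ j₀ s ∘ f) := by
  apply imm_comp (shear_contDiff i₀ j₀ hs) _ hf
  intro z v w h
  have hd : HasFDerivAt (shear i₀ j₀ s)
      (ContinuousLinearMap.id ℝ (EE N) + (deriv s (z j₀) • (EuclideanSpace.proj j₀ : EE N →L[ℝ] ℝ)).smulRight (e_ i₀)) z := by
    apply HasFDerivAt.add (hasFDerivAt_id z)
    apply HasFDerivAt.smul_const
    have h1 : HasDerivAt s (deriv s (z j₀)) ((EuclideanSpace.proj j₀ : EE N →L[ℝ] ℝ) z) :=
      ((hs.differentiable (by simp)) (z j₀)).hasDerivAt
    exact h1.comp_hasFDerivAt z (EuclideanSpace.proj j₀ : EE N →L[ℝ] ℝ).hasFDerivAt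
  rw [hd.fderiv] at h
  have h2 : ∀ i, v i + deriv s (z j₀) * v j₀ * (e_ i₀ : EE N) i = w i + deriv s (z j₀) * w j₀ * (e_ i₀ : EE N) i :=
    fun i => congrArg (fun u : EE N => u i) h
  have h3 : v j₀ = w j₀ := by
    have h4 := h2 j₀
    have h5 : (e_ i₀ : EE N) j₀ = 0 := by
      rw [EuclideanSpace.single_apply, if_neg hij.symm]
    rw [h5, mul_zero, mul_zero, add_zero, add_zero] at h4
    exact h4
  ext i
  have h4 := h2 i
  rw [h3] at h4
  exact add_right_cancel h4

theorem isometry_imm (O : EE N ≃ₗᵢ[ℝ] EE N) {f : M → EE N} (hf : Imm n f) : Imm n (O ∘ f) := by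
  have h : ∀ z, fderiv ℝ (O : EE N → EE N) z = (O.toContinuousLinearEquiv : EE N →L[ℝ] EE N) :=
    fun z => O.toContinuousLinearEquiv.fderiv
  apply imm_comp _ _ hf
  · exact O.toContinuousLinearEquiv.contDiff
  · intro z
    rw [h]
    exact O.injective

theorem Trans_inner_dg (c : Fin N → ℝ) (y w : EE N) : (inner ℝ y (dg c w) : ℝ) = inner ℝ (dg c y) w := by
  rw [PiLp.inner_apply, PiLp.inner_apply]
  refine Finset.sum_congr rfl fun i _ => ?_
  rw [dg_apply, dg_apply]
  simp only [RCLike.inner_apply, conj_trivial]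
  ring

theorem crit_dg (c : Fin N → ℝ) {f : M → EE N} (hf : ContMDiff (II n) (II N) sm f) (y : EE N) :
    crit n (dg c ∘ f) y = crit n f (dg c y) := by
  ext x
  have hf1 : MDifferentiableAt (II n) (II N) f x := (hf x).mdifferentiableAt (by simp)
  have hc : ContDiff ℝ sm (dg c) := by
    rw [← Trans_dgL_coe]
    exact (Trans_dgL c).contDiff
  have hΨ1 : MDifferentiableAt (II N) (II N) (dg c) (f x) := (hc.contMDiff (f x)).mdifferentiableAt (by simp)
  have h1 : ∀ v : TangentSpace (II n) x, (mfderiv (II n) (II N) (dg c ∘ f) x v : EE N) =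
      dg c (mfderiv (II n) (II N) f x v : EE N) := by
    intro v
    rw [mfderiv_comp x hΨ1 hf1, mfderiv_eq_fderiv, Trans_fderiv_dg]
    rfl
  unfold crit
  rw [Set.mem_ofPred_eq, Set.mem_ofPred_eq]
  constructor
  · intro h v
    rw [← Trans_inner_dg, ← h1]
    exact h v
  · intro h v
    rw [h1, Trans_inner_dg]
    exact h v

theorem cnt_smul (f : M → EE N) {t : ℝ} (ht : t ≠ 0) (y : EE N) : cnt n f (t • y) = cnt n f y := by
  have h : crit n f (t • y) = crit n f y := by
    ext x
    unfold crit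
    rw [Set.mem_ofPred_eq, Set.mem_ofPred_eq]
    constructor
    · intro h v
      have h1 := h v
      rw [real_inner_smul_left, mul_eq_zero] at h1
      exact h1.resolve_left ht
    · intro h v
      rw [real_inner_smul_left, h v, mul_zero]
  unfold cnt
  rw [h]

/-- the height function in the direction `j₀` does not change under the shear -/
theorem shear_height {i₀ j₀ : Fin N} (hij : i₀ ≠ j₀) (s : ℝ → ℝ) (z : EE N) :
    (inner ℝ (e_ j₀) (shear i₀ j₀ s z) : ℝ) = z j₀ := by
  unfold shear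
  rw [inner_add_right, real_inner_smul_right, EuclideanSpace.inner_single_left, EuclideanSpace.inner_single_left,
    EuclideanSpace.single_apply, if_neg hij.symm]
  simp

end TAC
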