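import Pool.Agent.Lib.MP_82d824_gt.DgVol

/-!
# JOB WLow: the limit `a → ∞`

`c = cab i₀ j₀ a 1`. For `y` in the ball with `|y i₀| ≥ 2 / (a δ)` we have `m ≤ G (dg c y)`: the vector `z = (a y_{i₀})⁻¹ • dg c y` has
`z i₀ = 1` and `z i = y i / (a y_{i₀})` for `i ≠ i₀`, so `‖z - e_ i₀‖ ≤ ‖y‖ / (a |y_{i₀}|) ≤ δ / 2 < δ`; use `hh`. So
`m * volume ({y ∈ ball 0 1 | 2 / (a δ) ≤ |y i₀|}) ≤ W` (`setLIntegral_mono`, no measurability of `G` needed). As `a → ∞` the volume of this
set tends to the volume of the ball: the increasing union over `a = k + 1`, `k : ℕ`, of these sets is `{y ∈ ball | y i₀ ≠ 0}`, which has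
full measure in the ball (hyperplanes are null sets: `Measure.addHaar_submodule` for the kernel of the coordinate);
`tendsto_measure_iUnion_atTop`. As `t < m`, `t vol < m vol` (`0 < vol < ⊤`), so for large `a` `t * vol(ball) ≤ m * vol(set)`.
-/

set_option autoImplicit false

open MeasureTheory Metric Set Filter Topology
open scoped ENNReal Manifold ContDiff

noncomputable section

namespace TAC

variable {N : ℕ}

theorem WLow_cab_pos {i₀ j₀ : Fin N} {a b : ℝ} (ha : 0 < a) (hb : 0 < b) (i : Fin N) : 0 < cab i₀ j₀ a b i := by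
  unfold cab
  split_ifs
  · exact ha
  · exact hb
  · exact one_pos

theorem WLow_null (i₀ : Fin N) : volume {y : EE N | y i₀ = 0} = 0 := by
  have h1 : {y : EE N | y i₀ = 0} = ((LinearMap.ker (EuclideanSpace.proj i₀ : EE N →L[ℝ] ℝ).toLinearMap : Submodule ℝ (EE N)) : Set (EE N)) := by
    ext y
    simp
  rw [h1]
  refine Measure.addHaar_submodule _ _ ?_
  intro htop
  have h2 : e_ i₀ ∈ (LinearMap.ker (EuclideanSpace.proj i₀ : EE N →L[ℝ] ℝ).toLinearMap) := by
    rw [htop]; trivial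
  simp [e_] at h2

theorem W_lower {G : EE N → ℝ≥0∞} (hG : Measurable G) (hh : ∀ c : ℝ, c ≠ 0 → ∀ y, G (c • y) = G y)
    {i₀ j₀ : Fin N} (hij : i₀ ≠ j₀) {m : ℕ} {δ : ℝ} (hδ : 0 < δ)
    (h : ∀ y ∈ ball (e_ i₀) δ, (m : ℝ≥0∞) ≤ G y) {t : ℝ≥0∞} (ht : t < m) :
    ∃ a : ℝ, 0 < a ∧ t * volume (ball (0 : EE N) 1) ≤ ∫⁻ y in ball (0 : EE N) 1, G (dg (cab i₀ j₀ a 1) y) := by
  have hvol : volume (ball (0 : EE N) 1) ≠ 0 := (measure_ball_pos _ _ one_pos).ne'
  have hvolt : volume (ball (0 : EE N) 1) ≠ ⊤ := measure_ball_lt_top.ne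
  set S : ℕ → Set (EE N) := fun k => {y | y ∈ ball (0 : EE N) 1 ∧ 2 / (((k : ℝ) + 1) * δ) ≤ |y i₀|} with hS
  have hc1 : Continuous (fun y : EE N => |y i₀|) := (EuclideanSpace.proj i₀).continuous.abs
  have hSm : ∀ k, MeasurableSet (S k) := fun k =>
    measurableSet_ball.inter (isClosed_le continuous_const hc1).measurableSet
  have hmono : Monotone S := by
    intro k l hkl y hy
    refine ⟨hy.1, le_trans ?_ hy.2⟩
    have : (k : ℝ) ≤ l := by exact_mod_cast hkl
    gcongr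
  have hU : volume (⋃ k, S k) = volume (ball (0 : EE N) 1) := by
    refine le_antisymm (measure_mono (Set.iUnion_subset fun k y hy => hy.1)) ?_
    have h1 : ball (0 : EE N) 1 ⊆ (⋃ k, S k) ∪ {y : EE N | y i₀ = 0} := by
      intro y hy
      by_cases h0 : y i₀ = 0
      · exact Or.inr h0
      · left
        have h2 : 0 < |y i₀| := abs_pos.mpr h0
        obtain ⟨k, hk⟩ := exists_nat_gt (2 / (|y i₀| * δ))
        refine Set.mem_iUnion.mpr ⟨k, hy, ?_⟩
        rw [div_lt_iff₀ (by positivity)] at hk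
        rw [div_le_iff₀ (by positivity)]
        nlinarith [mul_pos h2 hδ]
    calc volume (ball (0 : EE N) 1) ≤ volume ((⋃ k, S k) ∪ {y : EE N | y i₀ = 0}) := measure_mono h1
      _ ≤ volume (⋃ k, S k) + volume {y : EE N | y i₀ = 0} := measure_union_le _ _
      _ = volume (⋃ k, S k) := by rw [WLow_null, add_zero]
  have htend := tendsto_measure_iUnion_atTop (μ := (volume : Measure (EE N))) hmono
  rw [hU] at htend
  have htend2 : Tendsto (fun k => (m : ℝ≥0∞) * volume (S k)) atTop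
      (𝓝 ((m : ℝ≥0∞) * volume (ball (0 : EE N) 1))) :=
    ENNReal.Tendsto.const_mul htend (Or.inl hvol)
  have hlt : t * volume (ball (0 : EE N) 1) < (m : ℝ≥0∞) * volume (ball (0 : EE N) 1) :=
    (ENNReal.mul_lt_mul_iff_left hvol hvolt).mpr ht
  obtain ⟨k, hk⟩ := (htend2.eventually (lt_mem_nhds hlt)).exists
  set a : ℝ := (k : ℝ) + 1 with ha
  have ha0 : 0 < a := by positivity
  refine ⟨a, ha0, hk.le.trans ?_⟩
  set c : Fin N → ℝ := cab i₀ j₀ a 1 with hc
  have hci₀ : c i₀ = a := by simp [hc, cab]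
  have hci : ∀ i, i ≠ i₀ → c i = 1 := fun i hi => by simp [hc, cab, hi]
  calc (m : ℝ≥0∞) * volume (S k) = ∫⁻ _y in S k, (m : ℝ≥0∞) := by rw [setLIntegral_const]
    _ ≤ ∫⁻ y in S k, G (dg c y) := by
        refine setLIntegral_mono (hG.comp (continuous_dg c).measurable) fun y hy => ?_
        obtain ⟨hy1, h5⟩ := hy
        have h4 : ‖y‖ < 1 := mem_ball_zero_iff.mp hy1
        have h6 : 0 < |y i₀| := lt_of_lt_of_le (by positivity) h5
        have h7 : y i₀ ≠ 0 := abs_pos.mp h6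
        have h8 := DgVol_near ha0 hci₀ hci h7
        have h9 : ‖y‖ / (a * |y i₀|) < δ := by
          rw [div_lt_iff₀ (by positivity)]
          have h10 : 2 ≤ δ * (a * |y i₀|) := by
            calc 2 = δ * (a * (2 / (a * δ))) := by field_simp
              _ ≤ _ := by gcongr
          linarith
        rw [← hh (a * y i₀)⁻¹ (inv_ne_zero (mul_ne_zero ha0.ne' h7)) (dg c y)]
        refine h _ ?_
        rw [mem_ball, dist_eq_norm]
        exact h8.trans_lt h9
    _ ≤ ∫⁻ y in ball (0 : EE N) 1, G (dg c y) := lintegral_mono_set fun y hy => hy.1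

end TAC
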