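import Pool.Agent.Lib.MP_82d824_gt.DgVol

/-!
# JOB WUp: the limit `b → ∞`

Let `R = 3 + 2 / δ`. For `b ≥ 1` split the unit ball into `T = {y ∈ ball 0 1 | |y j₀| < 2 / (b δ)}` and the rest. On the
rest `G (dg c y) ≤ m`, `c = cab i₀ j₀ 1 b`: the vector `z = (b y_{j₀})⁻¹ • dg c y` has `z j₀ = 1` and `z i = y i / (b y_{j₀})` for `i ≠ j₀`, so
`‖z - e_ j₀‖ ≤ ‖y‖ / (b |y_{j₀}|) ≤ δ / 2 < δ`. On `T`: `∫⁻ y in T, G (dg c y) = b⁻¹ ∫⁻ z in dg c '' T, G z` (`lintegral_dg`,
`∏ i, c i = b`), `dg c '' T ⊆ ball 0 R` (`|z j₀| = b |y j₀| < 2 / δ`, the other coordinates are those of `y`), and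
`∫⁻ z in ball 0 R, G = R^N ∫⁻ z in ball 0 1, G =: K < ∞` (`lintegral_ball`). So `W ≤ m vol(ball) + b⁻¹ K`, and `b⁻¹ K ≤ (t - m) vol(ball)` for
large `b` (if `t = ⊤` then everything is trivial: `vol(ball) ≠ 0`).
-/

set_option autoImplicit false

open MeasureTheory Metric Set Filter Topology
open scoped ENNReal Manifold ContDiff

noncomputable section

namespace TAC

variable {N : ℕ}

theorem WUp_cab_pos {i₀ j₀ : Fin N} {a b : ℝ} (ha : 0 < a) (hb : 0 < b) (i : Fin N) : 0 < cab i₀ j₀ a b i := by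
  unfold cab
  split_ifs
  · exact ha
  · exact hb
  · exact one_pos

theorem WUp_prod {i₀ j₀ : Fin N} (hij : i₀ ≠ j₀) (b : ℝ) : ∏ i, cab i₀ j₀ 1 b i = b := by
  rw [Finset.prod_eq_single j₀]
  · simp [cab, hij.symm]
  · intro i _ hi
    simp [cab, hi]
  · intro h
    exact absurd (Finset.mem_univ _) h

theorem WUp_norm_le {i₀ j₀ : Fin N} (hij : i₀ ≠ j₀) {b : ℝ} (hb : 1 ≤ b) (y : EE N) :
    ‖dg (cab i₀ j₀ 1 b) y‖ ≤ ‖y‖ + b * |y j₀| := by
  have h : dg (cab i₀ j₀ 1 b) y = y + ((b - 1) * y j₀) • e_ j₀ := by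
    ext i
    simp only [PiLp.add_apply, PiLp.smul_apply, smul_eq_mul, dg_apply, e_, PiLp.single_apply]
    by_cases hi : i = j₀
    · subst hi
      simp [cab, hij.symm]
      ring
    · simp [cab, hi]
  rw [h]
  refine (norm_add_le _ _).trans ?_
  rw [norm_smul, norm_mul, Real.norm_eq_abs, Real.norm_eq_abs, abs_of_nonneg (by linarith : 0 ≤ b - 1)]
  have h1 : ‖e_ j₀‖ = 1 := by simp [e_]
  rw [h1, mul_one]
  have := abs_nonneg (y j₀)
  nlinarith

theorem W_upper {G : EE N → ℝ≥0∞} (hG : Measurable G) (hh : ∀ c : ℝ, c ≠ 0 → ∀ y, G (c • y) = G y)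
    (hfin : ∫⁻ y in ball (0 : EE N) 1, G y < ⊤) {i₀ j₀ : Fin N} (hij : i₀ ≠ j₀) {m : ℕ} {δ : ℝ} (hδ : 0 < δ)
    (h : ∀ y ∈ ball (e_ j₀) δ, G y ≤ m) {t : ℝ≥0∞} (ht : (m : ℝ≥0∞) < t) :
    ∃ b : ℝ, 0 < b ∧ ∫⁻ y in ball (0 : EE N) 1, G (dg (cab i₀ j₀ 1 b) y) ≤ t * volume (ball (0 : EE N) 1) := by
  set R : ℝ := 1 + 2 / δ with hR
  have hR0 : 0 < R := by positivity
  set K : ℝ≥0∞ := ∫⁻ z in ball (0 : EE N) R, G z with hK
  have hKfin : K ≠ ⊤ := by
    rw [hK, lintegral_ball hG hh hR0]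
    exact ENNReal.mul_ne_top ENNReal.ofReal_ne_top hfin.ne
  have hvol : volume (ball (0 : EE N) 1) ≠ 0 := (measure_ball_pos _ _ one_pos).ne'
  have hε : (t - m) * volume (ball (0 : EE N) 1) ≠ 0 :=
    mul_ne_zero (tsub_pos_of_lt ht).ne' hvol
  obtain ⟨n, hn⟩ := ENNReal.exists_nat_mul_gt hε hKfin
  set b : ℝ := (n : ℝ) + 1 with hb
  have hb1 : 1 ≤ b := by rw [hb]; have : (0:ℝ) ≤ n := Nat.cast_nonneg n; linarith
  have hb0 : 0 < b := by linarith
  refine ⟨b, hb0, ?_⟩
  set c : Fin N → ℝ := cab i₀ j₀ 1 b with hc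
  have hcpos : ∀ i, 0 < c i := WUp_cab_pos one_pos hb0
  have hcj : c j₀ = b := by simp [hc, cab, hij.symm]
  have hci : ∀ i, i ≠ j₀ → c i = 1 := fun i hi => by simp [hc, cab, hi]
  set T : Set (EE N) := {y | y ∈ ball (0 : EE N) 1 ∧ |y j₀| < 2 / (b * δ)} with hT
  have hTm : MeasurableSet T := by
    refine measurableSet_ball.inter ?_
    have h1 : Continuous (fun y : EE N => |y j₀|) := (EuclideanSpace.proj j₀).continuous.abs
    exact (isOpen_lt h1 continuous_const).measurableSet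
  have hTb : T ⊆ ball (0 : EE N) 1 := fun y hy => hy.1
  -- the part on T
  have hI1 : ∫⁻ y in T, G (dg c y) ≤ (t - m) * volume (ball (0 : EE N) 1) := by
    have h1 := lintegral_dg hcpos G hG hTm
    rw [hc, WUp_prod hij b, ← hc] at h1
    have h2 : dg c '' T ⊆ ball (0 : EE N) R := by
      rintro z ⟨y, hy, rfl⟩
      rw [mem_ball_zero_iff]
      have h3 := WUp_norm_le hij hb1 y
      rw [← hc] at h3
      have h4 : ‖y‖ < 1 := mem_ball_zero_iff.mp hy.1
      have h5 : b * |y j₀| < 2 / δ := by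
        calc b * |y j₀| < b * (2 / (b * δ)) := by
              have := hy.2
              gcongr
          _ = 2 / δ := by field_simp
      rw [hR]; linarith
    have h3 : ∫⁻ z in dg c '' T, G z ≤ K := lintegral_mono_set h2
    have h4 : K ≤ ENNReal.ofReal b * ((t - m) * volume (ball (0 : EE N) 1)) := by
      refine hn.le.trans ?_
      gcongr
      rw [hb]
      rw [ENNReal.ofReal_add (Nat.cast_nonneg n) zero_le_one, ENNReal.ofReal_natCast]
      exact le_self_add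
    have h5 : ENNReal.ofReal b * ∫⁻ y in T, G (dg c y)
        ≤ ENNReal.ofReal b * ((t - m) * volume (ball (0 : EE N) 1)) := by
      rw [h1]; exact h3.trans h4
    exact (ENNReal.mul_le_mul_iff_right (by simpa using hb0) ENNReal.ofReal_ne_top).mp h5
  -- the rest
  have hI2 : ∫⁻ y in ball (0 : EE N) 1 \ T, G (dg c y) ≤ m * volume (ball (0 : EE N) 1) := by
    calc ∫⁻ y in ball (0 : EE N) 1 \ T, G (dg c y) ≤ ∫⁻ _y in ball (0 : EE N) 1 \ T, (m : ℝ≥0∞) := by
          refine setLIntegral_mono measurable_const fun y hy => ?_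
          obtain ⟨hy1, hy2⟩ := hy
          have h4 : ‖y‖ < 1 := mem_ball_zero_iff.mp hy1
          have h5 : 2 / (b * δ) ≤ |y j₀| := by
            by_contra hcon
            exact hy2 ⟨hy1, not_le.mp hcon⟩
          have h6 : 0 < |y j₀| := lt_of_lt_of_le (by positivity) h5
          have h7 : y j₀ ≠ 0 := abs_pos.mp h6
          have h8 := DgVol_near hb0 hcj hci h7
          have h9 : ‖y‖ / (b * |y j₀|) < δ := by
            rw [div_lt_iff₀ (by positivity)]
            have h10 : 2 ≤ δ * (b * |y j₀|) := by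
              calc 2 = δ * (b * (2 / (b * δ))) := by field_simp
                _ ≤ _ := by gcongr
            linarith
          rw [← hh (b * y j₀)⁻¹ (inv_ne_zero (mul_ne_zero hb0.ne' h7)) (dg c y)]
          refine h _ ?_
          rw [mem_ball, dist_eq_norm]
          exact h8.trans_lt h9
      _ = m * volume (ball (0 : EE N) 1 \ T) := by rw [setLIntegral_const]
      _ ≤ m * volume (ball (0 : EE N) 1) := by
          gcongr
          exact Set.sdiff_subset
  have hsum : ∫⁻ y in ball (0 : EE N) 1, G (dg c y)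
      = (∫⁻ y in T, G (dg c y)) + ∫⁻ y in ball (0 : EE N) 1 \ T, G (dg c y) := by
    have h1 := lintegral_inter_add_sdiff (μ := (volume : Measure (EE N))) (fun y => G (dg c y)) (ball (0 : EE N) 1) hTm
    rw [← h1, Set.inter_eq_self_of_subset_right hTb]
  rw [hsum]
  calc _ ≤ (t - m) * volume (ball (0 : EE N) 1) + m * volume (ball (0 : EE N) 1) := add_le_add hI1 hI2
    _ = t * volume (ball (0 : EE N) 1) := by
        rw [← add_mul, tsub_add_cancel_of_le ht.le]

end TAC
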