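import Pool.Agent.Lib.MP_82d824_gt.WCont
import Pool.Agent.Lib.MP_82d824_gt.WUp
import Pool.Agent.Lib.MP_82d824_gt.WLow

/-!
# JOB WIvt: the intermediate value theorem

Choose `t₁` with `m < t₁ ≤ τ` (e.g. `t₁ = τ`) and `t₂ = τ` for the lower bound (`τ < m'`): `W_upper` gives `b₀` with
`W (1, b₀) ≤ τ vol`, `W_lower` gives `a₀` with `τ vol ≤ W (a₀, 1)`. The set `{(a, b) | 0 < a ∧ 0 < b} ⊆ ℝ × ℝ` is convex, so
preconnected, and `(a, b) ↦ W (cab i₀ j₀ a b)` is continuous on it (`W_continuousOn`, `cab` is continuous in `(a, b)`); apply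
`IsPreconnected.intermediate_value`.
-/

set_option autoImplicit false

open MeasureTheory Metric Set Filter Topology
open scoped ENNReal Manifold ContDiff

noncomputable section

namespace TAC

variable {N : ℕ}

theorem W_ivt {G : EE N → ℝ≥0∞} (hG : Measurable G) (hh : ∀ c : ℝ, c ≠ 0 → ∀ y, G (c • y) = G y)
    (hfin : ∫⁻ y in ball (0 : EE N) 1, G y < ⊤) {i₀ j₀ : Fin N} (hij : i₀ ≠ j₀) {m m' : ℕ} {δ : ℝ} (hδ : 0 < δ)
    (h : ∀ y ∈ ball (e_ j₀) δ, G y ≤ m) {δ' : ℝ} (hδ' : 0 < δ') (h' : ∀ y ∈ ball (e_ i₀) δ', (m' : ℝ≥0∞) ≤ G y)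
    {τ : ℝ≥0∞} (h1 : (m : ℝ≥0∞) < τ) (h2 : τ < m') :
    ∃ a b : ℝ, 0 < a ∧ 0 < b ∧
      ∫⁻ y in ball (0 : EE N) 1, G (dg (cab i₀ j₀ a b) y) = τ * volume (ball (0 : EE N) 1) := by
  obtain ⟨b₀, hb₀, hu⟩ := W_upper hG hh hfin hij hδ h h1
  obtain ⟨a₀, ha₀, hl⟩ := W_lower hG hh hij hδ' h' h2
  have hconn : IsPreconnected (Ioi (0 : ℝ) ×ˢ Ioi (0 : ℝ)) :=
    ((convex_Ioi (0 : ℝ)).prod (convex_Ioi (0 : ℝ))).isPreconnected
  have hcab : Continuous (fun p : ℝ × ℝ => cab i₀ j₀ p.1 p.2) := by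
    refine continuous_pi fun i => ?_
    unfold cab
    by_cases h3 : i = i₀
    · simp only [h3, if_true]; exact continuous_fst
    · by_cases h4 : i = j₀
      · simp only [h3, h4, if_false, if_true, hij.symm]; exact continuous_snd
      · simp only [h3, h4, if_false]; exact continuous_const
  have hmaps : MapsTo (fun p : ℝ × ℝ => cab i₀ j₀ p.1 p.2) (Ioi (0 : ℝ) ×ˢ Ioi (0 : ℝ)) {c | ∀ i, 0 < c i} := by
    intro p hp i
    have h3 : 0 < p.1 := hp.1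
    have h4 : 0 < p.2 := hp.2
    show 0 < cab i₀ j₀ p.1 p.2 i
    unfold cab
    split_ifs
    · exact h3
    · exact h4
    · exact one_pos
  have hW := W_continuousOn hG hh hfin
  have hcont : ContinuousOn (fun p : ℝ × ℝ => ∫⁻ y in ball (0 : EE N) 1, G (dg (cab i₀ j₀ p.1 p.2) y))
      (Ioi (0 : ℝ) ×ˢ Ioi (0 : ℝ)) :=
    hW.comp (f := fun p : ℝ × ℝ => cab i₀ j₀ p.1 p.2) hcab.continuousOn hmaps
  have hivt := hconn.intermediate_value (a := ((1 : ℝ), b₀)) (b := (a₀, (1 : ℝ)))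
    ⟨by simp, hb₀⟩ ⟨ha₀, by simp⟩ hcont
  obtain ⟨p, hp, hp2⟩ := hivt ⟨hu, hl⟩
  exact ⟨p.1, p.2, hp.1, hp.2, hp2⟩

end TAC
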