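import Pool.Agent.Lib.MP_82d824_gt.Near
import Pool.Agent.Lib.MP_82d824_gt.Finite
import Pool.Agent.Lib.MP_82d824_gt.Polar
import Pool.Agent.Lib.MP_82d824_gt.WIvt
import Pool.Agent.Lib.MP_82d824_gt.Trans
import Pool.Agent.Lib.MP_82d824_gt.Extra

/-!
# Assembly

`main`: `N ≥ 2` coordinates: `i₀ ≠ j₀`. Step 0: `e ≠ 0`. Step 1: `O` from `exists_isometry e`,
`f₁ = O ∘ f`; `⟪e_ j₀, f₁ x⟫ = ‖e‖⁻¹ ⟪e, f x⟫`. Step 2: `nonconst`, `many` for `f₁` with `m' > τ`: `s`, `f₂ = shear i₀ j₀ s ∘ f₁`.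
Step 3: `W_ivt` for `G = cnt n f₂`, `F = dg c ∘ f₂`, `polar`.
-/

set_option autoImplicit false

open MeasureTheory Metric Set Filter Topology
open scoped ENNReal Manifold ContDiff

noncomputable section

namespace TAC

section smul

variable {n : ℕ} {M : Type} [TopologicalSpace M] [ChartedSpace (EE n) M] [IsManifold (II n) sm M]

omit [IsManifold (II n) sm M] in
theorem mfderiv_smul_fun {h : M → ℝ} (hh : ContMDiff (II n) (modelWithCornersSelf ℝ ℝ) sm h) (t : ℝ) (x : M) :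
    mfderiv (II n) (modelWithCornersSelf ℝ ℝ) (fun x => t * h x) x =
      t • mfderiv (II n) (modelWithCornersSelf ℝ ℝ) h x := by
  have h1 : MDifferentiableAt (II n) (modelWithCornersSelf ℝ ℝ) h x :=
    (hh x).mdifferentiableAt (by simp)
  have h2 := h1.hasMFDerivAt.const_smul t
  exact h2.mfderiv

omit [IsManifold (II n) sm M] in
theorem critF_smul {h : M → ℝ} (hh : ContMDiff (II n) (modelWithCornersSelf ℝ ℝ) sm h) {t : ℝ} (ht : t ≠ 0) :
    critF n (fun x => t * h x) = critF n h := by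
  ext x
  unfold critF
  show mfderiv (II n) (modelWithCornersSelf ℝ ℝ) (fun x => t * h x) x = 0 ↔
    mfderiv (II n) (modelWithCornersSelf ℝ ℝ) h x = 0
  rw [mfderiv_smul_fun hh]
  exact smul_eq_zero_iff_right ht

theorem morseLe_smul {h : M → ℝ} {m : ℕ} (hh : MorseLe n h m) {t : ℝ} (ht : t ≠ 0) : MorseLe n (fun x => t * h x) m := by
  obtain ⟨h1, h2, h3⟩ := hh
  refine ⟨?_, ?_, ?_⟩
  · exact (contMDiff_const (c := t)).mul h1
  · intro x hx
    rw [critF_smul h1 ht] at hx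
    have h4 := h2 x hx
    intro v hv
    apply h4
    intro w
    have h5 := hv w
    have h6 : ((fun x => t * h x) ∘ (extChartAt (II n) x).symm) =
        t • (h ∘ (extChartAt (II n) x).symm) := by
      funext u; simp
    rw [h6] at h5
    have h7 : fderiv ℝ (t • (h ∘ (extChartAt (II n) x).symm)) =
        t • fderiv ℝ (h ∘ (extChartAt (II n) x).symm) :=
      fderiv_const_smul_field t
    have h9 : fderiv ℝ (t • fderiv ℝ (h ∘ (extChartAt (II n) x).symm)) =
        t • fderiv ℝ (fderiv ℝ (h ∘ (extChartAt (II n) x).symm)) := by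
      have := fderiv_const_smul_field (𝕜 := ℝ) (E := EE n) (F := EE n →L[ℝ] ℝ)
        (f := fderiv ℝ (h ∘ (extChartAt (II n) x).symm)) (R := ℝ) t
      exact this
    rw [h7, h9] at h5
    have h8 : t • (fderiv ℝ (fderiv ℝ (h ∘ (extChartAt (II n) x).symm)) (extChartAt (II n) x x) v w) = 0 := h5
    exact (smul_eq_zero.1 h8).resolve_left ht
  · rw [critF_smul h1 ht]
    exact h3

end smul

variable {n N : ℕ} {M : Type} [TopologicalSpace M] [CompactSpace M] [T2Space M] [ConnectedSpace M]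
  [ChartedSpace (EE n) M] [IsManifold (II n) sm M]

omit [CompactSpace M] [T2Space M] [IsManifold (II n) sm M] in
/-- the direction is not zero -/
theorem e_ne_zero (hn : 1 ≤ n) {f : M → EE N} {e : EE N} {m : ℕ}
    (he : MorseLe n (fun x => inner ℝ e (f x)) m) : e ≠ 0 := by
  rintro rfl
  have h0 : (fun x => inner ℝ (0 : EE N) (f x) : M → ℝ) = fun _ => 0 := by
    funext x
    simp
  rw [h0] at he
  obtain ⟨x⟩ := (inferInstance : Nonempty M)
  have hx : x ∈ critF n (fun _ : M => (0 : ℝ)) := by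
    show mfderiv (II n) (modelWithCornersSelf ℝ ℝ) (fun _ : M => (0 : ℝ)) x = 0
    exact mfderiv_const
  have h1 := he.2.1 x hx
  have h2 : ∀ v : EE n, v = 0 := by
    intro v
    apply h1
    intro w
    have h3 : ((fun _ : M => (0 : ℝ)) ∘ (extChartAt (II n) x).symm) = fun _ => (0 : ℝ) := rfl
    have h4 : fderiv ℝ (fun _ : EE n => (0 : ℝ)) = fun _ => 0 := by
      funext u
      exact fderiv_const_apply 0
    rw [h3, h4]
    have h5 : fderiv ℝ (fun _ : EE n => (0 : EE n →L[ℝ] ℝ)) (extChartAt (II n) x x) = 0 := fderiv_const_apply 0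
    rw [h5]
    rfl
  have h3 := h2 (e_ (⟨0, by omega⟩ : Fin n))
  have h4 := congrArg (fun z : EE n => z ⟨0, by omega⟩) h3
  simp at h4

theorem main_aux (hn : 1 ≤ n) {i₀ j₀ : Fin N} (hij : i₀ ≠ j₀) {f : M → EE N} (hf : Imm n f) {m : ℕ}
    (he : MorseLe n (fun x => f x j₀) m) {τ : ℝ} (hτ : m < τ) :
    ∃ F : M → EE N, Imm n F ∧ TA n F = ENNReal.ofReal τ * (volume : Measure (EE N)).toSphere univ := by
  have hN : 0 < N := i₀.pos
  -- the shear
  obtain ⟨p, q, hpq⟩ := nonconst hn hf.1 j₀ (lt_of_le_of_lt he.2.2 (by exact_mod_cast ENat.natCast_lt_top m))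
  obtain ⟨m', hm'⟩ := exists_nat_gt τ
  obtain ⟨s, hs, δ', hδ', hmany⟩ := many hf.1 hij hpq m'
  set f₂ : M → EE N := shear i₀ j₀ s ∘ f with hf₂
  have himm : Imm n f₂ := shear_imm hij hs hf
  have hheight : ∀ x, (inner ℝ (e_ j₀) (f₂ x) : ℝ) = f x j₀ := fun x => shear_height hij s (f x)
  have hheight' : (fun x => inner ℝ (e_ j₀) (f₂ x) : M → ℝ) = fun x => f x j₀ := funext hheight
  have hcrit : crit n f₂ (e_ j₀) = critF n (fun x => f x j₀) := by
    rw [crit_eq_critF himm.1, hheight']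
  obtain ⟨δ, hδ, hnear⟩ := near_le himm.1 (e := e_ j₀) (by
    intro x hx
    rw [hheight']
    rw [hcrit] at hx
    exact he.2.1 x hx)
  -- the function of the direction
  have hG : Measurable (cnt n f₂) := measurable_cnt himm.1
  have hh : ∀ c : ℝ, c ≠ 0 → ∀ y, cnt n f₂ (c • y) = cnt n f₂ y := fun c hc y => cnt_smul f₂ hc y
  have hfin := finite_cnt himm
  have hup : ∀ y ∈ ball (e_ j₀) δ, cnt n f₂ y ≤ m := by
    intro y hy
    have h1 : (crit n f₂ y).encard ≤ (m : ℕ∞) := by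
      refine (hnear y hy).trans ?_
      rw [hcrit]
      exact he.2.2
    unfold cnt
    calc ENat.toENNReal (crit n f₂ y).encard ≤ ENat.toENNReal (m : ℕ∞) := ENat.toENNReal_le.2 h1
      _ = m := ENat.toENNReal_coe m
  have hlow : ∀ y ∈ ball (e_ i₀) δ', (m' : ℝ≥0∞) ≤ cnt n f₂ y := by
    intro y hy
    unfold cnt
    calc (m' : ℝ≥0∞) = ENat.toENNReal (m' : ℕ∞) := (ENat.toENNReal_coe m').symm
      _ ≤ _ := ENat.toENNReal_le.2 (hmany y hy)
  have h1 : (m : ℝ≥0∞) < ENNReal.ofReal τ := by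
    rw [← ENNReal.ofReal_natCast]
    exact (ENNReal.ofReal_lt_ofReal_iff (lt_of_le_of_lt (Nat.cast_nonneg m) hτ)).2 hτ
  have h2 : ENNReal.ofReal τ < m' := by
    rw [← ENNReal.ofReal_natCast]
    exact (ENNReal.ofReal_lt_ofReal_iff (lt_trans (lt_of_le_of_lt (Nat.cast_nonneg m) hτ) hm')).2 hm'
  obtain ⟨a, b, ha, hb, hab⟩ := W_ivt hG hh hfin hij hδ hup hδ' hlow h1 h2
  have hc : ∀ i, 0 < cab i₀ j₀ a b i := by
    intro i
    unfold cab
    split_ifs
    · exact ha
    · exact hb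
    · exact one_pos
  refine ⟨dg (cab i₀ j₀ a b) ∘ f₂, dg_imm (fun i => (hc i).ne') himm, ?_⟩
  have h3 : ∀ y, cnt n (dg (cab i₀ j₀ a b) ∘ f₂) y = cnt n f₂ (dg (cab i₀ j₀ a b) y) := by
    intro y
    unfold cnt
    rw [crit_dg _ himm.1]
  have himm3 := dg_imm (n := n) (fun i => (hc i).ne') himm
  unfold TA
  rw [polar hN (measurable_cnt himm3.1) (fun c hc y => cnt_smul _ hc y)]
  simp only [h3]
  rw [hab, Measure.toSphere_apply_univ]
  simp only [finrank_euclideanSpace, Fintype.card_fin]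
  ring

theorem main (hn : 1 ≤ n) (hN : 2 ≤ N) {f : M → EE N} (hf : Imm n f) {e : EE N} {m : ℕ}
    (he : MorseLe n (fun x => inner ℝ e (f x)) m) {τ : ℝ} (hτ : m < τ) :
    ∃ F : M → EE N, Imm n F ∧ TA n F = ENNReal.ofReal τ * (volume : Measure (EE N)).toSphere univ := by
  have hij : (⟨0, by omega⟩ : Fin N) ≠ ⟨1, by omega⟩ := by
    intro h
    have := congrArg Fin.val h
    simp at this
  have hne := e_ne_zero hn he
  obtain ⟨O, hO⟩ := exists_isometry e hne ⟨1, by omega⟩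
  have h1 : ∀ x, (O (f x)) ⟨1, by omega⟩ = ‖e‖⁻¹ * inner ℝ e (f x) := by
    intro x
    have h2 : inner ℝ (O e) (O (f x)) = (inner ℝ e (f x) : ℝ) := O.inner_map_map e (f x)
    rw [hO, inner_smul_left] at h2
    have h3 : (inner ℝ (e_ (⟨1, by omega⟩ : Fin N)) (O (f x)) : ℝ) = (O (f x)) ⟨1, by omega⟩ := by
      rw [EuclideanSpace.inner_single_left]
      simp
    rw [h3] at h2
    rw [← h2]
    simp only [conj_trivial]
    rw [← mul_assoc, inv_mul_cancel₀ (norm_ne_zero_iff.2 hne), one_mul]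
  refine main_aux hn hij (isometry_imm O hf) (m := m) ?_ hτ
  have h2 : (fun x => (O ∘ f) x ⟨1, by omega⟩ : M → ℝ) = fun x => ‖e‖⁻¹ * inner ℝ e (f x) := funext h1
  rw [h2]
  exact morseLe_smul he (inv_ne_zero (norm_ne_zero_iff.2 hne))

/-- the version for an immersion in codimension one and a Morse function -/
theorem main_codim_one (hn : 1 ≤ n) {g : M → EE (n + 1)} (hg : Imm n g) {φ : M → ℝ} {m : ℕ} (hφ : MorseLe n φ m) {τ : ℝ}
    (hτ : m < τ) :
    ∃ F : M → EE (n + 2), Imm n F ∧ TA n F = ENNReal.ofReal τ * (volume : Measure (EE (n + 2))).toSphere univ := by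
  have hij : (0 : Fin (n + 2)) ≠ Fin.last (n + 1) := by
    intro h
    have := congrArg Fin.val h
    simp at this
  refine main_aux hn hij (snoc_imm hg hφ.1) (m := m) ?_ hτ
  have h2 : (fun x => snoc (g x) (φ x) (Fin.last (n + 1)) : M → ℝ) = φ := by
    funext x
    exact snoc_last (g x) (φ x)
  rw [h2]
  exact hφ

end TAC
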