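import Pool.Agent.Lib.MP_82d824_gt.Closed

/-!
# JOB Meas: the number of critical points is a measurable function of the direction

* `measurable_encard_fiber`: for `k : ℕ` the set `{y | k ≤ encard {x | (x, y) ∈ R}}` is the countable union over `m : ℕ` of the
  closed sets `C m = {y | ∃ x : Fin k → X, (∀ i j, i ≠ j → 1 / (m + 1) ≤ dist (x i) (x j)) ∧ ∀ i, (x i, y) ∈ R}`. `C m` is the
  projection of a closed subset of `(Fin k → X) × Y` along the compact space `Fin k → X`
  (`isClosedMap_snd_of_compactSpace`). For the inclusion `⊆`: `k ≤ encard s` gives an injective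
  `x : Fin k → X` with values in `s` (e.g. `Set.exists_subset_encard_eq`, `Set.encard_coe_eq_coe_finsetCard`), and finitely many
  positive distances are `≥ 1 / (m + 1)` for some `m`. Then measurability into `ℕ∞` / `ℝ≥0∞`: the function only takes values in
  `ℕ ∪ {∞}`; e.g. `measurable_of_Ici` for `ℝ≥0∞`: `a ≤ toENNReal (encard ..) ↔ ...` equals `{y | ⌈a⌉₊ ≤ encard ..}` for
  `a < ∞`, and the intersection over all `k` for `a = ∞`. (Or: the function is the supremum over `k` of the simple functions
  `indicator {y | k ≤ encard ..} k`.)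
* `measurable_cnt`: `M` is compact Hausdorff and second countable (`ChartedSpace.secondCountable_of_sigmaCompact (EE n) M`), so
  metrizable (`TopologicalSpace.metrizableSpace_of_t3_secondCountable`, `TopologicalSpace.metrizableSpaceMetric`); apply the
  general lemma to `isClosed_crit`.
-/

set_option autoImplicit false

open MeasureTheory Metric Set Filter Topology
open scoped ENNReal Manifold ContDiff

noncomputable section

namespace TAC

theorem Meas_embed {X : Type} {s : Set X} {k : ℕ} (h : (k : ℕ∞) ≤ s.encard) :
    ∃ x : Fin k → X, Function.Injective x ∧ ∀ i, x i ∈ s := by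
  obtain ⟨t, hts, htk⟩ := Set.exists_subset_encard_eq h
  have hfin : t.Finite := Set.finite_of_encard_eq_coe htk
  have hcard : hfin.toFinset.card = k := by
    have h1 := hfin.encard_eq_coe_toFinset_card
    rw [htk] at h1
    exact_mod_cast h1.symm
  let e := hfin.toFinset.equivFinOfCardEq hcard
  refine ⟨fun i => (e.symm i).1, ?_, fun i => hts ?_⟩
  · intro i j hij
    exact e.symm.injective (Subtype.ext hij)
  · exact hfin.mem_toFinset.1 (e.symm i).2

theorem Meas_le {X : Type} {s : Set X} {k : ℕ} {x : Fin k → X} (hx : Function.Injective x)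
    (h : ∀ i, x i ∈ s) : (k : ℕ∞) ≤ s.encard := by
  have h1 : (k : ℕ∞) ≤ (Set.range x).encard := by
    have := hx.encard_range
    rw [ENat.card_eq_coe_fintype_card, Fintype.card_fin] at this
    exact this
  exact h1.trans (Set.encard_le_encard (Set.range_subset_iff.2 h))

theorem Meas_ge {X Y : Type} [MetricSpace X] [CompactSpace X] [TopologicalSpace Y] [MeasurableSpace Y]
    [BorelSpace Y] {R : Set (X × Y)} (hR : IsClosed R) (k : ℕ) :
    MeasurableSet {y : Y | (k : ℕ∞) ≤ {x : X | (x, y) ∈ R}.encard} := by
  have hU : {y : Y | (k : ℕ∞) ≤ {x : X | (x, y) ∈ R}.encard} = ⋃ m : ℕ, Prod.snd ''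
      {p : (Fin k → X) × Y | (∀ i j, i ≠ j → 1 / ((m : ℝ) + 1) ≤ dist (p.1 i) (p.1 j)) ∧
        ∀ i, (p.1 i, p.2) ∈ R} := by
    ext y
    simp only [mem_setOf_eq, mem_iUnion, mem_image, Prod.exists, exists_eq_right]
    constructor
    · intro h
      obtain ⟨x, hx, hxs⟩ := Meas_embed h
      have hev : ∀ᶠ m : ℕ in atTop, ∀ i j, i ≠ j → 1 / ((m : ℝ) + 1) ≤ dist (x i) (x j) := by
        refine Filter.eventually_all.2 fun i => Filter.eventually_all.2 fun j => ?_
        by_cases hij : i = j
        · exact Filter.Eventually.of_forall fun m h => absurd hij h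
        · have hd : 0 < dist (x i) (x j) := dist_pos.2 fun h => hij (hx h)
          have := (tendsto_one_div_add_atTop_nhds_zero_nat (𝕜 := ℝ)).eventually (Iic_mem_nhds hd)
          exact this.mono fun m hm _ => hm
      obtain ⟨m, hm⟩ := hev.exists
      exact ⟨m, x, hm, hxs⟩
    · rintro ⟨m, x, hm, hxs⟩
      refine Meas_le (x := x) ?_ hxs
      intro i j hij
      by_contra hne
      have h1 := hm i j hne
      rw [hij, dist_self] at h1
      have h2 : 0 < 1 / ((m : ℝ) + 1) := by positivity
      linarith
  rw [hU]
  refine MeasurableSet.iUnion fun m => IsClosed.measurableSet ?_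
  refine isClosedMap_snd_of_compactSpace _ ?_
  refine IsClosed.and ?_ ?_
  · simp only [setOf_forall]
    refine isClosed_iInter fun i => isClosed_iInter fun j => isClosed_iInter fun _ => ?_
    refine isClosed_le continuous_const ?_
    exact ((continuous_apply i).comp continuous_fst).dist ((continuous_apply j).comp continuous_fst)
  · simp only [setOf_forall]
    refine isClosed_iInter fun i => ?_
    exact hR.preimage (((continuous_apply i).comp continuous_fst).prodMk continuous_snd)

theorem measurable_encard_fiber {X Y : Type} [MetricSpace X] [CompactSpace X] [TopologicalSpace Y] [MeasurableSpace Y]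
    [BorelSpace Y] {R : Set (X × Y)} (hR : IsClosed R) :
    Measurable fun y : Y => ENat.toENNReal {x : X | (x, y) ∈ R}.encard := by
  have h : Measurable fun y : Y => {x : X | (x, y) ∈ R}.encard := by
    rw [ENat.measurable_iff]
    intro k
    have e : (fun y : Y => {x : X | (x, y) ∈ R}.encard) ⁻¹' {(k : ℕ∞)} =
        {y : Y | (k : ℕ∞) ≤ {x : X | (x, y) ∈ R}.encard} \
          {y : Y | ((k + 1 : ℕ) : ℕ∞) ≤ {x : X | (x, y) ∈ R}.encard} := by
      ext y
      simp only [mem_preimage, mem_singleton_iff, mem_diff, mem_setOf_eq, not_le]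
      constructor
      · intro h
        rw [h]
        exact ⟨le_rfl, by exact_mod_cast Nat.lt_succ_self k⟩
      · rintro ⟨h1, h2⟩
        refine le_antisymm ?_ h1
        push_cast at h2
        exact ENat.lt_add_one_iff (by simp) |>.1 h2
    rw [e]
    exact (Meas_ge hR k).diff (Meas_ge hR (k + 1))
  exact (Measurable.of_discrete (f := ENat.toENNReal)).comp h

variable {n N : ℕ} {M : Type} [TopologicalSpace M] [CompactSpace M] [T2Space M] [ChartedSpace (EE n) M]
  [IsManifold (II n) sm M]

theorem measurable_cnt {f : M → EE N} (hf : ContMDiff (II n) (II N) sm f) : Measurable (cnt n f) := by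
  haveI : SecondCountableTopology M := ChartedSpace.secondCountable_of_sigmaCompact (EE n) M
  haveI : TopologicalSpace.MetrizableSpace M := TopologicalSpace.metrizableSpace_of_t3_secondCountable M
  have hc := isClosed_crit hf
  letI : MetricSpace M := TopologicalSpace.metrizableSpaceMetric M
  exact measurable_encard_fiber hc

end TAC
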