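import Pool.Agent.Lib.MP_82d824_gt.Closed
import Pool.Agent.Lib.MP_82d824_gt.LocInj

/-!
# JOB Near: for `y` near `e` there are at most as many critical points as for `e`

For every `x ∈ crit n f e` there are (by `loc_inj` for `loc n f x`, `O = φ.target`, `u₀ = φ x`, `φ = extChartAt (II n) x`; the
hypothesis is `Nondeg`, `loc_height`) an open neighbourhood `U x` of `x` (the set of all `z ∈ φ.source` with
`φ z ∈ ball (φ x) r`) and `δ x > 0` such that for `y ∈ ball e (δ x)` the set `U x ∩ crit n f y` has at most one element (`crit_iff_loc`;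
`φ` is injective on its source). For `x ∉ crit n f e` there are, by `isClosed_crit`, an open neighbourhood `U x` and `δ x > 0` with
`U x ∩ crit n f y = ∅` for `y ∈ ball e (δ x)`. Take a finite subcover `U x`, `x ∈ t` (`CompactSpace.elim_nhds_subcover`), and the
minimum `δ` of the `δ x` (`M` may be empty). Then for `y ∈ ball e δ`: `crit n f y ⊆ ⋃ x ∈ t ∩ crit n f e, (U x ∩ crit n f y)`, each set
is a subsingleton; so `encard (crit n f y) ≤ encard (t ∩ crit n f e) ≤ encard (crit n f e)` (e.g. map `z ∈ crit n f y` to some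
`x ∈ t ∩ crit n f e` with `z ∈ U x`; this map is injective; `Set.encard_le_encard_of_injOn`).
-/

set_option autoImplicit false

open MeasureTheory Metric Set Filter Topology
open scoped ENNReal Manifold ContDiff

noncomputable section

namespace TAC

variable {n N : ℕ} {M : Type} [TopologicalSpace M] [CompactSpace M] [ChartedSpace (EE n) M] [IsManifold (II n) sm M]

omit [CompactSpace M] in
theorem Near_local {f : M → EE N} (hf : ContMDiff (II n) (II N) sm f) {e : EE N}
    (hnd : ∀ x ∈ crit n f e, Nondeg n (fun x => inner ℝ e (f x)) x) (x : M) :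
    ∃ U ∈ 𝓝 x, ∃ δ > 0, ∀ y ∈ ball e δ, (x ∉ crit n f e → ∀ z ∈ U, z ∉ crit n f y) ∧
      (∀ z ∈ U, ∀ z' ∈ U, z ∈ crit n f y → z' ∈ crit n f y → z = z') := by
  by_cases hx : x ∈ crit n f e
  · have h1 := hnd x hx
    unfold Nondeg at h1
    rw [loc_height f e x] at h1
    obtain ⟨r, hr, δ, hδ, hsub, hinj⟩ := loc_inj (isOpen_extChartAt_target (I := II n) x) (loc_contDiffOn hf x)
      (mem_extChartAt_target (I := II n) x) h1
    refine ⟨(extChartAt (II n) x).source ∩ (extChartAt (II n) x) ⁻¹' ball (extChartAt (II n) x x) r,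
      Filter.inter_mem (extChartAt_source_mem_nhds x)
        ((continuousAt_extChartAt x).preimage_mem_nhds (ball_mem_nhds _ hr)), δ, hδ, fun y hy => ⟨fun h => absurd hx h, ?_⟩⟩
    intro z hz z' hz' hc hc'
    have h2 := (crit_iff_loc hf x hz.1 y).1 hc
    have h3 := (crit_iff_loc hf x hz'.1 y).1 hc'
    exact (extChartAt (II n) x).injOn hz.1 hz'.1 (hinj y hy _ hz.2 _ hz'.2 h2 h3)
  · have h1 : {p : M × EE N | p.1 ∈ crit n f p.2}ᶜ ∈ 𝓝 (x, e) := (isClosed_crit hf).isOpen_compl.mem_nhds hx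
    obtain ⟨U, hU, V, hV, hUV⟩ := mem_nhds_prod_iff.1 h1
    obtain ⟨δ, hδ, hb⟩ := Metric.mem_nhds_iff.1 hV
    refine ⟨U, hU, δ, hδ, fun y hy => ⟨fun _ z hz => hUV (mk_mem_prod hz (hb hy)), ?_⟩⟩
    intro z hz z' hz' hc
    exact absurd hc (hUV (mk_mem_prod hz (hb hy)))

theorem near_le {f : M → EE N} (hf : ContMDiff (II n) (II N) sm f) {e : EE N}
    (hnd : ∀ x ∈ crit n f e, Nondeg n (fun x => inner ℝ e (f x)) x) :
    ∃ δ > 0, ∀ y ∈ ball e δ, (crit n f y).encard ≤ (crit n f e).encard := by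
  choose U hU δ hδ h using Near_local hf hnd
  obtain ⟨t, ht⟩ := CompactSpace.elim_nhds_subcover U hU
  have hex : ∃ d > 0, ∀ x ∈ t, d ≤ δ x := by
    have h1 : ∀ᶠ d : ℝ in 𝓝[>] 0, ∀ x ∈ t, d ≤ δ x :=
      (Filter.eventually_all_finset t).2 fun x _ =>
        Filter.mem_of_superset (Ioc_mem_nhdsGT (hδ x)) (fun d hd => hd.2)
    obtain ⟨d, hd, hd0⟩ := (h1.and self_mem_nhdsWithin).exists
    exact ⟨d, hd0, hd⟩
  obtain ⟨d, hd, hdt⟩ := hex
  refine ⟨d, hd, fun y hy => ?_⟩
  have hcov : ∀ z : M, ∃ x ∈ t, z ∈ U x := fun z => by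
    have : z ∈ ⋃ x ∈ t, U x := by rw [ht]; trivial
    simpa using this
  choose g hg1 hg2 using hcov
  have hyx : ∀ z, y ∈ ball e (δ (g z)) := fun z => ball_subset_ball (hdt _ (hg1 z)) hy
  refine Set.encard_le_encard_of_injOn (f := g) ?_ ?_
  · intro z hz
    by_contra hc
    exact (h (g z) y (hyx z)).1 hc z (hg2 z) hz
  · intro z hz z' hz' hzz
    refine (h (g z) y (hyx z)).2 z (hg2 z) z' ?_ hz hz'
    rw [hzz]
    exact hg2 z'

end TAC
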