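import Pool.Agent.Lib.MP_82d824_gt.Defs

/-!
# JOB Slab: volume of thin slabs, uniformly in the normals

`w₀ : Fin n → EE N` linearly independent. Complete it to a basis `b : Fin n ⊕ ι → EE N` of `EE N`
(`LinearIndependent.sumExtend`, or `exists_basis` ...; the index type `ι` is finite). For `w : Fin n → EE N` let
`A w : EE N →ₗ (Fin n ⊕ ι → ℝ)`, `A w y = Sum.elim (fun j => ⟪y, w j⟫) (fun i => ⟪y, b (inr i)⟫)`. `A w₀` is injective (a vector
orthogonal to a basis is zero), so it is an isomorphism; identify the target with `EE N` by a linear equivalence `L` (dimension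
`N`), and put `d w = |det (L ∘ A w)|`. `d w₀ > 0` and `d` is continuous in `w`, so `d w ≥ d w₀ / 2` for `w` near `w₀`. The
set `S = {y ∈ ball 0 1 | ∀ j, |⟪y, w j⟫| ≤ s}` is mapped by `A w` into the box `Q = ∏_j [-s, s] × ∏_i [-K, K]`, `K` a bound for
`‖b (inr i)‖`. `volume (L ∘ A w '' S) = ofReal (d w) * volume S` (`MeasureTheory.Measure.addHaar_image_linearMap`), and
`volume (L '' Q) = const * (2 s)^n (2 K)^(N - n)` (`Real.volume_pi_Icc...`, `addHaar` of a linear equivalence: the image under `L` of the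
product measure is a constant multiple of the volume, e.g. `LinearEquiv` `map_eq_smul...`; or choose everything with
`Matrix`/`Fin N` to avoid this). So `volume S ≤ C s^n`.

(Alternative without completing the basis: choose a linear isometry ... any other proof of the statement is fine. Alternative by
induction on `n` is also possible. The constant may be as bad as you like.)
-/

set_option autoImplicit false

open MeasureTheory Metric Set Filter Topology
open scoped ENNReal Manifold ContDiff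

noncomputable section

namespace TAC

variable {n N : ℕ}

theorem Slab_basis {w₀ : Fin n → EE N} (h : LinearIndependent ℝ w₀) :
    ∃ (ι : Type) (_ : Fintype ι) (b : Module.Basis (Fin n ⊕ ι) ℝ (EE N)), ∀ j, b (Sum.inl j) = w₀ j := by
  classical
  have hfin : Finite (Fin n ⊕ Module.Basis.sumExtendIndex h) :=
    Module.Finite.finite_basis (Module.Basis.sumExtend h)
  have h2 : Finite (Module.Basis.sumExtendIndex h) := Finite.sum_right (Fin n)
  refine ⟨Module.Basis.sumExtendIndex h, Fintype.ofFinite _, Module.Basis.sumExtend h, fun j => ?_⟩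
  simp [Module.Basis.sumExtend]
  rfl

theorem Slab_box {ι : Type} [Fintype ι] (L : (Fin n ⊕ ι → ℝ) ≃ₗ[ℝ] EE N) {K : ℝ} (hK : 0 ≤ K) :
    ∃ C : ℝ, 0 ≤ C ∧ ∀ s : ℝ, 0 ≤ s →
      volume (L '' {v | (∀ j, |v (Sum.inl j)| ≤ s) ∧ ∀ i, |v (Sum.inr i)| ≤ K}) ≤
        ENNReal.ofReal (C * s ^ n) := by
  classical
  let L' : (Fin n ⊕ ι → ℝ) ≃L[ℝ] EE N := L.toContinuousLinearEquiv
  let c : NNReal := Measure.addHaarScalarFactor ((volume : Measure (EE N)).map L'.symm)
    (volume : Measure (Fin n ⊕ ι → ℝ))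
  have hc : (volume : Measure (EE N)).map L'.symm = c • (volume : Measure (Fin n ⊕ ι → ℝ)) :=
    Measure.isAddLeftInvariant_eq_smul _ _
  refine ⟨c * 2 ^ n * (2 * K) ^ Fintype.card ι, by positivity, fun s hs => ?_⟩
  set Q : Set (Fin n ⊕ ι → ℝ) := {v | (∀ j, |v (Sum.inl j)| ≤ s) ∧ ∀ i, |v (Sum.inr i)| ≤ K} with hQ
  have hQ2 : Q = Set.pi univ (fun k : Fin n ⊕ ι => Icc (-(Sum.elim (fun _ => s) (fun _ => K) k))
      (Sum.elim (fun _ => s) (fun _ => K) k)) := by
    ext v
    simp only [hQ, mem_ofPred_eq, Set.mem_pi, mem_univ, true_imp_iff, mem_Icc, Sum.forall, Sum.elim_inl,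
      Sum.elim_inr, abs_le]
  have hvol : volume Q = ENNReal.ofReal ((2 * s) ^ n * (2 * K) ^ Fintype.card ι) := by
    rw [hQ2, volume_pi_pi, Fintype.prod_sum_type]
    simp only [Sum.elim_inl, Sum.elim_inr, Real.volume_Icc, Finset.prod_const, Finset.card_univ,
      Fintype.card_fin]
    rw [ENNReal.ofReal_mul (by positivity), ENNReal.ofReal_pow (by positivity),
      ENNReal.ofReal_pow (by positivity)]
    congr 3 <;> ring
  have hmQ : MeasurableSet Q := by
    rw [hQ2]
    exact MeasurableSet.univ_pi fun k => measurableSet_Icc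
  have himg : L '' Q = L'.symm ⁻¹' Q := by
    have : L '' Q = L' '' Q := rfl
    rw [this, ContinuousLinearEquiv.image_eq_preimage_symm]
  have h1 : volume (L '' Q) = (volume : Measure (EE N)).map L'.symm Q := by
    rw [himg, Measure.map_apply L'.symm.continuous.measurable hmQ]
  rw [h1, hc]
  have h2 : (c • (volume : Measure (Fin n ⊕ ι → ℝ))) Q = (c : ℝ≥0∞) * volume Q := rfl
  rw [h2, hvol]
  have h3 : (c : ℝ≥0∞) = ENNReal.ofReal (c : ℝ) := (ENNReal.ofReal_coe_nnreal).symm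
  rw [h3, ← ENNReal.ofReal_mul (by positivity)]
  apply ENNReal.ofReal_le_ofReal
  apply le_of_eq
  rw [mul_pow]
  ring

/-- the family of normals -/
def Slab_u {ι : Type} (g : ι → EE N) (w : Fin n → EE N) : Fin n ⊕ ι → EE N := Sum.elim w g

/-- the linear map `y ↦ ∑ ⟪y, u k⟫ g k` -/
def Slab_B {κ : Type} [Fintype κ] (u g : κ → EE N) : EE N →ₗ[ℝ] EE N :=
  ∑ k, (((innerSL ℝ (u k)) : EE N →L[ℝ] ℝ) : EE N →ₗ[ℝ] ℝ).smulRight (g k)

theorem Slab_B_apply {κ : Type} [Fintype κ] (u g : κ → EE N) (y : EE N) :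
    Slab_B u g y = ∑ k, (inner ℝ (u k) y : ℝ) • g k := by
  simp [Slab_B]

theorem Slab_det_cont {ι : Type} [Fintype ι] (g' : ι → EE N) (g : Fin n ⊕ ι → EE N) :
    Continuous fun w : Fin n → EE N => LinearMap.det (Slab_B (Slab_u g' w) g) := by
  have h : ∀ w : Fin n → EE N, LinearMap.det (Slab_B (Slab_u g' w) g) =
      (LinearMap.toMatrix (EuclideanSpace.basisFun (Fin N) ℝ).toBasis
        (EuclideanSpace.basisFun (Fin N) ℝ).toBasis (Slab_B (Slab_u g' w) g)).det :=
    fun w => (LinearMap.det_toMatrix _ _).symm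
  simp only [h]
  refine Continuous.matrix_det (continuous_matrix fun i j => ?_)
  have h2 : ∀ w : Fin n → EE N, LinearMap.toMatrix (EuclideanSpace.basisFun (Fin N) ℝ).toBasis
      (EuclideanSpace.basisFun (Fin N) ℝ).toBasis (Slab_B (Slab_u g' w) g) i j =
      ∑ k, (inner ℝ (Slab_u g' w k) (EuclideanSpace.basisFun (Fin N) ℝ j) : ℝ) * (g k) i := by
    intro w
    rw [LinearMap.toMatrix_apply, Slab_B_apply]
    simp
  simp only [h2]
  refine continuous_finsetSum _ fun k _ => ?_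
  refine Continuous.mul ?_ continuous_const
  refine Continuous.inner ?_ continuous_const
  rcases k with j | i
  · exact continuous_apply j
  · exact continuous_const

theorem slab {w₀ : Fin n → EE N} (h : LinearIndependent ℝ w₀) :
    ∃ C : ℝ, 0 ≤ C ∧ ∃ ρ > 0, ∀ w : Fin n → EE N, (∀ j, ‖w j - w₀ j‖ ≤ ρ) → ∀ s : ℝ, 0 ≤ s →
      volume {y : EE N | ‖y‖ < 1 ∧ ∀ j, |inner ℝ y (w j)| ≤ s} ≤ ENNReal.ofReal (C * s ^ n) := by
  classical
  obtain ⟨ι, _, b, hb⟩ := Slab_basis h
  let g' : ι → EE N := fun i => b (Sum.inr i)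
  -- the isomorphism
  let A : EE N →ₗ[ℝ] (Fin n ⊕ ι → ℝ) :=
    LinearMap.pi fun k => ((innerSL ℝ (b k) : EE N →L[ℝ] ℝ) : EE N →ₗ[ℝ] ℝ)
  have hA : ∀ y k, A y k = inner ℝ (b k) y := fun y k => rfl
  have hinj : Function.Injective A := by
    rw [← LinearMap.ker_eq_bot, LinearMap.ker_eq_bot']
    intro y hy
    have h1 : ∀ k, (inner ℝ (b k) y : ℝ) = 0 := fun k => by rw [← hA, hy]; rfl
    have h2 : (inner ℝ y y : ℝ) = 0 := by
      conv_lhs => rw [← b.sum_repr y]
      rw [b.sum_repr y]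
      nth_rewrite 1 [← b.sum_repr y]
      rw [sum_inner]
      refine Finset.sum_eq_zero fun k _ => ?_
      rw [real_inner_smul_left, h1, mul_zero]
    exact inner_self_eq_zero.1 h2
  have hfr : Module.finrank ℝ (EE N) = Module.finrank ℝ (Fin n ⊕ ι → ℝ) := by
    rw [Module.finrank_eq_card_basis b, Module.finrank_fintype_fun_eq_card]
  let e : EE N ≃ₗ[ℝ] (Fin n ⊕ ι → ℝ) := A.linearEquivOfInjective hinj hfr
  have he : ∀ y k, e y k = inner ℝ (b k) y := fun y k => rfl
  let L : (Fin n ⊕ ι → ℝ) ≃ₗ[ℝ] EE N := e.symm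
  let g : Fin n ⊕ ι → EE N := fun k => L (Pi.single k 1)
  have hL : ∀ v : Fin n ⊕ ι → ℝ, L v = ∑ k, v k • g k := by
    intro v
    conv_lhs => rw [pi_eq_sum_univ' v]
    rw [map_sum]
    refine Finset.sum_congr rfl fun k _ => ?_
    rw [map_smul]
  have hBL : ∀ (w : Fin n → EE N) (y : EE N),
      Slab_B (Slab_u g' w) g y = L (fun k => inner ℝ (Slab_u g' w k) y) := by
    intro w y
    rw [Slab_B_apply, hL]
  have hu0 : Slab_u g' w₀ = b := by
    funext k
    rcases k with j | i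
    · exact (hb j).symm
    · rfl
  have hB0 : Slab_B (Slab_u g' w₀) g = LinearMap.id := by
    ext1 y
    rw [hBL, hu0]
    have : (fun k => (inner ℝ (b k) y : ℝ)) = e y := by
      funext k
      exact (he y k).symm
    rw [this]
    exact e.symm_apply_apply y
  have hd0 : LinearMap.det (Slab_B (Slab_u g' w₀) g) = 1 := by rw [hB0, LinearMap.det_id]
  -- a neighbourhood
  have hev : ∀ᶠ w in 𝓝 w₀, (1 / 2 : ℝ) < LinearMap.det (Slab_B (Slab_u g' w) g) := by
    have hc := (Slab_det_cont g' g).tendsto w₀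
    rw [hd0] at hc
    exact hc.eventually (lt_mem_nhds (by norm_num))
  obtain ⟨ρ, hρ, hρ2⟩ := Metric.eventually_nhds_iff.1 hev
  let K : ℝ := ∑ i, ‖g' i‖
  have hK : 0 ≤ K := Finset.sum_nonneg fun i _ => norm_nonneg _
  obtain ⟨C, hC, hC2⟩ := Slab_box L hK
  refine ⟨2 * C, by positivity, ρ / 2, by positivity, fun w hw s hs => ?_⟩
  have hdist : dist w w₀ < ρ := by
    refine lt_of_le_of_lt ((dist_pi_le_iff (by positivity : (0 : ℝ) ≤ ρ / 2)).2 fun j => ?_)
      (by linarith : ρ / 2 < ρ)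
    rw [dist_eq_norm]
    exact hw j
  have hdet := hρ2 hdist
  set S : Set (EE N) := {y : EE N | ‖y‖ < 1 ∧ ∀ j, |inner ℝ y (w j)| ≤ s} with hS
  have hsub : Slab_B (Slab_u g' w) g '' S ⊆
      L '' {v | (∀ j, |v (Sum.inl j)| ≤ s) ∧ ∀ i, |v (Sum.inr i)| ≤ K} := by
    rintro _ ⟨y, hy, rfl⟩
    refine ⟨fun k => inner ℝ (Slab_u g' w k) y, ⟨fun j => ?_, fun i => ?_⟩, (hBL w y).symm⟩
    · have := hy.2 j
      show |(inner ℝ (w j) y : ℝ)| ≤ s
      rw [real_inner_comm]
      exact this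
    · have h1 : |(inner ℝ (g' i) y : ℝ)| ≤ ‖g' i‖ * ‖y‖ := abs_real_inner_le_norm _ _
      have h2 : ‖g' i‖ ≤ K := Finset.single_le_sum (f := fun i => ‖g' i‖) (fun i _ => norm_nonneg _)
        (Finset.mem_univ i)
      calc |(inner ℝ (g' i) y : ℝ)| ≤ ‖g' i‖ * ‖y‖ := h1
        _ ≤ ‖g' i‖ * 1 := mul_le_mul_of_nonneg_left hy.1.le (norm_nonneg _)
        _ ≤ K := by rw [mul_one]; exact h2
  have h3 := (measure_mono hsub).trans (hC2 s hs)
  rw [Measure.addHaar_image_linearMap] at h3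
  have h4 : ENNReal.ofReal (1 / 2) * volume S ≤ ENNReal.ofReal (C * s ^ n) := by
    refine le_trans ?_ h3
    gcongr
    exact hdet.le.trans (le_abs_self _)
  have h5 : volume S = ENNReal.ofReal 2 * (ENNReal.ofReal (1 / 2) * volume S) := by
    rw [← mul_assoc, ← ENNReal.ofReal_mul (by norm_num)]
    norm_num
  rw [h5, mul_assoc 2 C, ENNReal.ofReal_mul (by norm_num)]
  gcongr

end TAC
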