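import Pool.Agent.Lib.MP_82d824_gt.DgVol

/-!
# JOB WCont: continuity of the average over ellipsoids

Put `V c = ∫⁻ z in dg c '' ball 0 1, G z`, `W c = ∫⁻ y in ball 0 1, G (dg c y)`, `ofReal (∏ c) * W c = V c` (`lintegral_dg`).
* monotone: `c ≤ c'` (all positive) implies `dg c '' ball ⊆ dg c' '' ball` (`dg c y = dg c' (dg (c/c') y)`, `‖dg (c/c') y‖ ≤ ‖y‖`), so
  `V c ≤ V c'`.
* homogeneous: `V (r c) = r^N V c` (`dg (r c) '' ball = r • dg c '' ball`, `lintegral_smul_set`).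
* finite: `dg c '' ball ⊆ ball 0 R` with `R = 1 + ∑ c`, `lintegral_ball`.
* continuity of `V` at `c` (all `c i > 0`): for `r > 1` all `c'` near `c` satisfy `r⁻¹ c ≤ c' ≤ r c`, so
  `r^(-N) V c ≤ V c' ≤ r^N V c`; as `V c < ∞` this gives continuity (squeeze, `ENNReal.tendsto_...`; it may be easier to show that
  `(V c).toReal` is continuous and `V c = ofReal (toReal (V c))`).
* `W c = (ofReal (∏ c))⁻¹ * V c`, continuous (`ENNReal.Tendsto.mul` etc., or the real version again).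
-/

set_option autoImplicit false

open MeasureTheory Metric Set Filter Topology
open scoped ENNReal Manifold ContDiff

noncomputable section

namespace TAC

variable {N : ℕ}

theorem WCont_norm {c : Fin N → ℝ} {C : ℝ} (hC : 0 ≤ C) (h : ∀ i, |c i| ≤ C) (y : EE N) : ‖dg c y‖ ≤ C * ‖y‖ := by
  refine le_of_sq_le_sq ?_ (mul_nonneg hC (norm_nonneg y))
  rw [mul_pow, EuclideanSpace.norm_sq_eq, EuclideanSpace.norm_sq_eq, Finset.mul_sum]
  refine Finset.sum_le_sum fun i _ => ?_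
  rw [dg_apply, norm_mul, mul_pow, Real.norm_eq_abs]
  exact mul_le_mul_of_nonneg_right (pow_le_pow_left₀ (abs_nonneg _) (h i) 2) (sq_nonneg _)

theorem WCont_mono {c c' : Fin N → ℝ} (hc : ∀ i, 0 < c i) (h : ∀ i, c i ≤ c' i) :
    dg c '' ball (0 : EE N) 1 ⊆ dg c' '' ball (0 : EE N) 1 := by
  rintro _ ⟨y, hy, rfl⟩
  have hc' : ∀ i, 0 < c' i := fun i => (hc i).trans_le (h i)
  refine ⟨dg (fun i => c i / c' i) y, ?_, ?_⟩
  · rw [mem_ball_zero_iff] at hy ⊢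
    refine lt_of_le_of_lt (WCont_norm (C := 1) zero_le_one (fun i => ?_) y) (by rwa [one_mul])
    rw [abs_of_pos (div_pos (hc i) (hc' i))]
    exact (div_le_one (hc' i)).2 (h i)
  · rw [dg_dg]
    congr 1
    funext i
    exact mul_div_cancel₀ _ (hc' i).ne'

theorem WCont_smul (r : ℝ) (c : Fin N → ℝ) :
    dg (fun i => r * c i) '' ball (0 : EE N) 1 = (fun y => r • y) '' (dg c '' ball (0 : EE N) 1) := by
  rw [image_image]
  congr 1
  funext y
  rw [← dg_const, dg_dg]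

theorem WCont_V {G : EE N → ℝ≥0∞} (hG : Measurable G) (hh : ∀ c : ℝ, c ≠ 0 → ∀ y, G (c • y) = G y)
    {c : Fin N → ℝ} (hc : ∀ i, 0 < c i) {r : ℝ} (hr : 0 < r) :
    ∫⁻ z in dg (fun i => r * c i) '' ball (0 : EE N) 1, G z =
      ENNReal.ofReal (r ^ N) * ∫⁻ z in dg c '' ball (0 : EE N) 1, G z := by
  rw [WCont_smul]
  exact lintegral_smul_set hG hh hr (measurableSet_dg_image hc measurableSet_ball)

theorem WCont_V_lt_top {G : EE N → ℝ≥0∞} (hG : Measurable G) (hh : ∀ c : ℝ, c ≠ 0 → ∀ y, G (c • y) = G y)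
    (hfin : ∫⁻ y in ball (0 : EE N) 1, G y < ⊤) {c : Fin N → ℝ} (hc : ∀ i, 0 < c i) :
    ∫⁻ z in dg c '' ball (0 : EE N) 1, G z < ⊤ := by
  have hC : 0 ≤ ∑ i, c i := Finset.sum_nonneg fun i _ => (hc i).le
  have hR : 0 < 1 + ∑ i, c i := by linarith
  have hsub : dg c '' ball (0 : EE N) 1 ⊆ ball (0 : EE N) (1 + ∑ i, c i) := by
    rintro _ ⟨y, hy, rfl⟩
    rw [mem_ball_zero_iff] at hy ⊢
    have h1 := WCont_norm (c := c) hC (fun i => by
      rw [abs_of_pos (hc i)]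
      exact Finset.single_le_sum (fun j _ => (hc j).le) (Finset.mem_univ i)) y
    have h2 : (∑ i, c i) * ‖y‖ ≤ (∑ i, c i) * 1 := mul_le_mul_of_nonneg_left hy.le hC
    linarith
  refine lt_of_le_of_lt (lintegral_mono_set hsub) ?_
  rw [lintegral_ball hG hh hR]
  exact ENNReal.mul_lt_top ENNReal.ofReal_lt_top hfin

theorem WCont_W {G : EE N → ℝ≥0∞} (hG : Measurable G) {c : Fin N → ℝ} (hc : ∀ i, 0 < c i) :
    ∫⁻ y in ball (0 : EE N) 1, G (dg c y) =
      (∫⁻ z in dg c '' ball (0 : EE N) 1, G z) / ENNReal.ofReal (∏ i, c i) := by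
  rw [ENNReal.eq_div_iff (ENNReal.ofReal_pos.2 (Finset.prod_pos fun i _ => hc i)).ne' ENNReal.ofReal_ne_top]
  exact lintegral_dg hc G hG measurableSet_ball

theorem W_lt_top {G : EE N → ℝ≥0∞} (hG : Measurable G) (hh : ∀ c : ℝ, c ≠ 0 → ∀ y, G (c • y) = G y)
    (hfin : ∫⁻ y in ball (0 : EE N) 1, G y < ⊤) {c : Fin N → ℝ} (hc : ∀ i, 0 < c i) :
    ∫⁻ y in ball (0 : EE N) 1, G (dg c y) < ⊤ := by
  rw [WCont_W hG hc]
  exact ENNReal.div_lt_top (WCont_V_lt_top hG hh hfin hc).ne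
    (ENNReal.ofReal_pos.2 (Finset.prod_pos fun i _ => hc i)).ne'

theorem WCont_V_cont {G : EE N → ℝ≥0∞} (hG : Measurable G) (hh : ∀ c : ℝ, c ≠ 0 → ∀ y, G (c • y) = G y)
    (hfin : ∫⁻ y in ball (0 : EE N) 1, G y < ⊤) {c : Fin N → ℝ} (hc : ∀ i, 0 < c i) :
    Tendsto (fun c' : Fin N → ℝ => ∫⁻ z in dg c' '' ball (0 : EE N) 1, G z) (𝓝 c)
      (𝓝 (∫⁻ z in dg c '' ball (0 : EE N) 1, G z)) := by
  have hV := WCont_V_lt_top hG hh hfin hc
  have hlim : Tendsto (fun r : ℝ => ENNReal.ofReal (r ^ N) * ∫⁻ z in dg c '' ball (0 : EE N) 1, G z) (𝓝 1)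
      (𝓝 (∫⁻ z in dg c '' ball (0 : EE N) 1, G z)) := by
    have h1 : Tendsto (fun r : ℝ => ENNReal.ofReal (r ^ N)) (𝓝 1) (𝓝 1) := by
      have h2 : Tendsto (fun r : ℝ => r ^ N) (𝓝 1) (𝓝 (1 ^ N)) := tendsto_id.pow N
      rw [one_pow] at h2
      have h3 := ENNReal.tendsto_ofReal h2
      rwa [ENNReal.ofReal_one] at h3
    have h4 := ENNReal.Tendsto.mul_const (b := ∫⁻ z in dg c '' ball (0 : EE N) 1, G z) h1 (Or.inr hV.ne)
    rwa [one_mul] at h4
  rw [tendsto_order]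
  constructor
  · intro a ha
    have h1 := hlim.eventually (lt_mem_nhds ha)
    have h2 : ∀ᶠ r in 𝓝[<] (1 : ℝ), (a < ENNReal.ofReal (r ^ N) * ∫⁻ z in dg c '' ball (0 : EE N) 1, G z) ∧
        r ∈ Ioo (0 : ℝ) 1 :=
      (h1.filter_mono nhdsWithin_le_nhds).and (Ioo_mem_nhdsLT zero_lt_one)
    obtain ⟨r, hr1, hr2⟩ := h2.exists
    have h3 : ∀ᶠ c' in 𝓝 c, ∀ i, r * c i ≤ c' i := by
      rw [eventually_all]
      intro i
      have h4 : Tendsto (fun c' : Fin N → ℝ => c' i) (𝓝 c) (𝓝 (c i)) := (continuous_apply i).tendsto c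
      have h5 : r * c i < c i := by
        have := hc i
        nlinarith [hr2.2]
      exact (h4.eventually (lt_mem_nhds h5)).mono fun _ h => le_of_lt h
    refine h3.mono fun c' hc' => lt_of_lt_of_le hr1 ?_
    rw [← WCont_V hG hh hc hr2.1]
    exact lintegral_mono_set (WCont_mono (fun i => mul_pos hr2.1 (hc i)) hc')
  · intro a ha
    have h1 := hlim.eventually (gt_mem_nhds ha)
    have h2 : ∀ᶠ r in 𝓝[>] (1 : ℝ), (ENNReal.ofReal (r ^ N) * ∫⁻ z in dg c '' ball (0 : EE N) 1, G z < a) ∧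
        r ∈ Ioi (1 : ℝ) :=
      (h1.filter_mono nhdsWithin_le_nhds).and self_mem_nhdsWithin
    obtain ⟨r, hr1, hr2⟩ := h2.exists
    have hr0 : 0 < r := lt_trans zero_lt_one hr2
    have h3 : ∀ᶠ c' in 𝓝 c, ∀ i, 0 < c' i ∧ c' i ≤ r * c i := by
      rw [eventually_all]
      intro i
      have h4 : Tendsto (fun c' : Fin N → ℝ => c' i) (𝓝 c) (𝓝 (c i)) := (continuous_apply i).tendsto c
      have h5 : c i < r * c i := by
        have := hc i
        have hr3 : 1 < r := hr2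
        nlinarith
      exact ((h4.eventually (lt_mem_nhds (hc i))).and (h4.eventually (gt_mem_nhds h5))).mono
        fun _ h => ⟨h.1, le_of_lt h.2⟩
    refine h3.mono fun c' hc' => lt_of_le_of_lt ?_ hr1
    rw [← WCont_V hG hh hc hr0]
    exact lintegral_mono_set (WCont_mono (fun i => (hc' i).1) fun i => (hc' i).2)

theorem W_continuousOn {G : EE N → ℝ≥0∞} (hG : Measurable G) (hh : ∀ c : ℝ, c ≠ 0 → ∀ y, G (c • y) = G y)
    (hfin : ∫⁻ y in ball (0 : EE N) 1, G y < ⊤) :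
    ContinuousOn (fun c : Fin N → ℝ => ∫⁻ y in ball (0 : EE N) 1, G (dg c y)) {c | ∀ i, 0 < c i} := by
  intro c hc
  have hc' : ∀ i, 0 < c i := hc
  have h1 := WCont_V_cont hG hh hfin hc'
  have h2 : Tendsto (fun c' : Fin N → ℝ => ENNReal.ofReal (∏ i, c' i)) (𝓝 c) (𝓝 (ENNReal.ofReal (∏ i, c i))) := by
    refine ENNReal.tendsto_ofReal ?_
    exact (continuous_finsetProd Finset.univ fun i _ => continuous_apply i).tendsto c
  have h3 := ENNReal.Tendsto.div h1 (Or.inr (ENNReal.ofReal_pos.2 (Finset.prod_pos fun i _ => hc' i)).ne') h2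
    (Or.inr (WCont_V_lt_top hG hh hfin hc').ne)
  rw [← WCont_W hG hc'] at h3
  refine Tendsto.congr' ?_ (h3.mono_left nhdsWithin_le_nhds)
  filter_upwards [self_mem_nhdsWithin] with c'' hc''
  exact (WCont_W hG hc'').symm

end TAC
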